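import Pool.Agent.H67.RW.Fin

/-!
# Module Abs (window form): from relative to absolute coordinates
-/

set_option autoImplicit false

namespace Pool.Agent.H67.RW

open Finset Pool.Agent.H67.RG

/-- regularity at `n`, normalised by `log N` -/
def RegularN (M K η : ℝ) (N n : ℕ) : Prop :=
  (∀ a b : ℝ, NearX M K N n a b → pr a b ≤ K * ((b - a) / Real.log N)) ∧
  (∀ a b : ℝ, NearX M K N n a b → (Real.log N) ^ K ≤ b - a →
    pr a b ≤ (4 + η) * ((b - a) / Real.log (N * (b - a)))) ∧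
  ∃ T : Finset ℝ, (T.card : ℝ) ≤ K ∧ ∀ a b a' b' : ℝ, NearX M K N n a b → NearX M K N n a' b' →
    b - a ≤ b' - a' → (∀ t ∈ T, ¬ ((b - a) / 2 ≤ t ∧ t ≤ 2 * (b' - a'))) →
    |pr a b / (b - a) - pr a' b' / (b' - a')| ≤ η / Real.log N

/-- lower bounds at `n`, normalised by `log N` -/
def RichN (K c c' : ℝ) (N n : ℕ) : Prop :=
  ∀ H : ℝ, K * Real.log N ≤ H → H ≤ N / K →
    c * (H / Real.log N) ≤ pr n (n + H) ∧ c' * (H / Real.log N) ≤ pr (n - H) n

theorem prs_sh (B : ℕ) (a b : ℝ) (ha : (B : ℝ) ≤ a) : prs (Sh B) (a - B) (b - B) = pr a b := by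
  unfold prs pr
  congr 1
  rw [Nat.floor_sub_natCast, Nat.floor_sub_natCast]
  have hB : B ≤ ⌊a⌋₊ := Nat.le_floor ha
  refine card_bij (fun k _ => B + k) ?_ ?_ ?_
  · intro k hk
    rw [mem_filter, mem_Ioc] at hk ⊢
    exact ⟨⟨by omega, by omega⟩, hk.2⟩
  · intro a _ b _ hab
    exact Nat.add_left_cancel hab
  · intro k hk
    rw [mem_filter, mem_Ioc] at hk
    refine ⟨k - B, ?_, by omega⟩
    rw [mem_filter, mem_Ioc]
    refine ⟨⟨by omega, by omega⟩, ?_⟩
    unfold Sh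
    rw [show B + (k - B) = k by omega]
    exact hk.2

private theorem near_tr {B : ℕ} {M K : ℝ} {X m : ℕ} {a b : ℝ} (hM : 1 ≤ M) (hMK : M ≤ K) (hX : 1 ≤ X) (hm : X < m)
    (h : NearX M K X (B + m) a b) : NearX M K X m (a - B) (b - B) ∧ (B : ℝ) ≤ a := by
  obtain ⟨h1, h2, h3⟩ := h
  have hK : 0 < K := by linarith
  have e : (b - B) - (a - B) = b - a := by ring
  refine ⟨⟨by rw [e]; exact h1, by rw [e]; exact h2, ?_⟩, ?_⟩
  · rw [e]
    have e2 : a - B - m = a - ((B + m : ℕ) : ℝ) := by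
      push_cast
      ring
    rw [e2]
    exact h3
  · have h4 := (abs_le.1 h3).1
    push_cast at h4
    rw [le_div_iff₀ hK] at h2
    have hXm : (X : ℝ) < m := by exact_mod_cast hm
    have hlog : 0 ≤ Real.log (X : ℝ) := Real.log_natCast_nonneg _
    have h5 : 0 ≤ b - a := (mul_nonneg hK.le hlog).trans h1
    have h6 : M * (b - a) ≤ X := by nlinarith
    linarith

theorem reg_tr (B : ℕ) (M K η : ℝ) (X m : ℕ) (hM : 1 ≤ M) (hMK : M ≤ K) (hX : 1 ≤ X) (hm : X < m)
    (hA : RegA (Sh B) M K X m) (hB : RegB (Sh B) M K η X m) (hC : RegC (Sh B) M K η X m) :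
    RegularN M K η X (B + m) := by
  refine ⟨?_, ?_, ?_⟩
  · intro a b hab
    obtain ⟨h1, h2⟩ := near_tr hM hMK hX hm hab
    have h3 := hA _ _ h1
    rw [prs_sh B a b h2] at h3
    have e : (b - B) - (a - B) = b - a := by ring
    rw [e] at h3
    exact h3
  · intro a b hab hl
    obtain ⟨h1, h2⟩ := near_tr hM hMK hX hm hab
    have e : (b - B) - (a - B) = b - a := by ring
    have h3 := hB _ _ h1 (by rw [e]; exact hl)
    rw [prs_sh B a b h2, e] at h3
    exact h3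
  · obtain ⟨T, hT, h⟩ := hC
    refine ⟨T, hT, ?_⟩
    intro a b a' b' hab hab' hle ht
    obtain ⟨h1, h2⟩ := near_tr hM hMK hX hm hab
    obtain ⟨h1', h2'⟩ := near_tr hM hMK hX hm hab'
    have e : (b - B) - (a - B) = b - a := by ring
    have e' : (b' - B) - (a' - B) = b' - a' := by ring
    have h3 := h _ _ _ _ h1 h1' (by rw [e, e']; exact hle) (by rw [e, e']; exact ht)
    rw [prs_sh B a b h2, prs_sh B a' b' h2', e, e'] at h3
    exact h3

theorem rich_tr (B : ℕ) (K c c' : ℝ) (X m : ℕ) (hK : 1 ≤ K) (hm : X < m)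
    (h : RichX (Sh B) (K * Real.log X) K c c' X m) : RichN K c c' X (B + m) := by
  intro H h1 h2
  obtain ⟨h3, h4⟩ := h H h1 h2
  have hlog : 0 ≤ Real.log (X : ℝ) := Real.log_natCast_nonneg _
  have hH : 0 ≤ H := (mul_nonneg (by linarith) hlog).trans h1
  have hXm : (X : ℝ) < m := by exact_mod_cast hm
  have hHX : H ≤ X := h2.trans (div_le_self (Nat.cast_nonneg _) hK)
  constructor
  · have e := prs_sh B ((B + m : ℕ) : ℝ) ((B + m : ℕ) + H) (by push_cast; linarith [(Nat.cast_nonneg m : (0 : ℝ) ≤ m)])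
    rw [← e]
    have e1 : ((B + m : ℕ) : ℝ) - B = m := by push_cast; ring
    have e2 : ((B + m : ℕ) : ℝ) + H - B = m + H := by push_cast; ring
    rw [e1, e2]
    exact h3
  · have e := prs_sh B (((B + m : ℕ) : ℝ) - H) ((B + m : ℕ) : ℝ) (by push_cast; linarith)
    rw [← e]
    have e1 : ((B + m : ℕ) : ℝ) - B = m := by push_cast; ring
    have e2 : ((B + m : ℕ) : ℝ) - H - B = m - H := by push_cast; ring
    rw [e1, e2]
    exact h4

end Pool.Agent.H67.RW
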