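import Pool.Agent.H67.RW.Cnt

/-!
# Module Cnt2 (window form): a good shift, and the number of integers in good blocks from a second moment
-/

set_option autoImplicit false

namespace Pool.Agent.H67.RW

open Finset Pool.Agent.H67.RG

private theorem pe_sq (S : ℕ → Prop) [DecidablePred S] (X h s : ℕ) (i : ℤ) :
    (fs S X h s i) ^ 2 ≤ (Real.log X / h) ^ 2 * (pcs S (s + i.toNat * h) h : ℝ) ^ 2 := by
  unfold fs
  split_ifs
  · rw [mul_pow]
  · rw [zero_pow two_ne_zero]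
    positivity

private theorem pe_sum (S : ℕ → Prop) [DecidablePred S] (X h : ℕ) (hh : 1 ≤ h) :
    ∑ s ∈ range h, ∑ i ∈ Gs X h s, (pcs S (s + i.toNat * h) h : ℝ) ^ 2 ≤
      ∑ n ∈ Icc X (2 * X), (pcs S n h : ℝ) ^ 2 := by
  classical
  rw [sum_sigma']
  have hinj : Set.InjOn (fun x : (_ : ℕ) × ℤ => x.1 + x.2.toNat * h)
      (((range h).sigma fun s => Gs X h s : Finset ((_ : ℕ) × ℤ)) : Set ((_ : ℕ) × ℤ)) := by
    rintro ⟨a, i⟩ hx ⟨b, j⟩ hy hxy
    rw [mem_coe, mem_sigma, mem_range] at hx hy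
    simp only at hx hy hxy
    unfold Gs at hx hy
    rw [mem_filter, mem_Ico] at hx hy
    have h1 : (a + i.toNat * h) % h = (b + j.toNat * h) % h := by rw [hxy]
    rw [Nat.add_mul_mod_self_right, Nat.add_mul_mod_self_right, Nat.mod_eq_of_lt hx.1, Nat.mod_eq_of_lt hy.1] at h1
    subst h1
    have h2 : i.toNat * h = j.toNat * h := by omega
    have h3 : i.toNat = j.toNat := Nat.eq_of_mul_eq_mul_right (by omega) h2
    have h4 : i = j := by
      rw [← Int.toNat_of_nonneg hx.2.1.1, ← Int.toNat_of_nonneg hy.2.1.1, h3]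
    rw [h4]
  rw [← sum_image (f := fun n : ℕ => (pcs S n h : ℝ) ^ 2) (g := fun x : (_ : ℕ) × ℤ => x.1 + x.2.toNat * h) hinj]
  refine sum_le_sum_of_subset_of_nonneg ?_ (fun _ _ _ => sq_nonneg _)
  intro n hn
  rw [mem_image] at hn
  obtain ⟨⟨a, i⟩, hx, rfl⟩ := hn
  rw [mem_sigma, mem_range] at hx
  simp only at hx ⊢
  unfold Gs at hx
  rw [mem_filter] at hx
  rw [mem_Icc]
  refine ⟨hx.2.2.1, ?_⟩
  have e : (i.toNat + 1) * h = i.toNat * h + h := by ring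
  omega

theorem shiftS (S : ℕ → Prop) [DecidablePred S] (X h : ℕ) (hh : 1 ≤ h) (V : ℝ)
    (hV : ∑ n ∈ Icc X (2 * X), (pcs S n h : ℝ) ^ 2 ≤ V) :
    ∃ s < h, ∑ i ∈ Gs X h s, (fs S X h s i) ^ 2 ≤ (Real.log X / h) ^ 2 * (V / h) := by
  have hhr : (0 : ℝ) < h := by exact_mod_cast hh
  have hne : (range h).Nonempty := ⟨0, mem_range.2 (by omega)⟩
  have hle : ∑ s ∈ range h, ∑ i ∈ Gs X h s, (fs S X h s i) ^ 2 ≤
      ∑ _s ∈ range h, (Real.log X / h) ^ 2 * (V / h) := by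
    rw [sum_const, card_range, nsmul_eq_mul]
    have e1 : (h : ℝ) * ((Real.log X / h) ^ 2 * (V / h)) = (Real.log X / h) ^ 2 * V := by
      field_simp
    rw [e1]
    calc ∑ s ∈ range h, ∑ i ∈ Gs X h s, (fs S X h s i) ^ 2 ≤
        ∑ s ∈ range h, ∑ i ∈ Gs X h s, (Real.log X / h) ^ 2 * (pcs S (s + i.toNat * h) h : ℝ) ^ 2 :=
          sum_le_sum fun s _ => sum_le_sum fun i _ => pe_sq S X h s i
      _ = (Real.log X / h) ^ 2 * ∑ s ∈ range h, ∑ i ∈ Gs X h s, (pcs S (s + i.toNat * h) h : ℝ) ^ 2 := by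
          rw [mul_sum]
          refine sum_congr rfl fun s _ => ?_
          rw [mul_sum]
      _ ≤ (Real.log X / h) ^ 2 * V :=
          mul_le_mul_of_nonneg_left ((pe_sum S X h hh).trans hV) (sq_nonneg _)
  obtain ⟨s, hs, hs2⟩ := exists_le_of_sum_le hne hle
  exact ⟨s, mem_range.1 hs, hs2⟩

open Classical in
private theorem out_card (S : ℕ → Prop) [DecidablePred S] (X h s : ℕ) (hh : 1 ≤ h) (hs : s < h) (h2h : 2 * h ≤ X) :
    ((Ioc X (2 * X)).filter (fun p => S p ∧ idx h s p ∉ Gs X h s)).card ≤ 2 * h := by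
  have hsub : (Ioc X (2 * X)).filter (fun p => S p ∧ idx h s p ∉ Gs X h s) ⊆
      Ioc X (X + h) ∪ Ioc (2 * X - h) (2 * X) := by
    intro n hn
    rw [mem_filter, mem_Ioc] at hn
    obtain ⟨⟨hn1, hn2⟩, -, hG⟩ := hn
    obtain ⟨h1, h2, h3⟩ := idx_spec h s n hh (by omega)
    obtain ⟨q, hq⟩ : ∃ q : ℤ, q = idx h s n := ⟨_, rfl⟩
    rw [← hq] at h1 h2 h3 hG
    have e1 : (q.toNat + 1) * h = q.toNat * h + h := by ring
    rw [mem_union, mem_Ioc, mem_Ioc]
    by_cases c1 : X ≤ s + q.toNat * h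
    · by_cases c2 : s + (q.toNat + 1) * h ≤ 2 * X
      · exfalso
        apply hG
        unfold Gs
        rw [mem_filter, mem_Ico]
        refine ⟨⟨h1, ?_⟩, c1, c2⟩
        have h4 : q.toNat * 1 ≤ q.toNat * h := Nat.mul_le_mul_left _ hh
        omega
      · right
        omega
    · left
      omega
  refine (card_le_card hsub).trans ((card_union_le _ _).trans ?_)
  rw [Nat.card_Ioc, Nat.card_Ioc]
  omega

open Classical in
private theorem ce_card2 (X h s : ℕ) (hh : 1 ≤ h) (Bad : Finset ℤ) :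
    (Gs X h s \ Bad).card * h ≤ ((Ioc X (2 * X)).filter (fun n => idx h s n ∉ Bad)).card := by
  have e : (Gs X h s \ Bad).card * h = ((Gs X h s \ Bad) ×ˢ range h).card := by
    rw [card_product, card_range]
  rw [e]
  have key : ∀ x ∈ (Gs X h s \ Bad) ×ˢ range h, 0 ≤ x.1 ∧ x.1 ∉ Bad ∧ x.2 < h ∧
      X < s + x.1.toNat * h + 1 + x.2 ∧ s + x.1.toNat * h + 1 + x.2 ≤ 2 * X ∧
      idx h s (s + x.1.toNat * h + 1 + x.2) = x.1 := by
    rintro ⟨i, r⟩ hx
    rw [mem_product, mem_sdiff, mem_range] at hx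
    simp only at hx ⊢
    obtain ⟨⟨hG, hB⟩, hr⟩ := hx
    unfold Gs at hG
    rw [mem_filter, mem_Ico] at hG
    obtain ⟨⟨b1, _⟩, b3, b4⟩ := hG
    have e1 : (i.toNat + 1) * h = i.toNat * h + h := by ring
    refine ⟨b1, hB, hr, by omega, by omega, ?_⟩
    have := idx_block h s (s + i.toNat * h + 1 + r) i.toNat hh (by omega) (by omega)
    rw [this, Int.toNat_of_nonneg b1]
  refine card_le_card_of_injOn (fun x => s + x.1.toNat * h + 1 + x.2) ?_ ?_
  · intro x hx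
    obtain ⟨b1, b2, b3, b4, b5, b6⟩ := key x hx
    rw [mem_coe, mem_filter, mem_Ioc]
    refine ⟨⟨b4, b5⟩, ?_⟩
    simp only
    rw [b6]
    exact b2
  · intro x hx y hy hxy
    obtain ⟨b1, b2, b3, b4, b5, b6⟩ := key x hx
    obtain ⟨c1, c2, c3, c4, c5, c6⟩ := key y hy
    simp only at hxy
    have h1 : x.1 = y.1 := by
      rw [← b6, ← c6, hxy]
    have h2 : x.2 = y.2 := by
      rw [h1] at hxy
      omega
    exact Prod.ext h1 h2

open Classical in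
theorem cntK (S : ℕ → Prop) [DecidablePred S] (X h s : ℕ) (hX : 2 ≤ X) (h2h : 2 * h ≤ X) (hs : s < h)
    (Bad : Finset ℤ) (ρ β δ K2 : ℝ) (hK2 : 0 < K2) (hβ : β + δ ≤ ρ)
    (h1 : ∑ i ∈ Bad, fs S X h s i ≤ β * ((X : ℝ) / h)) (h2 : ρ * (X / Real.log X) ≤ (pcs S X X : ℝ))
    (h3 : ∑ i ∈ Gs X h s, (fs S X h s i) ^ 2 ≤ K2 * ((X : ℝ) / h)) (h4 : 2 * h * Real.log X ≤ δ * X) :
    (ρ - β - δ) ^ 2 / K2 * X ≤ (((Ioc X (2 * X)).filter (fun n => idx h s n ∉ Bad)).card : ℝ) := by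
  have hXR : (2 : ℝ) ≤ X := by exact_mod_cast hX
  have hX0 : (0 : ℝ) < X := by linarith
  have hlog : 0 < Real.log X := Real.log_pos (by linarith)
  have hh : 1 ≤ h := by omega
  have hhr : (0 : ℝ) < h := by exact_mod_cast hh
  obtain ⟨Y, hY⟩ : ∃ Y : ℝ, Y = (X : ℝ) / h := ⟨_, rfl⟩
  have hY0 : 0 < Y := by rw [hY]; positivity
  have hYh : Y * h = X := by rw [hY, div_mul_cancel₀ _ hhr.ne']
  -- mass of the inner blocks
  have hmass : (ρ - δ) * Y ≤ ∑ i ∈ Gs X h s, fs S X h s i := by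
    have hsplit : (Ioc X (X + X)).filter S ⊆ ((Ioc X (2 * X)).filter (fun p => S p ∧ idx h s p ∈ Gs X h s)) ∪
        ((Ioc X (2 * X)).filter (fun p => S p ∧ idx h s p ∉ Gs X h s)) := by
      intro p hp
      rw [mem_filter] at hp
      have e2 : X + X = 2 * X := by ring
      rw [e2] at hp
      rw [mem_union, mem_filter, mem_filter]
      by_cases hb : idx h s p ∈ Gs X h s
      · exact Or.inl ⟨hp.1, hp.2, hb⟩
      · exact Or.inr ⟨hp.1, hp.2, hb⟩
    have h5 : (pcs S X X : ℝ) ≤ (((Ioc X (2 * X)).filter (fun p => S p ∧ idx h s p ∈ Gs X h s)).card : ℝ) +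
        (((Ioc X (2 * X)).filter (fun p => S p ∧ idx h s p ∉ Gs X h s)).card : ℝ) := by
      unfold pcs
      exact_mod_cast (card_le_card hsplit).trans (card_union_le _ _)
    have h6 := prs_bad S X h s hX hh hs h2h (Gs X h s)
    have h7 : (((Ioc X (2 * X)).filter (fun p => S p ∧ idx h s p ∉ Gs X h s)).card : ℝ) ≤ 2 * h := by
      exact_mod_cast out_card S X h s hh hs h2h
    obtain ⟨Q, hQ⟩ : ∃ Q : ℝ, Q = ∑ i ∈ Gs X h s, fs S X h s i := ⟨_, rfl⟩
    rw [← hQ] at h6 ⊢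
    have h8 : ρ * (X / Real.log X) ≤ h / Real.log X * Q + 2 * h := by linarith
    have h9 : (h : ℝ) / Real.log X * ((ρ - δ) * Y) ≤ h / Real.log X * Q := by
      have e1 : (h : ℝ) / Real.log X * ((ρ - δ) * Y) = ρ * (X / Real.log X) - δ * X / Real.log X := by
        rw [← hYh]
        ring
      rw [e1]
      have e2 : 2 * (h : ℝ) ≤ δ * X / Real.log X := by
        rw [le_div_iff₀ hlog]
        exact h4
      linarith
    exact le_of_mul_le_mul_left h9 (by positivity)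
  rw [← hY] at h1 h3
  obtain ⟨R, hR⟩ : ∃ R : Finset ℤ, R = Gs X h s \ Bad := ⟨_, rfl⟩
  have hRs : (ρ - β - δ) * Y ≤ ∑ i ∈ R, fs S X h s i := by
    have e1 : ∑ i ∈ Gs X h s, fs S X h s i ≤ ∑ i ∈ R, fs S X h s i + ∑ i ∈ Bad, fs S X h s i := by
      have hsub : Gs X h s ⊆ R ∪ Bad := by
        intro i hi
        rw [mem_union, hR, mem_sdiff]
        by_cases hb : i ∈ Bad
        · exact Or.inr hb
        · exact Or.inl ⟨hi, hb⟩
      have e2 := sum_le_sum_of_subset_of_nonneg hsub (fun i _ _ => fs_nonneg S X h s i)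
      have e3 := sum_union_inter (s₁ := R) (s₂ := Bad) (f := fs S X h s)
      have e4 : 0 ≤ ∑ i ∈ R ∩ Bad, fs S X h s i := sum_nonneg fun i _ => fs_nonneg S X h s i
      linarith
    linarith
  have hcs : (∑ i ∈ R, fs S X h s i) ^ 2 ≤ (R.card : ℝ) * (K2 * Y) := by
    have e1 : (∑ i ∈ R, fs S X h s i) ^ 2 ≤ (R.card : ℝ) * ∑ i ∈ R, (fs S X h s i) ^ 2 := sq_sum_le_card_mul_sum_sq
    have e2 : ∑ i ∈ R, (fs S X h s i) ^ 2 ≤ ∑ i ∈ Gs X h s, (fs S X h s i) ^ 2 := by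
      refine sum_le_sum_of_subset_of_nonneg ?_ (fun _ _ _ => sq_nonneg _)
      rw [hR]
      exact sdiff_subset
    exact e1.trans (mul_le_mul_of_nonneg_left (e2.trans h3) (Nat.cast_nonneg _))
  have hsq : ((ρ - β - δ) * Y) ^ 2 ≤ (R.card : ℝ) * (K2 * Y) :=
    (pow_le_pow_left₀ (mul_nonneg (by linarith) hY0.le) hRs 2).trans hcs
  have hRc : (ρ - β - δ) ^ 2 * Y ≤ (R.card : ℝ) * K2 := by
    have e1 : (ρ - β - δ) ^ 2 * Y * Y ≤ (R.card : ℝ) * K2 * Y := by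
      calc (ρ - β - δ) ^ 2 * Y * Y = ((ρ - β - δ) * Y) ^ 2 := by ring
        _ ≤ (R.card : ℝ) * (K2 * Y) := hsq
        _ = (R.card : ℝ) * K2 * Y := by ring
    exact le_of_mul_le_mul_right e1 hY0
  have hcard : ((R.card : ℝ)) * h ≤ (((Ioc X (2 * X)).filter (fun n => idx h s n ∉ Bad)).card : ℝ) := by
    rw [hR]
    exact_mod_cast ce_card2 X h s hh Bad
  refine le_trans ?_ hcard
  rw [div_mul_eq_mul_div, div_le_iff₀ hK2, ← hYh]
  calc (ρ - β - δ) ^ 2 * (Y * h) = (ρ - β - δ) ^ 2 * Y * h := by ring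
    _ ≤ (R.card : ℝ) * K2 * h := mul_le_mul_of_nonneg_right hRc hhr.le
    _ = (R.card : ℝ) * h * K2 := by ring

end Pool.Agent.H67.RW
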