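import Pool.Agent.H67.RG.Dn

/-!
# The density of primes at all scales in EVERY short interval (MP_31d0eb_nt, window form of theorem R): definitions

`S` is an arbitrary set of natural numbers (it will be `{n : B + n prime}`), the window is `(X, 2X]` in relative coordinates. Everything is
normalised by `log X`, `X` the length of the window. `Eng C S X` is the only hypothesis (besides the almost all Brun-Titchmarsh theorem for `RegB`).
-/

set_option autoImplicit false

namespace Pool.Agent.H67.RW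

open Finset Pool.Agent.H67.RG

/-- the number of elements of `S` in `(n, n + h]` -/
def pcs (S : ℕ → Prop) [DecidablePred S] (n h : ℕ) : ℕ := ((Ioc n (n + h)).filter S).card

/-- the number of elements of `S` in `(a, b]` -/
noncomputable def prs (S : ℕ → Prop) [DecidablePred S] (a b : ℝ) : ℝ := (((Ioc ⌊a⌋₊ ⌊b⌋₊).filter S).card : ℝ)

/-- the density of `S` in the block `(s + i h, s + (i+1) h]` -/
noncomputable def fs (S : ℕ → Prop) [DecidablePred S] (X h s : ℕ) (i : ℤ) : ℝ :=
  if 1 ≤ i ∧ s + (i.toNat + 1) * h ≤ 3 * X then Real.log X / h * (pcs S (s + i.toNat * h) h : ℝ) else 0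

/-- second moment of `S` in intervals of length `m ≥ log X` -/
def Eng (C : ℝ) (S : ℕ → Prop) [DecidablePred S] (X : ℕ) : Prop :=
  ∀ m : ℕ, Real.log X ≤ m → m ≤ 3 * X →
    ∑ n ∈ range (3 * X), (pcs S n m : ℝ) ^ 2 ≤ C * ((m : ℝ) ^ 2 * X / (Real.log X) ^ 2)

/-- `(a, b]` is near `n`; window of length `X` -/
def NearX (M K : ℝ) (X n : ℕ) (a b : ℝ) : Prop :=
  K * Real.log X ≤ b - a ∧ b - a ≤ X / K ∧ |a - n| ≤ M * (b - a)

/-- upper bound of the right order in all near intervals -/
def RegA (S : ℕ → Prop) [DecidablePred S] (M K : ℝ) (X n : ℕ) : Prop :=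
  ∀ a b : ℝ, NearX M K X n a b → prs S a b ≤ K * ((b - a) / Real.log X)

/-- upper bound with the factor `4 + δ` in all near intervals of length at least `(log X)^K` -/
def RegB (S : ℕ → Prop) [DecidablePred S] (M K δ : ℝ) (X n : ℕ) : Prop :=
  ∀ a b : ℝ, NearX M K X n a b → (Real.log X) ^ K ≤ b - a →
    prs S a b ≤ (4 + δ) * ((b - a) / Real.log (X * (b - a)))

/-- common density between the cuts `t ∈ T` -/
def RegC (S : ℕ → Prop) [DecidablePred S] (M K η : ℝ) (X n : ℕ) : Prop :=
  ∃ T : Finset ℝ, (T.card : ℝ) ≤ K ∧ ∀ a b a' b' : ℝ, NearX M K X n a b → NearX M K X n a' b' →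
    b - a ≤ b' - a' → (∀ t ∈ T, ¬ ((b - a) / 2 ≤ t ∧ t ≤ 2 * (b' - a'))) →
    |prs S a b / (b - a) - prs S a' b' / (b' - a')| ≤ η / Real.log X

/-- lower bounds to the right and to the left at all scales from `K0` to `X / K1` -/
def RichX (S : ℕ → Prop) [DecidablePred S] (K0 K1 c c' : ℝ) (X n : ℕ) : Prop :=
  ∀ H : ℝ, K0 ≤ H → H ≤ X / K1 →
    c * (H / Real.log X) ≤ prs S n (n + H) ∧ c' * (H / Real.log X) ≤ prs S (n - H) n

/-- the set `{n : B + n prime}` -/
def Sh (B n : ℕ) : Prop := (B + n).Prime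

instance (B : ℕ) : DecidablePred (Sh B) := fun n => Nat.decidablePrime (B + n)

end Pool.Agent.H67.RW
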