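import Pool.Agent.H24.LJ.Second
import Pool.Agent.H67.RW.Def

/-!
# Module EngW: the second moment in every window

PROOF. `second_loc` with the window `(B - 1, B - 1 + 3X]` (`B ≥ 1`) or `(0, 3X]` and the trivial bound `m²` for `n = 0` (`B = 0`).
-/

set_option autoImplicit false

namespace Pool.Agent.H67.RW

open Finset Pool.Agent.H67.RG Pool.Agent.H5.Short Pool.Agent.H24.LJ

private theorem ew_pc (B n m : ℕ) : pcs (Sh B) n m = pc (B + n) m := by
  unfold pcs pc Sh
  refine card_bij (fun k _ => B + k) ?_ ?_ ?_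
  · intro k hk
    rw [mem_filter, mem_Ioc] at hk ⊢
    exact ⟨⟨by omega, by omega⟩, hk.2⟩
  · intro a _ b _ hab
    exact Nat.add_left_cancel hab
  · intro k hk
    rw [mem_filter, mem_Ioc] at hk
    refine ⟨k - B, ?_, by omega⟩
    rw [mem_filter, mem_Ioc]
    refine ⟨⟨by omega, by omega⟩, ?_⟩
    rw [show B + (k - B) = k by omega]
    exact hk.2

theorem engW : ∃ C : ℝ, 0 < C ∧ ∃ X0 : ℕ, ∀ X : ℕ, X0 ≤ X → ∀ B : ℕ, Eng C (Sh B) X := by
  obtain ⟨C, hC, hsec⟩ := second_loc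
  have hlogtend : Filter.Tendsto (fun n : ℕ => Real.log (n : ℝ) ^ 2 / n) Filter.atTop (nhds 0) := by
    have h := (Real.isLittleO_pow_log_id_atTop (n := 2)).tendsto_div_nhds_zero
    exact h.comp tendsto_natCast_atTop_atTop
  obtain ⟨X1, hX1⟩ := Filter.eventually_atTop.mp (hlogtend.eventually_le_const (by norm_num : (0 : ℝ) < 1))
  refine ⟨6 * C + 1, by positivity, max X1 2, ?_⟩
  intro X hX B m hm1 hm2
  have g1 : X1 ≤ X := (le_max_left _ _).trans hX
  have g2 : 2 ≤ X := (le_max_right _ _).trans hX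
  have hXR : (2 : ℝ) ≤ X := by exact_mod_cast g2
  have hX0 : (0 : ℝ) < X := by linarith
  have hlog : 0 < Real.log X := Real.log_pos (by linarith)
  have hmR : (0 : ℝ) < m := lt_of_lt_of_le hlog hm1
  have hm0 : 1 ≤ m := by exact_mod_cast hmR
  have hL := hX1 X g1
  rw [div_le_one hX0] at hL
  have hlog3 : Real.log X ≤ Real.log ((3 * X : ℕ) : ℝ) := by
    apply Real.log_le_log hX0
    push_cast
    linarith
  have hmain : ∀ M : ℕ, ∑ n ∈ Ioc M (M + 3 * X), (pc n m : ℝ) ^ 2 ≤ 6 * C * ((m : ℝ) ^ 2 * X / (Real.log X) ^ 2) := by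
    intro M
    refine (hsec M (3 * X) m (by omega) hm0 hm2).trans ?_
    obtain ⟨L3, hL3⟩ : ∃ L3 : ℝ, L3 = Real.log ((3 * X : ℕ) : ℝ) := ⟨_, rfl⟩
    rw [← hL3] at hlog3 ⊢
    have hL30 : 0 < L3 := by linarith
    have h1 : (m : ℝ) * ((3 * X : ℕ) : ℝ) / L3 ≤ 3 * ((m : ℝ) ^ 2 * X / (Real.log X) ^ 2) := by
      push_cast
      calc (m : ℝ) * (3 * X) / L3 ≤ (m : ℝ) * (3 * X) / Real.log X :=
            div_le_div_of_nonneg_left (by positivity) hlog hlog3
        _ = 3 * (m * X * Real.log X / (Real.log X) ^ 2) := by field_simp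
        _ ≤ 3 * (m * X * m / (Real.log X) ^ 2) := by
            gcongr
        _ = 3 * ((m : ℝ) ^ 2 * X / (Real.log X) ^ 2) := by ring
    have h2 : (m : ℝ) ^ 2 * ((3 * X : ℕ) : ℝ) / L3 ^ 2 ≤ 3 * ((m : ℝ) ^ 2 * X / (Real.log X) ^ 2) := by
      push_cast
      calc (m : ℝ) ^ 2 * (3 * X) / L3 ^ 2 ≤ (m : ℝ) ^ 2 * (3 * X) / (Real.log X) ^ 2 := by
            apply div_le_div_of_nonneg_left (by positivity) (by positivity)
            exact pow_le_pow_left₀ hlog.le hlog3 2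
        _ = 3 * ((m : ℝ) ^ 2 * X / (Real.log X) ^ 2) := by ring
    nlinarith
  have hpos : 0 ≤ (m : ℝ) ^ 2 * X / (Real.log X) ^ 2 := by positivity
  have hone : (m : ℝ) ^ 2 ≤ (m : ℝ) ^ 2 * X / (Real.log X) ^ 2 := by
    rw [le_div_iff₀ (by positivity)]
    exact mul_le_mul_of_nonneg_left hL (by positivity)
  rcases Nat.eq_zero_or_pos B with hB | hB
  · subst hB
    have h1 : ∑ n ∈ range (3 * X), (pcs (Sh 0) n m : ℝ) ^ 2 ≤ (m : ℝ) ^ 2 + ∑ n ∈ Ioc 0 (0 + 3 * X), (pc n m : ℝ) ^ 2 := by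
      have hsub : range (3 * X) ⊆ insert 0 (Ioc 0 (0 + 3 * X)) := by
        intro n hn
        rw [mem_range] at hn
        rw [mem_insert, mem_Ioc]
        omega
      have h2 : ∀ n ∈ range (3 * X), (pcs (Sh 0) n m : ℝ) ^ 2 = (pc n m : ℝ) ^ 2 := by
        intro n _
        rw [ew_pc, Nat.zero_add]
      rw [sum_congr rfl h2]
      refine (sum_le_sum_of_subset_of_nonneg hsub (fun _ _ _ => sq_nonneg _)).trans ?_
      rw [sum_insert (by simp)]
      have h3 : (pc 0 m : ℝ) ≤ m := by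
        have : pc 0 m ≤ m := by
          unfold pc
          refine (card_filter_le _ _).trans ?_
          rw [Nat.card_Ioc]
          omega
        exact_mod_cast this
      have h4 : (pc 0 m : ℝ) ^ 2 ≤ (m : ℝ) ^ 2 := pow_le_pow_left₀ (Nat.cast_nonneg _) h3 2
      linarith
    have h5 := hmain 0
    nlinarith
  · have h1 : ∑ n ∈ range (3 * X), (pcs (Sh B) n m : ℝ) ^ 2 = ∑ n ∈ Ioc (B - 1) (B - 1 + 3 * X), (pc n m : ℝ) ^ 2 := by
      refine sum_bij (fun n _ => B + n) ?_ ?_ ?_ ?_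
      · intro n hn
        rw [mem_range] at hn
        rw [mem_Ioc]
        omega
      · intro a _ b _ hab
        exact Nat.add_left_cancel hab
      · intro k hk
        rw [mem_Ioc] at hk
        refine ⟨k - B, ?_, by omega⟩
        rw [mem_range]
        omega
      · intro n _
        rw [ew_pc]
    rw [h1]
    refine (hmain (B - 1)).trans ?_
    nlinarith

end Pool.Agent.H67.RW
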