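import Pool.Agent.H67.RG.Idx
import Pool.Agent.H67.RW.Def

/-!
# Module Idx (window form): elements of `S` in bad blocks; copy of H67/RG/Idx
-/

set_option autoImplicit false

namespace Pool.Agent.H67.RW

open Finset Pool.Agent.H67.RG

open Classical in
theorem prs_bad (S : ℕ → Prop) [DecidablePred S] (X h s : ℕ) (hX2 : 2 ≤ X) (hh : 1 ≤ h) (hs : s < h) (hX : 2 * h ≤ X) (Bad : Finset ℤ) :
    (((Ioc X (2 * X)).filter (fun p => S p ∧ idx h s p ∈ Bad)).card : ℝ) ≤
      (h : ℝ) / Real.log X * ∑ i ∈ Bad, fs S X h s i := by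
  have hXR : (2 : ℝ) ≤ X := by exact_mod_cast hX2
  have hlog : 0 < Real.log X := Real.log_pos (by linarith)
  have hhR : (0 : ℝ) < h := by exact_mod_cast hh
  have hfib : ((Ioc X (2 * X)).filter (fun p => S p ∧ idx h s p ∈ Bad)).card =
      ∑ i ∈ Bad, (((Ioc X (2 * X)).filter (fun p => S p ∧ idx h s p ∈ Bad)).filter (fun p => idx h s p = i)).card :=
    card_eq_sum_card_fiberwise (fun p hp => (mem_filter.1 hp).2.2)
  rw [hfib, mul_sum]
  push_cast
  refine sum_le_sum fun i _ => ?_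
  rcases (((Ioc X (2 * X)).filter (fun p => S p ∧ idx h s p ∈ Bad)).filter (fun p => idx h s p = i)).eq_empty_or_nonempty with he | ⟨p0, hp0⟩
  · rw [he, card_empty, Nat.cast_zero]
    have h1 : 0 ≤ fs S X h s i := by
      unfold fs
      split_ifs
      · positivity
      · exact le_rfl
    positivity
  · have hp1 := mem_filter.1 hp0
    have hp2 := mem_Ioc.1 (mem_filter.1 hp1.1).1
    obtain ⟨h1, h2⟩ := idx_one X h s p0 hh hs hX hp2.1 hp2.2
    rw [hp1.2] at h1 h2
    have h3 : (h : ℝ) / Real.log X * fs S X h s i = (pcs S (s + i.toNat * h) h : ℝ) := by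
      unfold fs
      rw [if_pos ⟨h1, h2⟩]
      field_simp
    rw [h3]
    unfold pcs
    norm_cast
    apply card_le_card
    intro p hp
    have hp3 := mem_filter.1 hp
    have hp4 := mem_filter.1 hp3.1
    have hp5 := mem_Ioc.1 hp4.1
    obtain ⟨-, h4, h5⟩ := idx_spec h s p hh (by omega)
    rw [hp3.2] at h4 h5
    rw [add_mul, one_mul] at h5
    rw [mem_filter, mem_Ioc]
    exact ⟨⟨h4, by omega⟩, hp4.2.1⟩

end Pool.Agent.H67.RW
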