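import Pool.Agent.H67.RW.Blk
import Pool.Agent.H67.RW.Idx
import Pool.Agent.H67.RG.RS

/-!
# Module LowB (window form): lower bounds on both sides outside blocks carrying few elements of `S`; copy of H67/RG/LowB
-/

set_option autoImplicit false

namespace Pool.Agent.H67.RW

open Finset Pool.Agent.H67.RG

private theorem lb_pc (S : ℕ → Prop) [DecidablePred S] (a b : ℝ) (v l : ℕ) (h1 : ⌊a⌋₊ ≤ v) (h2 : v + l ≤ ⌊b⌋₊) : (pcs S v l : ℝ) ≤ prs S a b := by
  unfold prs pcs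
  exact_mod_cast card_le_card (filter_subset_filter _ (Ioc_subset_Ioc h1 h2))

private theorem lb_num {X h m m0 : ℕ} {c δ H P Q : ℝ} (hc : 0 ≤ c) (hc1 : 32 * c ≤ δ * m0)
    (hX : 2 ≤ X) (hh : 1 ≤ h) (hδ : 0 < δ) (hm : m0 ≤ m)
    (hHm : H ≤ (m + 2) * h) (hP : P < c * (H / Real.log X)) (hQ : Q ≤ Real.log X / h * P) :
    Q ≤ (c + δ / 16) * m := by
  have hXr : (2 : ℝ) ≤ X := by exact_mod_cast hX
  have hhr : (0 : ℝ) < h := by exact_mod_cast hh
  have hlX : 0 < Real.log X := Real.log_pos (by linarith)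
  have hq : 0 ≤ Real.log X / h := by positivity
  have h1 : Q ≤ Real.log X / h * (c * (H / Real.log X)) := hQ.trans (mul_le_mul_of_nonneg_left hP.le hq)
  have h2 : Real.log X / h * (c * (H / Real.log X)) ≤ c * (m + 2) := by
    have h3 : Real.log X / h * (c * (H / Real.log X)) = c * (H / h) := by
      field_simp
    rw [h3]
    have h5 : H / h ≤ m + 2 := by
      rw [div_le_iff₀ hhr]
      exact hHm
    exact mul_le_mul_of_nonneg_left h5 hc
  have h3 : (m0 : ℝ) ≤ m := by exact_mod_cast hm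
  have h4 : δ * m0 ≤ δ * m := mul_le_mul_of_nonneg_left h3 hδ.le
  have h5 : c * (m + 2) ≤ (c + δ / 16) * m := by nlinarith
  linarith

private theorem lb_R (S : ℕ → Prop) [DecidablePred S] {X h s n q m0 m1 : ℕ} {c δ H : ℝ} (hc : 0 ≤ c)
    (hc1 : 32 * c ≤ δ * m0) (hδ : 0 < δ) (hX : 2 ≤ X)
    (hh : 1 ≤ h) (hn : X < n) (hn2 : n ≤ 2 * X) (hq1 : s + q * h < n) (hq2 : n ≤ s + (q + 1) * h)
    (hH1 : ((m0 : ℝ) + 3) * h ≤ H) (hH2 : H ≤ X / 2) (hm1 : H < ((m1 : ℝ) + 1) * h)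
    (hsum : ∀ m : ℕ, m0 ≤ m → m ≤ m1 → ¬ ∑ y ∈ Ioc (q : ℤ) (q + (m : ℤ)), fs S X h s y ≤ (c + δ / 16) * m) :
    c * (H / Real.log X) ≤ prs S n (n + H) := by
  by_contra hcon
  have hcon' : prs S n (n + H) < c * (H / Real.log X) := not_le.1 hcon
  have hhr : (0 : ℝ) < h := by exact_mod_cast hh
  have hq1r : (s : ℝ) + q * h < n := by exact_mod_cast hq1
  have hq2r : (n : ℝ) ≤ s + (q + 1) * h := by exact_mod_cast hq2
  have hn2r : (n : ℝ) ≤ 2 * X := by exact_mod_cast hn2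
  have hH0 : 0 ≤ H := le_trans (by positivity) hH1
  obtain ⟨w, hw⟩ : ∃ w : ℕ, w = ⌊((n : ℝ) + H - s) / h⌋₊ := ⟨_, rfl⟩
  have hpos : 0 ≤ ((n : ℝ) + H - s) / h := by
    have : 0 ≤ (q : ℝ) * h := by positivity
    apply div_nonneg _ hhr.le
    linarith
  have hw1 : (w : ℝ) * h ≤ n + H - s := by
    rw [← le_div_iff₀ hhr, hw]
    exact Nat.floor_le hpos
  have hw2 : (n : ℝ) + H - s < (w + 1) * h := by
    rw [← div_lt_iff₀ hhr, hw]
    exact Nat.lt_floor_add_one _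
  have hlt : (q : ℝ) + m0 + 3 < w + 1 := by
    have h1 : ((q : ℝ) + m0 + 3) * h < (w + 1) * h := by
      have : ((q : ℝ) + m0 + 3) * h = q * h + (m0 + 3) * h := by ring
      linarith
    exact lt_of_mul_lt_mul_right h1 hhr.le
  have hltn : q + m0 + 3 < w + 1 := by exact_mod_cast hlt
  obtain ⟨m, hm⟩ : ∃ m : ℕ, w = q + 1 + m := ⟨w - (q + 1), by omega⟩
  have hmr : (w : ℝ) = q + 1 + m := by rw [hm]; push_cast; ring
  have hmm0 : m0 ≤ m := by omega
  have hmm1 : m ≤ m1 := by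
    have h1 : (m : ℝ) * h < ((m1 : ℝ) + 1) * h := by
      have : (m : ℝ) * h = w * h - (q + 1) * h := by rw [hmr]; ring
      linarith
    have h2 : (m : ℝ) < (m1 : ℝ) + 1 := lt_of_mul_lt_mul_right h1 hhr.le
    have h3 : m < m1 + 1 := by exact_mod_cast h2
    omega
  have hHm : H ≤ ((m : ℝ) + 2) * h := by
    have : ((m : ℝ) + 2) * h = (w + 1) * h - q * h := by rw [hmr]; ring
    linarith
  have hset : Ioc (q : ℤ) (q + (m : ℤ)) = Ico (((q + 1 : ℕ) : ℤ)) ((w : ℕ) : ℤ) := by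
    ext y
    rw [mem_Ioc, mem_Ico, hm]
    push_cast
    constructor
    · intro h1
      constructor <;> omega
    · intro h1
      constructor <;> omega
  have hwn : s + w * h ≤ 3 * X := by
    have h1 : (s : ℝ) + w * h ≤ 3 * X := by
      have hX0 : (0 : ℝ) ≤ X := Nat.cast_nonneg _
      linarith
    exact_mod_cast h1
  have hfs := fs_sum S X h s (q + 1) w hh (by omega) (by omega) hwn
  have hpr : (pcs S (s + (q + 1) * h) ((w - (q + 1)) * h) : ℝ) ≤ prs S n (n + H) := by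
    apply lb_pc
    · rw [Nat.floor_natCast]
      exact hq2
    · apply Nat.le_floor
      have h1 : s + (q + 1) * h + (w - (q + 1)) * h = s + w * h := by
        rw [add_assoc, ← Nat.add_mul]
        congr 2
        omega
      rw [h1]
      push_cast
      linarith
  apply hsum m hmm0 hmm1
  rw [hset, hfs]
  have hlX : 0 ≤ Real.log X / h := by
    apply div_nonneg (Real.log_natCast_nonneg _) hhr.le
  exact lb_num hc hc1 hX hh hδ hmm0 hHm hcon' (mul_le_mul_of_nonneg_left hpr hlX)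

private theorem lb_L (S : ℕ → Prop) [DecidablePred S] {X h s n q m0 m1 : ℕ} {c δ H : ℝ} (hc : 0 ≤ c)
    (hc1 : 32 * c ≤ δ * m0) (hδ : 0 < δ) (hX : 2 ≤ X)
    (hh : 1 ≤ h) (hs : s < h) (h4 : 4 * h ≤ X) (hn : X < n) (hn2 : n ≤ 2 * X) (hq1 : s + q * h < n)
    (hq2 : n ≤ s + (q + 1) * h)
    (hH1 : ((m0 : ℝ) + 3) * h ≤ H) (hH2 : H ≤ X / 2) (hm1 : H < ((m1 : ℝ) + 1) * h)
    (hsum : ∀ m : ℕ, m0 ≤ m → m ≤ m1 → ¬ ∑ y ∈ Ico ((q : ℤ) - (m : ℤ)) (q : ℤ), fs S X h s y ≤ (c + δ / 16) * m) :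
    c * (H / Real.log X) ≤ prs S (n - H) n := by
  by_contra hcon
  have hcon' : prs S (n - H) n < c * (H / Real.log X) := not_le.1 hcon
  have hhr : (0 : ℝ) < h := by exact_mod_cast hh
  have hnr : (X : ℝ) < n := by exact_mod_cast hn
  have hq1r : (s : ℝ) + q * h < n := by exact_mod_cast hq1
  have hq2r : (n : ℝ) ≤ s + (q + 1) * h := by exact_mod_cast hq2
  have hn2r : (n : ℝ) ≤ 2 * X := by exact_mod_cast hn2
  have h4r : 4 * (h : ℝ) ≤ X := by exact_mod_cast h4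
  have hsr : (s : ℝ) < h := by exact_mod_cast hs
  have hH0 : 0 ≤ H := le_trans (by positivity) hH1
  obtain ⟨u, hu⟩ : ∃ u : ℕ, u = ⌈((n : ℝ) - H - s) / h⌉₊ := ⟨_, rfl⟩
  have hpos0 : 0 < (n : ℝ) - H - s := by linarith
  have hpos : 0 < ((n : ℝ) - H - s) / h := div_pos hpos0 hhr
  have hu1 : (n : ℝ) - H - s ≤ u * h := by
    rw [← div_le_iff₀ hhr, hu]
    exact Nat.le_ceil _
  have hu2 : (u : ℝ) * h < n - H - s + h := by
    have h1 : (u : ℝ) < ((n : ℝ) - H - s) / h + 1 := by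
      rw [hu]
      exact Nat.ceil_lt_add_one hpos.le
    have h2 := mul_lt_mul_of_pos_right h1 hhr
    rw [add_mul, one_mul, div_mul_cancel₀ _ hhr.ne'] at h2
    exact h2
  have hu0 : 1 ≤ u := by
    rw [hu]
    exact Nat.one_le_iff_ne_zero.2 (Nat.ceil_pos.2 hpos).ne'
  have hlt : (u : ℝ) + m0 + 1 < q + 1 := by
    have h1 : ((u : ℝ) + m0 + 1) * h < (q + 1) * h := by
      have : ((u : ℝ) + m0 + 1) * h = u * h + (m0 + 3) * h - 2 * h := by ring
      linarith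
    exact lt_of_mul_lt_mul_right h1 hhr.le
  have hltn : u + m0 + 1 < q + 1 := by exact_mod_cast hlt
  obtain ⟨m, hm⟩ : ∃ m : ℕ, q = u + m := ⟨q - u, by omega⟩
  have hmr : (q : ℝ) = u + m := by rw [hm]; push_cast; ring
  have hmm0 : m0 ≤ m := by omega
  have hmm1 : m ≤ m1 := by
    have h1 : (m : ℝ) * h < ((m1 : ℝ) + 1) * h := by
      have : (m : ℝ) * h = q * h - u * h := by rw [hmr]; ring
      linarith
    have h2 : (m : ℝ) < (m1 : ℝ) + 1 := lt_of_mul_lt_mul_right h1 hhr.le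
    have h3 : m < m1 + 1 := by exact_mod_cast h2
    omega
  have hHm : H ≤ ((m : ℝ) + 2) * h := by
    have : ((m : ℝ) + 2) * h = (q + 1) * h - u * h + h := by rw [hmr]; ring
    linarith
  have hset : Ico ((q : ℤ) - (m : ℤ)) (q : ℤ) = Ico ((u : ℕ) : ℤ) ((q : ℕ) : ℤ) := by
    congr 1
    rw [hm]
    push_cast
    ring
  have hwn : s + q * h ≤ 3 * X := by omega
  have hfs := fs_sum S X h s u q hh hu0 (by omega) hwn
  have hpr : (pcs S (s + u * h) ((q - u) * h) : ℝ) ≤ prs S (n - H) n := by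
    apply lb_pc
    · apply Nat.floor_le_of_le
      push_cast
      linarith
    · rw [Nat.floor_natCast]
      have h1 : s + u * h + (q - u) * h = s + q * h := by
        rw [add_assoc, ← Nat.add_mul]
        congr 2
        omega
      rw [h1]
      exact hq1.le
  apply hsum m hmm0 hmm1
  rw [hset, hfs]
  have hlX : 0 ≤ Real.log X / h := by
    apply div_nonneg (Real.log_natCast_nonneg _) hhr.le
  exact lb_num hc hc1 hX hh hδ hmm0 hHm hcon' (mul_le_mul_of_nonneg_left hpr hlX)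

private theorem lb_sqrt {C Y N m0 δ E : ℝ} (hC : 0 < C) (hδ : 0 < δ) (hm0 : 192 * C / δ ^ 2 ≤ m0) (hm1 : 1 ≤ m0)
    (hY3 : 3 ≤ Y) (hYm : m0 ≤ Y) (hN : N ≤ Y + 3) (hE : E ≤ C * Y) (hE0 : 0 ≤ E) :
    √((N / m0 + 1) * E) ≤ δ / 8 * Y := by
  have hm00 : 0 < m0 := by linarith
  have h1 : N / m0 + 1 ≤ 3 * Y / m0 := by
    rw [div_add_one hm00.ne']
    exact div_le_div_of_nonneg_right (by linarith) hm00.le
  have h2 : (N / m0 + 1) * E ≤ 3 * Y / m0 * (C * Y) := by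
    calc (N / m0 + 1) * E ≤ 3 * Y / m0 * E := mul_le_mul_of_nonneg_right h1 hE0
      _ ≤ 3 * Y / m0 * (C * Y) := mul_le_mul_of_nonneg_left hE (by positivity)
  have h3 : 3 * Y / m0 * (C * Y) ≤ (δ / 8 * Y) ^ 2 := by
    have h4 : 192 * C ≤ m0 * δ ^ 2 := by
      rwa [div_le_iff₀ (by positivity)] at hm0
    have h5 : 3 * Y / m0 * (C * Y) = 192 * C / m0 * (Y ^ 2 / 64) := by
      field_simp
      ring
    have h6 : 192 * C / m0 ≤ δ ^ 2 := by
      rw [div_le_iff₀ hm00]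
      linarith
    rw [h5]
    calc 192 * C / m0 * (Y ^ 2 / 64) ≤ δ ^ 2 * (Y ^ 2 / 64) := mul_le_mul_of_nonneg_right h6 (by positivity)
      _ = (δ / 8 * Y) ^ 2 := by ring
  exact Real.sqrt_le_iff.2 ⟨by positivity, h2.trans h3⟩

theorem lowS (c c' δ C0 : ℝ) (hc : 0 ≤ c) (hc' : 0 ≤ c') (hδ : 0 < δ) (hC0 : 0 < C0) :
    ∃ K : ℝ, 0 < K ∧ ∃ X0 : ℕ, ∀ (S : ℕ → Prop) [DecidablePred S], ∀ X : ℕ, X0 ≤ X → Eng C0 S X →
    ∀ h s : ℕ, 2 * Real.log X ≤ h → (h : ℝ) ≤ √X → s < h →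
    ∃ Bad : Finset ℤ, ∑ i ∈ Bad, fs S X h s i ≤ (c + c' + δ) * ((X : ℝ) / h) ∧
      ∀ n : ℕ, X < n → n ≤ 2 * X → idx h s n ∉ Bad → RichX S (K * h) K c c' X n := by
  classical
  obtain ⟨C, hCd⟩ : ∃ C : ℝ, C = 4 * C0 := ⟨_, rfl⟩
  have hC : 0 < C := by rw [hCd]; positivity
  obtain ⟨G, hG⟩ : ∃ G : ℝ, G = c + c' + 2 := ⟨_, rfl⟩
  have hG2 : 2 ≤ G := by linarith
  obtain ⟨ε, hε⟩ : ∃ ε : ℝ, ε = min (1 / 2) (δ / (8 * G + δ)) := ⟨_, rfl⟩
  have hε0 : 0 < ε := by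
    rw [hε]
    exact lt_min (by norm_num) (by positivity)
  have hε1 : ε ≤ 1 / 2 := by rw [hε]; exact min_le_left _ _
  have hε2 : ε * (8 * G + δ) ≤ δ := by
    have h1 : ε ≤ δ / (8 * G + δ) := by rw [hε]; exact min_le_right _ _
    rwa [le_div_iff₀ (by positivity)] at h1
  obtain ⟨m0, hm0d⟩ : ∃ m0 : ℕ, m0 = ⌈192 * C / δ ^ 2 + 32 * G / δ⌉₊ + 1 := ⟨_, rfl⟩
  have hm0a : 192 * C / δ ^ 2 + 32 * G / δ ≤ m0 := by
    rw [hm0d]
    push_cast
    exact (Nat.le_ceil _).trans (by linarith)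
  have hm0b : 192 * C / δ ^ 2 ≤ m0 := by
    have : 0 < 32 * G / δ := by positivity
    linarith
  have hm0c : 32 * G ≤ δ * m0 := by
    have h1 : 0 < 192 * C / δ ^ 2 := by positivity
    have h2 : 32 * G / δ ≤ m0 := by linarith
    rw [div_le_iff₀ hδ] at h2
    linarith
  have hm0d1 : 32 * c ≤ δ * m0 := by linarith
  have hm0d2 : 32 * c' ≤ δ * m0 := by linarith
  have hm01 : 1 ≤ m0 := by omega
  have hm01r : (1 : ℝ) ≤ m0 := by exact_mod_cast hm01
  obtain ⟨Y0, hY0⟩ : ∃ Y0 : ℝ, Y0 = 4 + m0 + 3 * (8 * G + δ) / δ := ⟨_, rfl⟩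
  have hq0 : 0 < 3 * (8 * G + δ) / δ := by positivity
  have hY0p : 0 < Y0 := by rw [hY0]; positivity
  obtain ⟨X1, hX1⟩ : ∃ X1 : ℕ, X1 = max 3 ⌈Y0 ^ 2⌉₊ := ⟨_, rfl⟩
  refine ⟨m0 + 3 + 2 / ε, by positivity, X1, ?_⟩
  intro S _ X hX hEng h s hh1 hh2 hsh
  have hXX1 : X1 ≤ X := hX
  have hX3 : 3 ≤ X := by
    rw [hX1] at hXX1
    exact (le_max_left _ _).trans hXX1
  have hXY : Y0 ^ 2 ≤ X := by
    rw [hX1] at hXX1
    exact (Nat.le_ceil _).trans (by exact_mod_cast (le_max_right _ _).trans hXX1)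
  have hXr : (3 : ℝ) ≤ X := by exact_mod_cast hX3
  have hlX : 0 < Real.log X := Real.log_pos (by linarith)
  have hhr : (0 : ℝ) < h := lt_of_lt_of_le (by positivity) hh1
  have hh : 1 ≤ h := by
    have : 0 < h := by exact_mod_cast hhr
    omega
  have hhY : (h : ℝ) * Y0 ≤ X := by
    have h1 : Y0 ≤ √X := Real.le_sqrt_of_sq_le hXY
    calc (h : ℝ) * Y0 ≤ √X * √X := mul_le_mul hh2 h1 hY0p.le (Real.sqrt_nonneg _)
      _ = X := Real.mul_self_sqrt (by linarith)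
  obtain ⟨Y, hY⟩ : ∃ Y : ℝ, Y = (X : ℝ) / h := ⟨_, rfl⟩
  have hYh : Y * h = X := by rw [hY, div_mul_cancel₀ _ hhr.ne']
  have hYY : Y0 ≤ Y := by
    rw [hY, le_div_iff₀ hhr]
    linarith
  have hY4 : 4 ≤ Y := by linarith
  have hYm : (m0 : ℝ) ≤ Y := by linarith
  have hYq : 3 * (8 * G + δ) / δ ≤ Y := by linarith
  have hYq' : 3 * (8 * G + δ) ≤ δ * Y := by
    rw [div_le_iff₀ hδ] at hYq
    linarith
  have h4X : 4 * h ≤ X := by
    have h1 : 4 * (h : ℝ) ≤ X := by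
      rw [← hYh]
      exact mul_le_mul_of_nonneg_right hY4 hhr.le
    exact_mod_cast h1
  have hlog3 : Real.log X ≤ h := by linarith
  -- the range of the indices
  obtain ⟨A, hA⟩ : ∃ A : ℤ, A = ((X / h : ℕ) : ℤ) - 1 := ⟨_, rfl⟩
  obtain ⟨B, hB⟩ : ∃ B : ℤ, B = ((2 * X / h : ℕ) : ℤ) + 1 := ⟨_, rfl⟩
  have hdiv : X / h ≤ 2 * X / h := Nat.div_le_div_right (by omega)
  have hAB : A ≤ B := by omega
  have hN : (B : ℝ) - A ≤ Y + 3 := by
    have h1 : ((2 * X / h : ℕ) : ℝ) ≤ 2 * Y := by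
      have h2 := Nat.cast_div_le (α := ℝ) (m := 2 * X) (n := h)
      rw [hY]
      push_cast at h2
      calc ((2 * X / h : ℕ) : ℝ) ≤ 2 * X / h := h2
        _ = 2 * ((X : ℝ) / h) := by ring
    have h3 : Y < ((X / h : ℕ) : ℝ) + 1 := by
      rw [hY, div_lt_iff₀ hhr]
      have h4 := Nat.lt_mul_div_succ X (show 0 < h by omega)
      have h5 : ((X : ℕ) : ℝ) < ((h * (X / h + 1) : ℕ) : ℝ) := by exact_mod_cast h4
      push_cast at h5
      rw [mul_comm]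
      exact_mod_cast h5
    rw [hA, hB, Int.cast_sub, Int.cast_add, Int.cast_one, Int.cast_natCast, Int.cast_natCast]
    linarith
  obtain ⟨m1, hm1⟩ : ∃ m1 : ℕ, m1 = ⌊ε * Y⌋₊ := ⟨_, rfl⟩
  have hm1a : (m1 : ℝ) ≤ ε * Y := by
    rw [hm1]
    exact Nat.floor_le (by positivity)
  have hm1b : ε * Y < (m1 : ℝ) + 1 := by
    rw [hm1]
    exact Nat.lt_floor_add_one _
  have hfn : ∀ i : ℤ, 0 ≤ fs S X h s i := fun i => fs_nonneg S X h s i
  have hE := fs_energy S C0 hC0 X h s hEng (by omega) hlog3 (by omega) hsh (Ico A B)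
  rw [← hY, ← hCd] at hE
  have hE0 : 0 ≤ ∑ i ∈ Ico A B, fs S X h s i ^ 2 := sum_nonneg fun i _ => sq_nonneg _
  have hsq := lb_sqrt hC hδ hm0b hm01r (by linarith) hYm hN hE hE0
  have hR := rs_right (fs S X h s) hfn (c + δ / 16) (by positivity) A B hAB m0 m1 hm01
  have hL := rs_left (fs S X h s) hfn (c' + δ / 16) (by positivity) A B hAB m0 m1 hm01
  obtain ⟨BR, hBR⟩ : ∃ BR : Finset ℤ, BR = (Ico A B).filter (fun i : ℤ => ∃ m : ℕ, m0 ≤ m ∧ m ≤ m1 ∧
      ∑ y ∈ Ioc i (i + (m : ℤ)), fs S X h s y ≤ (c + δ / 16) * m) := ⟨_, rfl⟩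
  obtain ⟨BL, hBL⟩ : ∃ BL : Finset ℤ, BL = (Ico A B).filter (fun i : ℤ => ∃ m : ℕ, m0 ≤ m ∧ m ≤ m1 ∧
      ∑ y ∈ Ico (i - (m : ℤ)) i, fs S X h s y ≤ (c' + δ / 16) * m) := ⟨_, rfl⟩
  rw [← hBR] at hR
  rw [← hBL] at hL
  refine ⟨BR ∪ BL, ?_, ?_⟩
  · rw [← hY]
    have h1 : ∑ i ∈ BR ∪ BL, fs S X h s i ≤ ∑ i ∈ BR, fs S X h s i + ∑ i ∈ BL, fs S X h s i := by
      have h2 := sum_union_inter (s₁ := BR) (s₂ := BL) (f := fs S X h s)
      have h3 : 0 ≤ ∑ i ∈ BR ∩ BL, fs S X h s i := sum_nonneg fun i _ => hfn i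
      linarith
    have hNm : (B : ℝ) - A + m1 ≤ Y + 3 + ε * Y := by linarith
    have h2 : (c + δ / 16) * ((B : ℝ) - A + m1) ≤ (c + δ / 16) * (Y + 3 + ε * Y) :=
      mul_le_mul_of_nonneg_left hNm (by positivity)
    have h3 : (c' + δ / 16) * ((B : ℝ) - A + m1) ≤ (c' + δ / 16) * (Y + 3 + ε * Y) :=
      mul_le_mul_of_nonneg_left hNm (by positivity)
    have h5 : (8 * G + δ) * (ε * Y) ≤ δ * Y := by
      have := mul_le_mul_of_nonneg_right hε2 (show 0 ≤ Y by linarith)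
      linarith
    have h6 : 0 ≤ ε * Y := by positivity
    have h7 : (c + c') * (3 + ε * Y) ≤ G * (3 + ε * Y) :=
      mul_le_mul_of_nonneg_right (by linarith) (by linarith)
    have h8 : 0 ≤ δ * Y := by positivity
    have h9 : (c + δ / 16) * (Y + 3 + ε * Y) + (c' + δ / 16) * (Y + 3 + ε * Y) + 2 * (δ / 8 * Y) ≤
        (c + c' + δ) * Y := by
      calc (c + δ / 16) * (Y + 3 + ε * Y) + (c' + δ / 16) * (Y + 3 + ε * Y) + 2 * (δ / 8 * Y) =
          (c + c') * Y + (c + c') * (3 + ε * Y) + δ / 8 * (3 + ε * Y) + 3 / 8 * (δ * Y) := by ring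
        _ ≤ (c + c') * Y + G * (3 + ε * Y) + δ / 8 * (3 + ε * Y) + 3 / 8 * (δ * Y) := by linarith
        _ = (c + c') * Y + 1 / 8 * (3 * (8 * G + δ)) + 1 / 8 * ((8 * G + δ) * (ε * Y)) + 3 / 8 * (δ * Y) := by ring
        _ ≤ (c + c') * Y + 5 / 8 * (δ * Y) := by linarith
        _ ≤ (c + c') * Y + δ * Y := by linarith
        _ = (c + c' + δ) * Y := by ring
    linarith
  · intro n hn hn2 hid H hH1 hH2
    have hnr : (X : ℝ) < n := by exact_mod_cast hn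
    have hm3 : ((m0 : ℝ) + 3) * h ≤ H := by
      refine le_trans ?_ hH1
      apply mul_le_mul_of_nonneg_right _ hhr.le
      have : 0 < 2 / ε := by positivity
      linarith
    have hH0 : 0 ≤ H := le_trans (by positivity) hm3
    have hlg : H < ε * X := by
      have h1 : H * (m0 + 3 + 2 / ε) ≤ X := by
        rwa [le_div_iff₀ (by positivity)] at hH2
      have h2 : H * (2 / ε) ≤ X := by
        refine le_trans (mul_le_mul_of_nonneg_left ?_ hH0) h1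
        linarith
      have h3 : 2 * H ≤ ε * X := by
        have h4 : H * (2 / ε) = 2 * H / ε := by ring
        rw [h4, div_le_iff₀ hε0] at h2
        linarith
      have h5 : 0 < ε * X := by positivity
      linarith
    have hsn : s < n := by omega
    obtain ⟨i0, i1, i2⟩ := idx_spec h s n hh hsn
    obtain ⟨q, hq⟩ : ∃ q : ℕ, q = (idx h s n).toNat := ⟨_, rfl⟩
    have hqi : idx h s n = (q : ℤ) := by rw [hq, Int.toNat_of_nonneg i0]
    rw [← hq] at i1 i2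
    have hHX : H ≤ X / 2 := by
      have : ε * X ≤ 1 / 2 * X := mul_le_mul_of_nonneg_right hε1 (by linarith)
      linarith
    have hHm1 : H < ((m1 : ℝ) + 1) * h := by
      have h1 : ε * Y * h < ((m1 : ℝ) + 1) * h := mul_lt_mul_of_pos_right hm1b hhr
      have h2 : ε * Y * h = ε * X := by rw [mul_assoc, hYh]
      linarith
    have hmem : (q : ℤ) ∈ Ico A B := by
      rw [mem_Ico]
      have h1 : X / h < q + 2 := by
        apply Nat.div_lt_of_lt_mul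
        have : (q + 2) * h = (q + 1) * h + h := by ring
        rw [mul_comm]
        omega
      have h2 : q ≤ 2 * X / h := by
        rw [Nat.le_div_iff_mul_le (by omega)]
        omega
      constructor
      · rw [hA]
        omega
      · rw [hB]
        omega
    rw [hqi, mem_union, not_or] at hid
    constructor
    · apply lb_R S hc hm0d1 hδ (by omega) hh hn hn2 i1 i2 hm3 hHX hHm1
      intro m ha hb hcc
      apply hid.1
      rw [hBR, mem_filter]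
      exact ⟨hmem, m, ha, hb, hcc⟩
    · apply lb_L S hc' hm0d2 hδ (by omega) hh hsh h4X hn hn2 i1 i2 hm3 hHX hHm1
      intro m ha hb hcc
      apply hid.2
      rw [hBL, mem_filter]
      exact ⟨hmem, m, ha, hb, hcc⟩

end Pool.Agent.H67.RW
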