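import Pool.Agent.H67.RW.Def

/-!
# Module Mono (window form): monotonicity in the constants
-/

set_option autoImplicit false

namespace Pool.Agent.H67.RW

open Finset Pool.Agent.H67.RG

variable {S : ℕ → Prop} [DecidablePred S]

theorem NearX_mono {M K K' : ℝ} {X n : ℕ} {a b : ℝ} (hK : 0 < K) (hKK : K ≤ K') (hn : 0 ≤ Real.log X)
    (h : NearX M K' X n a b) : NearX M K X n a b := by
  obtain ⟨h1, h2, h3⟩ := h
  refine ⟨(mul_le_mul_of_nonneg_right hKK hn).trans h1, h2.trans ?_, h3⟩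
  exact div_le_div_of_nonneg_left (Nat.cast_nonneg _) hK hKK

theorem NearX_len {M K : ℝ} {X n : ℕ} {a b : ℝ} (hK : 0 < K) (hn : 0 ≤ Real.log X) (h : NearX M K X n a b) :
    0 ≤ b - a := (mul_nonneg hK.le hn).trans h.1

theorem RegA_mono {M K K' : ℝ} {X n : ℕ} (hK : 0 < K) (hKK : K ≤ K') (hn : 0 ≤ Real.log X)
    (h : RegA S M K X n) : RegA S M K' X n := by
  intro a b hab
  refine (h a b (NearX_mono hK hKK hn hab)).trans ?_
  have h1 := NearX_len (hK.trans_le hKK) hn hab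
  exact mul_le_mul_of_nonneg_right hKK (div_nonneg h1 hn)

theorem RegB_mono {M K K' δ : ℝ} {X n : ℕ} (hK : 0 < K) (hKK : K ≤ K') (hn : 1 ≤ Real.log X)
    (h : RegB S M K δ X n) : RegB S M K' δ X n := by
  intro a b hab hb
  exact h a b (NearX_mono hK hKK (by linarith) hab) ((Real.rpow_le_rpow_of_exponent_le hn hKK).trans hb)

theorem RegC_mono {M K K' η η' : ℝ} {X n : ℕ} (hK : 0 < K) (hKK : K ≤ K') (hη : η ≤ η') (hn : 0 ≤ Real.log X)
    (h : RegC S M K η X n) : RegC S M K' η' X n := by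
  obtain ⟨T, hT, h⟩ := h
  refine ⟨T, hT.trans hKK, ?_⟩
  intro a b a' b' h1 h2 h3 h4
  refine (h a b a' b' (NearX_mono hK hKK hn h1) (NearX_mono hK hKK hn h2) h3 h4).trans ?_
  exact div_le_div_of_nonneg_right hη hn

theorem RichX_mono {H0 H0' K1 K1' c c' : ℝ} {X n : ℕ} (hH : H0 ≤ H0') (hK : 0 < K1) (hKK : K1 ≤ K1')
    (h : RichX S H0 K1 c c' X n) : RichX S H0' K1' c c' X n :=
  fun H h1 h2 => h H (hH.trans h1) (h2.trans (div_le_div_of_nonneg_left (Nat.cast_nonneg _) hK hKK))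

end Pool.Agent.H67.RW
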