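import Pool.Agent.H67.RG.Fin
import Pool.Agent.H67.RW.LowB
import Pool.Agent.H67.RW.Cnt2
import Pool.Agent.H67.RW.EngW
import Pool.Agent.H67.RW.Mono
import Pool.Agent.H67.SW.K4

/-!
# Module FinC (window form): the number of rich integers in every window

PROOF. `ρ1 = π log X/X` (`≥ ρ`); second moment `k4`, shift `shiftS`, bad blocks `lowS`, `cntK`.
-/

set_option autoImplicit false

namespace Pool.Agent.H67.RW

open Finset Pool.Agent.H67.RG Pool.Agent.H5.Short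

theorem fmono (σ ρ ρ1 : ℝ) (hσ : 0 ≤ σ) (h1 : σ ≤ ρ) (h2 : ρ ≤ ρ1) :
    (ρ - σ) ^ 2 / (4 * ρ) ≤ (ρ1 - σ) ^ 2 / (4 * ρ1) := by
  rcases eq_or_lt_of_le (hσ.trans h1) with h0 | h0
  · rw [← h0, mul_zero, div_zero]
    have : 0 ≤ ρ1 := by linarith
    positivity
  · have hρ1 : 0 < ρ1 := by linarith
    rw [div_le_div_iff₀ (by positivity) (by positivity)]
    have e : (ρ1 - σ) ^ 2 * (4 * ρ) - (ρ - σ) ^ 2 * (4 * ρ1) = 4 * ((ρ1 - ρ) * (ρ * ρ1 - σ ^ 2)) := by ring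
    have h3 : 0 ≤ (ρ1 - ρ) * (ρ * ρ1 - σ ^ 2) := by
      apply mul_nonneg (by linarith)
      nlinarith
    linarith

theorem pcs_sh (B n m : ℕ) : pcs (Sh B) n m = pc (B + n) m := by
  unfold pcs pc Sh
  refine card_bij (fun k _ => B + k) ?_ ?_ ?_
  · intro k hk
    rw [mem_filter, mem_Ioc] at hk ⊢
    exact ⟨⟨by omega, by omega⟩, hk.2⟩
  · intro a _ b _ hab
    exact Nat.add_left_cancel hab
  · intro k hk
    rw [mem_filter, mem_Ioc] at hk
    refine ⟨k - B, ?_, by omega⟩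
    rw [mem_filter, mem_Ioc]
    refine ⟨⟨by omega, by omega⟩, ?_⟩
    rw [show B + (k - B) = k by omega]
    exact hk.2

open Classical in
theorem finC (c c' η : ℝ) (hc : 0 ≤ c) (hc' : 0 ≤ c') (hη : 0 < η) : ∃ K : ℝ, 0 < K ∧ ∃ X0 : ℕ,
    ∀ X : ℕ, X0 ≤ X → ∀ B : ℕ, ∀ ρ : ℝ, c + c' ≤ ρ → ρ * (X / Real.log X) ≤ (pcs (Sh B) X X : ℝ) →
      ((ρ - c - c') ^ 2 / (4 * ρ) - η) * X ≤
        (((Ioc X (2 * X)).filter (fun n => RichX (Sh B) (K * Real.log X) K c c' X n)).card : ℝ) := by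
  obtain ⟨C, hC, X1, hX1⟩ := engW
  obtain ⟨δ, hδ⟩ : ∃ δ : ℝ, δ = η / 2 := ⟨_, rfl⟩
  have hδ0 : 0 < δ := by rw [hδ]; positivity
  obtain ⟨ε, hε⟩ : ∃ ε : ℝ, ε = η / (3 + 8 * C) := ⟨_, rfl⟩
  have hε0 : 0 < ε := by rw [hε]; positivity
  have hε1 : ε * (3 + 8 * C) = η := by rw [hε, div_mul_cancel₀ _ (by positivity)]
  obtain ⟨κ0, hκ0, hk4⟩ := Pool.Agent.H67.SW.k4 ε hε0
  obtain ⟨κ, hκ⟩ : ∃ κ : ℝ, κ = max κ0 2 := ⟨_, rfl⟩
  have hκ2 : 2 ≤ κ := by rw [hκ]; exact le_max_right _ _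
  obtain ⟨X2, hX2⟩ := hk4 κ (by rw [hκ]; exact le_max_left _ _)
  obtain ⟨K3, hK3, X3, hX3⟩ := lowS c c' δ C hc hc' hδ0 hC
  obtain ⟨X4, hX4⟩ := ev_small 2 (by norm_num)
  have hlogtend : Filter.Tendsto (fun n : ℕ => Real.log (n : ℝ)) Filter.atTop Filter.atTop :=
    Real.tendsto_log_atTop.comp tendsto_natCast_atTop_atTop
  obtain ⟨X5, hX5⟩ := Filter.eventually_atTop.mp (hlogtend.eventually_ge_atTop (κ + 4))
  have hdiv : Filter.Tendsto (fun n : ℕ => Real.log (n : ℝ) ^ 2 / n) Filter.atTop (nhds 0) := by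
    have h := (Real.isLittleO_pow_log_id_atTop (n := 2)).tendsto_div_nhds_zero
    exact h.comp tendsto_natCast_atTop_atTop
  have hpos : 0 < min ε (δ / (4 * κ)) := lt_min hε0 (by positivity)
  obtain ⟨X6, hX6⟩ := Filter.eventually_atTop.mp (hdiv.eventually_le_const hpos)
  obtain ⟨K, hKd⟩ : ∃ K : ℝ, K = K3 * (2 * κ) + K3 := ⟨_, rfl⟩
  have hK0 : 0 < K := by rw [hKd]; positivity
  have hKK : K3 ≤ K := by
    rw [hKd]
    have : 0 ≤ K3 * (2 * κ) := by positivity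
    linarith
  refine ⟨K, hK0, max (max X1 X2) (max (max X3 X4) (max (max X5 X6) 16)), ?_⟩
  intro X hX B ρ hρ hmass
  have g1 : X1 ≤ X := le_trans (le_trans (le_max_left _ _) (le_max_left _ _)) hX
  have g2 : X2 ≤ X := le_trans (le_trans (le_max_right _ _) (le_max_left _ _)) hX
  have g3 : X3 ≤ X := le_trans (le_trans (le_trans (le_max_left _ _) (le_max_left _ _)) (le_max_right _ _)) hX
  have g4 : X4 ≤ X := le_trans (le_trans (le_trans (le_max_right _ _) (le_max_left _ _)) (le_max_right _ _)) hX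
  have g5 : X5 ≤ X := le_trans (le_trans (le_trans (le_trans (le_max_left _ _) (le_max_left _ _)) (le_max_right _ _)) (le_max_right _ _)) hX
  have g6 : X6 ≤ X := le_trans (le_trans (le_trans (le_trans (le_max_right _ _) (le_max_left _ _)) (le_max_right _ _)) (le_max_right _ _)) hX
  have g7 : 16 ≤ X := le_trans (le_trans (le_trans (le_max_right _ _) (le_max_right _ _)) (le_max_right _ _)) hX
  have hXR : (16 : ℝ) ≤ X := by exact_mod_cast g7
  have hX0 : (0 : ℝ) < X := by linarith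
  have hL := hX5 X g5
  have hL0 : 0 < Real.log X := by linarith
  have hL2X := hX6 X g6
  rw [div_le_iff₀ hX0] at hL2X
  have hL2a : (Real.log X) ^ 2 ≤ ε * X := hL2X.trans (mul_le_mul_of_nonneg_right (min_le_left _ _) hX0.le)
  have hL2b : (Real.log X) ^ 2 ≤ δ / (4 * κ) * X := hL2X.trans (mul_le_mul_of_nonneg_right (min_le_right _ _) hX0.le)
  have hκL : 1 ≤ κ * Real.log X := by nlinarith
  obtain ⟨h, hh⟩ : ∃ h : ℕ, h = ⌈κ * Real.log X⌉₊ := ⟨_, rfl⟩
  have hh1 : κ * Real.log X ≤ h := by rw [hh]; exact Nat.le_ceil _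
  have hh2 : (h : ℝ) ≤ κ * Real.log X + 1 := by rw [hh]; exact (Nat.ceil_lt_add_one (by positivity)).le
  have hh0 : 1 ≤ h := by
    have : (0 : ℝ) < h := by linarith
    exact_mod_cast this
  have hhR : (0 : ℝ) < h := by exact_mod_cast hh0
  have hh3 : (h : ℝ) ≤ √X := by
    have h1 := hX4 X g4
    rw [Real.rpow_two] at h1
    have h2 : Real.log X ≤ Real.log ((2 * X : ℕ) : ℝ) := by
      apply Real.log_le_log hX0
      push_cast
      linarith
    nlinarith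
  have hh4 : 2 * Real.log X ≤ h := by nlinarith
  have h2X : 2 * h ≤ X := by
    have h1 : √(X : ℝ) * √(X : ℝ) = X := Real.mul_self_sqrt (by positivity)
    have h2 : 4 ≤ √(X : ℝ) := by
      rw [Real.le_sqrt (by norm_num) (by positivity)]
      linarith
    have : 2 * (h : ℝ) ≤ X := by nlinarith
    exact_mod_cast this
  have hEng := hX1 X g1 B
  -- the density
  obtain ⟨ρ1, hρ1⟩ : ∃ ρ1 : ℝ, ρ1 = (pcs (Sh B) X X : ℝ) * Real.log X / X := ⟨_, rfl⟩
  have hmass1 : ρ1 * (X / Real.log X) = (pcs (Sh B) X X : ℝ) := by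
    rw [hρ1]
    field_simp
  have hρρ : ρ ≤ ρ1 := by
    have h1 : ρ * (X / Real.log X) ≤ ρ1 * (X / Real.log X) := by rw [hmass1]; exact hmass
    exact le_of_mul_le_mul_right h1 (by positivity)
  have hρ10 : 0 ≤ ρ1 := by linarith
  have hρ12 : ρ1 ^ 2 ≤ 8 * C := by
    have h1 := cntS (Sh B) C hC X h 0 hEng (by omega) (by linarith) h2X (by omega) ∅ ρ1 0 hρ10 (by simp) hmass1.le
    have h2 : (((Ioc X (2 * X)).filter (fun n => idx h 0 n ∉ (∅ : Finset ℤ))).card : ℝ) ≤ X := by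
      have : ((Ioc X (2 * X)).filter (fun n => idx h 0 n ∉ (∅ : Finset ℤ))).card ≤ X := by
        refine (card_filter_le _ _).trans ?_
        rw [Nat.card_Ioc]
        omega
      exact_mod_cast this
    have h3 : (2 : ℝ) * h ≤ X := by exact_mod_cast h2X
    have h4 : ρ1 ^ 2 / (4 * C) * X ≤ 2 * X := by
      have e : (ρ1 - 0) ^ 2 = ρ1 ^ 2 := by ring
      rw [e] at h1
      linarith
    have h5 := le_of_mul_le_mul_right h4 hX0
    rw [div_le_iff₀ (by positivity)] at h5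
    linarith
  have hρ18 : ρ1 ≤ 1 + 8 * C := by nlinarith [sq_nonneg (ρ1 - 1)]
  have hfm := fmono (c + c') ρ ρ1 (by linarith) hρ hρρ
  have e0 : ρ - (c + c') = ρ - c - c' := by ring
  rw [e0] at hfm
  obtain ⟨w, hw⟩ : ∃ w : ℝ, w = ρ1 - (c + c') := ⟨_, rfl⟩
  rw [← hw] at hfm
  have hw0 : 0 ≤ w := by linarith
  have hwρ : w ≤ ρ1 := by linarith
  refine le_trans (mul_le_mul_of_nonneg_right (sub_le_sub_right hfm η) hX0.le) ?_
  by_cases hwδ : w ≤ 2 * δ
  · have h1 : w ^ 2 / (4 * ρ1) ≤ η := by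
      rcases eq_or_lt_of_le hρ10 with h0 | h0
      · rw [← h0, mul_zero, div_zero]
        exact hη.le
      · rw [div_le_iff₀ (by positivity)]
        have : w ^ 2 ≤ (2 * δ) * ρ1 := by nlinarith
        rw [hδ] at this
        nlinarith
    have h3 : (w ^ 2 / (4 * ρ1) - η) * X ≤ 0 := mul_nonpos_of_nonpos_of_nonneg (by linarith) hX0.le
    exact h3.trans (Nat.cast_nonneg _)
  · push Not at hwδ
    have hρ1p : 0 < ρ1 := by linarith
    -- second moment
    obtain ⟨μ, hμ⟩ : ∃ μ : ℝ, μ = (h : ℝ) / Real.log X := ⟨_, rfl⟩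
    have hμ0 : 0 < μ := by rw [hμ]; positivity
    have hpcA : (pc (B + X) X : ℝ) ≤ ρ1 * (X / Real.log X) := by
      rw [hmass1, pcs_sh]
    have hmom := hX2 X g2 h hh1 hh2 (B + X) (by omega) ρ1 hpcA
    rw [← hμ] at hmom
    have hV : ∑ n ∈ Icc X (2 * X), (pcs (Sh B) n h : ℝ) ^ 2 ≤ ((4 + ε) * ρ1 + 2 * ε) * (μ ^ 2 * X) := by
      have h1 : ∑ n ∈ Icc X (2 * X), (pcs (Sh B) n h : ℝ) ^ 2 =
          (pc (B + X) h : ℝ) ^ 2 + ∑ n ∈ Ioc (B + X) (B + X + X), (pc n h : ℝ) ^ 2 := by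
        have e1 : Icc X (2 * X) = insert X (Ioc X (2 * X)) := by
          ext n
          rw [mem_insert, mem_Icc, mem_Ioc]
          omega
        rw [e1, sum_insert (by simp), pcs_sh]
        congr 1
        refine sum_bij (fun n _ => B + n) ?_ ?_ ?_ ?_
        · intro n hn
          rw [mem_Ioc] at hn ⊢
          omega
        · intro a _ b _ hab
          exact Nat.add_left_cancel hab
        · intro k hk
          rw [mem_Ioc] at hk
          refine ⟨k - B, ?_, by omega⟩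
          rw [mem_Ioc]
          omega
        · intro n _
          rw [pcs_sh]
      have h2 : (pc (B + X) h : ℝ) ^ 2 ≤ ε * (μ ^ 2 * X) := by
        have h3 : (pc (B + X) h : ℝ) ≤ h := by
          have : pc (B + X) h ≤ h := by
            unfold pc
            refine (card_filter_le _ _).trans ?_
            rw [Nat.card_Ioc]
            omega
          exact_mod_cast this
        have h4 : (pc (B + X) h : ℝ) ^ 2 ≤ (h : ℝ) ^ 2 := pow_le_pow_left₀ (Nat.cast_nonneg _) h3 2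
        have h5 : (h : ℝ) ^ 2 = μ ^ 2 * (Real.log X) ^ 2 := by rw [hμ]; field_simp
        have h6 : μ ^ 2 * (Real.log X) ^ 2 ≤ μ ^ 2 * (ε * X) := mul_le_mul_of_nonneg_left hL2a (by positivity)
        linarith
      rw [h1]
      have h7 : ((4 + ε) * ρ1 + 2 * ε) * (μ ^ 2 * X) = ((4 + ε) * ρ1 + ε) * (μ ^ 2 * X) + ε * (μ ^ 2 * X) := by ring
      rw [h7]
      linarith
    obtain ⟨s, hs, hE⟩ := shiftS (Sh B) X h hh0 _ hV
    obtain ⟨K2, hK2⟩ : ∃ K2 : ℝ, K2 = (4 + ε) * ρ1 + 2 * ε := ⟨_, rfl⟩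
    have hK20 : 0 < K2 := by rw [hK2]; positivity
    have hE' : ∑ i ∈ Gs X h s, (fs (Sh B) X h s i) ^ 2 ≤ K2 * ((X : ℝ) / h) := by
      refine hE.trans (le_of_eq ?_)
      rw [← hK2, hμ]
      field_simp
    obtain ⟨Bad, hB1, hB2⟩ := hX3 (Sh B) X g3 hEng h s hh4 hh3 hs
    have h4 : 2 * h * Real.log X ≤ δ * X := by
      have h5 : (h : ℝ) ≤ 2 * κ * Real.log X := by linarith
      have h6 : 2 * (h : ℝ) * Real.log X ≤ 4 * κ * (Real.log X) ^ 2 := by
        have := mul_le_mul_of_nonneg_right h5 hL0.le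
        nlinarith
      have h7 : 4 * κ * (δ / (4 * κ) * X) = δ * X := by
        field_simp
      have h8 := mul_le_mul_of_nonneg_left hL2b (by positivity : 0 ≤ 4 * κ)
      linarith
    have hcnt := cntK (Sh B) X h s (by omega) h2X hs Bad ρ1 (c + c' + δ) δ K2 hK20 (by linarith) hB1 hmass1.le hE' h4
    have e1 : ρ1 - (c + c' + δ) - δ = w - 2 * δ := by rw [hw]; ring
    rw [e1] at hcnt
    have hcard : (((Ioc X (2 * X)).filter (fun n => idx h s n ∉ Bad)).card : ℝ) ≤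
        (((Ioc X (2 * X)).filter (fun n => RichX (Sh B) (K * Real.log X) K c c' X n)).card : ℝ) := by
      have hsub : (Ioc X (2 * X)).filter (fun n => idx h s n ∉ Bad) ⊆
          (Ioc X (2 * X)).filter (fun n => RichX (Sh B) (K * Real.log X) K c c' X n) := by
        intro n hn
        rw [mem_filter, mem_Ioc] at hn ⊢
        refine ⟨hn.1, RichX_mono ?_ hK3 hKK (hB2 n hn.1.1 hn.1.2 hn.2)⟩
        calc K3 * (h : ℝ) ≤ K3 * (2 * κ * Real.log X) := mul_le_mul_of_nonneg_left (by linarith) hK3.le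
          _ = (K3 * (2 * κ)) * Real.log X := by ring
          _ ≤ K * Real.log X := mul_le_mul_of_nonneg_right (by rw [hKd]; linarith) hL0.le
      exact_mod_cast card_le_card hsub
    refine le_trans ?_ (hcnt.trans hcard)
    apply mul_le_mul_of_nonneg_right _ hX0.le
    rw [le_div_iff₀ hK20, sub_mul, div_mul_eq_mul_div, sub_le_iff_le_add, div_le_iff₀ (by positivity)]
    -- `w² K2 ≤ ((w - 2δ)² + η K2) 4 ρ1`
    have f1 : w ^ 2 * K2 = 4 * ρ1 * w ^ 2 + w ^ 2 * (ε * (ρ1 + 2)) := by rw [hK2]; ring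
    have f2 : ε * (ρ1 + 2) ≤ η := by
      rw [← hε1]
      exact mul_le_mul_of_nonneg_left (by linarith) hε0.le
    have f3 : w ^ 2 * (ε * (ρ1 + 2)) ≤ ρ1 ^ 2 * η := by
      apply mul_le_mul _ f2 (by positivity) (by positivity)
      exact pow_le_pow_left₀ hw0 hwρ 2
    have f4 : 4 * ρ1 ≤ K2 := by
      rw [hK2]
      have : 0 ≤ ε * ρ1 := by positivity
      linarith
    have f5 : (w - 2 * δ) ^ 2 ≥ w ^ 2 - 4 * δ * w := by nlinarith [sq_nonneg δ]
    have f6 : 4 * δ * w ≤ 2 * η * ρ1 := by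
      rw [hδ]
      nlinarith
    have f7 : η * (4 * ρ1) ≤ η * K2 := mul_le_mul_of_nonneg_left f4 hη.le
    have f8 : (w ^ 2 - 2 * η * ρ1 + η * (4 * ρ1)) * (4 * ρ1) ≤ ((w - 2 * δ) ^ 2 + η * K2) * (4 * ρ1) := by
      apply mul_le_mul_of_nonneg_right _ (by positivity)
      linarith
    have f9 : 0 ≤ ρ1 ^ 2 * η := by positivity
    refine le_trans ?_ f8
    rw [f1]
    nlinarith

end Pool.Agent.H67.RW
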