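import Pool.Agent.H67.RW.Abs
import Pool.Agent.H67.RW.FinC

/-!
# Module Abs2 (window form): final form, explicit constant
-/

set_option autoImplicit false

namespace Pool.Agent.H67.RW

open Finset Pool.Agent.H67.RG

open Classical in
/-- the window `(A, A + N]`, `A ≥ N` -/
theorem finA2 (M c c' η : ℝ) (hM : 1 ≤ M) (hc : 0 ≤ c) (hc' : 0 ≤ c') (hη : 0 < η) :
    ∃ K : ℝ, 0 < K ∧ ∃ N0 : ℕ, ∀ N A : ℕ, N0 ≤ N → N ≤ A →
    ((((Ioc A (A + N)).filter (fun n => ¬ RegularN M K η N n)).card : ℝ) ≤ η * N) ∧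
    ((((Ioc A (A + N)).filter (fun p => p.Prime ∧ ¬ (RegularN M K η N p ∧ RichN K c c' N p))).card : ℝ) ≤
      (c + c' + η) * (N / Real.log N)) ∧
    (∀ ρ : ℝ, c + c' ≤ ρ → ρ * (N / Real.log N) ≤ pr A (A + N) →
      ((ρ - c - c') ^ 2 / (4 * ρ) - η) * N ≤ (((Ioc A (A + N)).filter (fun n =>
        RegularN M K η N n ∧ RichN K c c' N n)).card : ℝ)) := by
  obtain ⟨κ, hκ, hmain⟩ := finW
  obtain ⟨K1, hK1, X1, h1⟩ := hmain M c c' (η / 2) hM hc hc' (by positivity)
  obtain ⟨K2, hK2, X2, h2⟩ := finC c c' (η / 2) hc hc' (by positivity)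
  obtain ⟨K, hK⟩ : ∃ K : ℝ, K = K1 + K2 + M := ⟨_, rfl⟩
  have hMK : M ≤ K := by linarith
  have hK1K : K1 ≤ K := by linarith
  have hK2K : K2 ≤ K := by linarith
  refine ⟨K, by linarith, max (max X1 X2) 3, ?_⟩
  intro N A hN hNA
  have g1 : X1 ≤ N := le_trans (le_trans (le_max_left _ _) (le_max_left _ _)) hN
  have g2 : X2 ≤ N := le_trans (le_trans (le_max_right _ _) (le_max_left _ _)) hN
  have g3 : 3 ≤ N := le_trans (le_max_right _ _) hN
  have hNR : (3 : ℝ) ≤ N := by exact_mod_cast g3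
  have hN0 : (0 : ℝ) < N := by linarith
  have hL1 : 1 ≤ Real.log N := by
    rw [Real.le_log_iff_exp_le hN0]
    have := Real.exp_one_lt_d9
    linarith
  obtain ⟨B, hB⟩ : ∃ B : ℕ, A = B + N := ⟨A - N, by omega⟩
  obtain ⟨r1, r2, -⟩ := h1 N g1 B
  have htr : ∀ m : ℕ, N < m → (RegA (Sh B) M K1 N m ∧ RegB (Sh B) M K1 (η / 2) N m ∧ RegC (Sh B) M K1 (η / 2) N m) →
      RegularN M K η N (B + m) := by
    intro m hm h
    refine reg_tr B M K η N m hM hMK (by omega) hm (RegA_mono hK1 hK1K (by linarith) h.1) ?_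
      (RegC_mono hK1 hK1K (by linarith) (by linarith) h.2.2)
    have h4 := RegB_mono hK1 hK1K hL1 h.2.1
    intro a b hab hl
    refine (h4 a b hab hl).trans ?_
    have hl1 : 1 ≤ b - a := (Real.one_le_rpow hL1 (by linarith)).trans hl
    apply mul_le_mul_of_nonneg_right (by linarith)
    exact div_nonneg (by linarith) (Real.log_nonneg (by nlinarith))
  have htr2 : ∀ K' : ℝ, 0 < K' → K' ≤ K → ∀ m : ℕ, N < m → RichX (Sh B) (K' * Real.log N) K' c c' N m →
      RichN K c c' N (B + m) := by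
    intro K' hK' hKK m hm h
    exact rich_tr B K c c' N m (by linarith) hm
      (RichX_mono (mul_le_mul_of_nonneg_right hKK (by linarith)) hK' hKK h)
  have hmap : ∀ (P Q : ℕ → Prop) [DecidablePred P] [DecidablePred Q], (∀ m : ℕ, N < m → m ≤ 2 * N → P (B + m) → Q m) →
      (((Ioc A (A + N)).filter P).card : ℝ) ≤ (((Ioc N (2 * N)).filter Q).card : ℝ) := by
    intro P Q _ _ hPQ
    have : ((Ioc A (A + N)).filter P).card ≤ ((Ioc N (2 * N)).filter Q).card := by
      refine card_le_card_of_injOn (fun n => n - B) ?_ ?_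
      · intro n hn
        rw [mem_coe, mem_filter, mem_Ioc] at hn
        rw [mem_coe, mem_filter, mem_Ioc]
        beta_reduce
        refine ⟨⟨by omega, by omega⟩, ?_⟩
        refine hPQ (n - B) (by omega) (by omega) ?_
        rw [show B + (n - B) = n by omega]
        exact hn.2
      · intro x hx y hy hxy
        rw [mem_coe, mem_filter, mem_Ioc] at hx hy
        simp only at hxy
        omega
    exact_mod_cast this
  have hmap2 : ∀ (P Q : ℕ → Prop) [DecidablePred P] [DecidablePred Q], (∀ m : ℕ, N < m → m ≤ 2 * N → Q m → P (B + m)) →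
      (((Ioc N (2 * N)).filter Q).card : ℝ) ≤ (((Ioc A (A + N)).filter P).card : ℝ) := by
    intro P Q _ _ hPQ
    have : ((Ioc N (2 * N)).filter Q).card ≤ ((Ioc A (A + N)).filter P).card := by
      refine card_le_card_of_injOn (fun m => B + m) ?_ ?_
      · intro m hm
        rw [mem_coe, mem_filter, mem_Ioc] at hm
        rw [mem_coe, mem_filter, mem_Ioc]
        beta_reduce
        exact ⟨⟨by omega, by omega⟩, hPQ m hm.1.1 hm.1.2 hm.2⟩
      · intro x _ y _ hxy
        exact Nat.add_left_cancel hxy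
    exact_mod_cast this
  have hNlog : 0 ≤ (N : ℝ) / Real.log N := by positivity
  have hi : (((Ioc A (A + N)).filter (fun n => ¬ RegularN M K η N n)).card : ℝ) ≤ η / 2 * N := by
    refine (hmap _ (fun n => ¬ (RegA (Sh B) M K1 N n ∧ RegB (Sh B) M K1 (η / 2) N n ∧ RegC (Sh B) M K1 (η / 2) N n)) ?_).trans r1
    intro m hm _ hP hQ
    exact hP (htr m hm hQ)
  refine ⟨hi.trans (mul_le_mul_of_nonneg_right (by linarith) hN0.le), ?_, ?_⟩
  · refine (hmap _ (fun p => Sh B p ∧
      ¬ (RegA (Sh B) M K1 N p ∧ RegB (Sh B) M K1 (η / 2) N p ∧ RegC (Sh B) M K1 (η / 2) N p ∧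
        RichX (Sh B) (K1 * Real.log N) K1 c c' N p)) ?_).trans (r2.trans ?_)
    · intro m hm _ hP
      refine ⟨hP.1, fun hQ => hP.2 ⟨htr m hm ⟨hQ.1, hQ.2.1, hQ.2.2.1⟩, htr2 K1 hK1 hK1K m hm hQ.2.2.2⟩⟩
    · exact mul_le_mul_of_nonneg_right (by linarith) hNlog
  · intro ρ hρ hmass
    have hm2 : (pcs (Sh B) N N : ℝ) = pr A (A + N) := by
      have e := prs_sh B (A : ℝ) (A + N) (by rw [hB]; push_cast; linarith)
      rw [← e]
      unfold pcs prs
      have e1 : (A : ℝ) - B = (N : ℕ) := by rw [hB]; push_cast; ring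
      have e2 : (A : ℝ) + N - B = ((N + N : ℕ) : ℝ) := by rw [hB]; push_cast; ring
      rw [e1, e2, Nat.floor_natCast, Nat.floor_natCast]
    have h4 := h2 N g2 B ρ hρ (by rw [hm2]; exact hmass)
    have h5 := h4.trans (hmap2 (fun n => RichN K c c' N n) _ (fun m hm _ hQ => htr2 K2 hK2 hK2K m hm hQ))
    have hsub : (Ioc A (A + N)).filter (fun n => RichN K c c' N n) ⊆
        (Ioc A (A + N)).filter (fun n => RegularN M K η N n ∧ RichN K c c' N n) ∪
        (Ioc A (A + N)).filter (fun n => ¬ RegularN M K η N n) := by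
      intro n hn
      rw [mem_filter] at hn
      rw [mem_union, mem_filter, mem_filter]
      by_cases hr : RegularN M K η N n
      · exact Or.inl ⟨hn.1, hr, hn.2⟩
      · exact Or.inr ⟨hn.1, hr⟩
    have h6 : (((Ioc A (A + N)).filter (fun n => RichN K c c' N n)).card : ℝ) ≤
        (((Ioc A (A + N)).filter (fun n => RegularN M K η N n ∧ RichN K c c' N n)).card : ℝ) +
        (((Ioc A (A + N)).filter (fun n => ¬ RegularN M K η N n)).card : ℝ) := by
      exact_mod_cast (card_le_card hsub).trans (card_union_le _ _)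
    have h7 : ((ρ - c - c') ^ 2 / (4 * ρ) - η) * N = ((ρ - c - c') ^ 2 / (4 * ρ) - η / 2) * N - η / 2 * N := by ring
    rw [h7]
    linarith

end Pool.Agent.H67.RW
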