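import Pool.Agent.H67.RG.Fin2
import Pool.Agent.H1.PS.Fin
import Pool.Agent.H67.RW.Abs

/-!
# Module AbsK (window form): the version with an absolute constant and `13/50` in the window `(N, 2N]` (not used in the final theorem)
-/

set_option autoImplicit false

namespace Pool.Agent.H67.RW

open Finset Pool.Agent.H67.RG

open Classical in
/-- the window `(A, A + N]`, `A ≥ N` -/
theorem finA : ∃ κ : ℝ, 0 < κ ∧ ∀ M c c' η : ℝ, 1 ≤ M → 0 ≤ c → 0 ≤ c' → 0 < η →
    ∃ K : ℝ, 0 < K ∧ ∃ N0 : ℕ, ∀ N A : ℕ, N0 ≤ N → N ≤ A →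
    ((((Ioc A (A + N)).filter (fun n => ¬ RegularN M K η N n)).card : ℝ) ≤ η * N) ∧
    ((((Ioc A (A + N)).filter (fun p => p.Prime ∧ ¬ (RegularN M K η N p ∧ RichN K c c' N p))).card : ℝ) ≤
      (c + c' + η) * (N / Real.log N)) ∧
    (∀ ρ : ℝ, c + c' ≤ ρ → ρ * (N / Real.log N) ≤ pr A (A + N) →
      (κ * (ρ - c - c') ^ 2 - η) * N ≤ (((Ioc A (A + N)).filter (fun n =>
        RegularN M K η N n ∧ RichN K c c' N n)).card : ℝ)) ∧
    (A = N → c + c' < 1 → (13 / 50 * (1 - c - c') ^ 2 - η) * N ≤ (((Ioc A (A + N)).filter (fun n =>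
        RegularN M K η N n ∧ RichN K c c' N n)).card : ℝ)) := by
  obtain ⟨κ, hκ, hmain⟩ := finW
  refine ⟨κ, hκ, ?_⟩
  intro M c c' η hM hc hc' hη
  obtain ⟨K1, hK1, X1, h1⟩ := hmain M c c' (η / 2) hM hc hc' (by positivity)
  -- the window `(N, 2N]`
  have h2 : ∃ K2 : ℝ, 0 < K2 ∧ ∃ X2 : ℕ, ∀ X : ℕ, X2 ≤ X → c + c' < 1 →
      (13 / 50 * (1 - c - c') ^ 2 - η / 2) * X ≤
        (((Ioc X (2 * X)).filter (fun n => RichN K2 c c' X n)).card : ℝ) := by
    by_cases hcc : c + c' < 1
    · obtain ⟨ε, hε⟩ : ∃ ε : ℝ, ε = min (η / 8) ((1 - c - c') / 4) := ⟨_, rfl⟩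
      have hε0 : 0 < ε := by rw [hε]; exact lt_min (by positivity) (by linarith)
      have hε1 : ε ≤ η / 8 := by rw [hε]; exact min_le_left _ _
      have hε2 : ε ≤ (1 - c - c') / 4 := by rw [hε]; exact min_le_right _ _
      obtain ⟨K2, hK2, X2, hX2⟩ := fin2 (50 / 13) (by norm_num) Pool.Agent.H1.PS.ps M (c + ε) (c' + ε) (η / 8) hM
        (by linarith) (by linarith) (by linarith) (by positivity)
      have hlogtend : Filter.Tendsto (fun n : ℕ => Real.log (n : ℝ)) Filter.atTop Filter.atTop :=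
        Real.tendsto_log_atTop.comp tendsto_natCast_atTop_atTop
      obtain ⟨X3, hX3⟩ := Filter.eventually_atTop.mp (hlogtend.eventually_ge_atTop (1 / ε + 1))
      refine ⟨2 * K2 + 1, by linarith, max X2 (max X3 2), ?_⟩
      intro X hX _
      have g2 : X2 ≤ X := le_trans (le_max_left _ _) hX
      have g3 : X3 ≤ X := le_trans (le_trans (le_max_left _ _) (le_max_right _ _)) hX
      have g4 : 2 ≤ X := le_trans (le_trans (le_max_right _ _) (le_max_right _ _)) hX
      obtain ⟨-, -, r⟩ := hX2 X g2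
      have hXR : (2 : ℝ) ≤ X := by exact_mod_cast g4
      have hX0 : (0 : ℝ) < X := by linarith
      have hL := hX3 X g3
      have hε3 : 0 < 1 / ε := by positivity
      have hL1 : 1 ≤ Real.log X := by linarith
      have hLε : 1 ≤ ε * Real.log X := by
        have : 1 / ε ≤ Real.log X := by linarith
        rw [div_le_iff₀ hε0] at this
        linarith
      have hsub : (Ioc X (2 * X)).filter (fun n => Pool.Agent.H67.RG.RegA M K2 n ∧ Pool.Agent.H67.RG.RegB M K2 (η / 8) n ∧
          Pool.Agent.H67.RG.RegC M K2 (η / 8) n ∧ Rich K2 (c + ε) (c' + ε) n) ⊆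
          (Ioc X (2 * X)).filter (fun n => RichN (2 * K2 + 1) c c' X n) := by
        intro n hn
        rw [mem_filter, mem_Ioc] at hn ⊢
        refine ⟨hn.1, ?_⟩
        have hr := hn.2.2.2.2
        have hn1 : (X : ℝ) < n := by exact_mod_cast hn.1.1
        have hn2 : (n : ℝ) ≤ 2 * X := by exact_mod_cast hn.1.2
        have hlog1 : Real.log X ≤ Real.log n := Real.log_le_log hX0 hn1.le
        have hlog2 : Real.log n ≤ Real.log X + 1 := by
          have h3 : Real.log n ≤ Real.log (2 * X) := Real.log_le_log (by linarith) hn2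
          rw [Real.log_mul (by norm_num) hX0.ne'] at h3
          have := Real.log_two_lt_d9
          linarith
        intro H hH1 hH2
        have hH0 : 0 ≤ H := (by positivity : (0 : ℝ) ≤ (2 * K2 + 1) * Real.log X).trans hH1
        have hHn : H ≤ n := by
          refine hH2.trans ?_
          rw [div_le_iff₀ (by positivity)]
          nlinarith
        have hHK : K2 * Real.log n ≤ H := by
          refine le_trans ?_ hH1
          nlinarith
        obtain ⟨r1, r2⟩ := hr H hHK hHn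
        have key : ∀ d : ℝ, 0 ≤ d → d ≤ 1 → d * (H / Real.log X) ≤ (d + ε) * (H / Real.log n) := by
          intro d hd0 hd1
          have h3 : d * Real.log n ≤ (d + ε) * Real.log X := by nlinarith
          rw [← mul_div_assoc, ← mul_div_assoc, div_le_div_iff₀ (by linarith) (by linarith)]
          nlinarith
        exact ⟨(key c hc (by linarith)).trans r1, (key c' hc' (by linarith)).trans r2⟩
      have hcard : (((Ioc X (2 * X)).filter (fun n => Pool.Agent.H67.RG.RegA M K2 n ∧ Pool.Agent.H67.RG.RegB M K2 (η / 8) n ∧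
          Pool.Agent.H67.RG.RegC M K2 (η / 8) n ∧ Rich K2 (c + ε) (c' + ε) n)).card : ℝ) ≤
          (((Ioc X (2 * X)).filter (fun n => RichN (2 * K2 + 1) c c' X n)).card : ℝ) := by
        exact_mod_cast card_le_card hsub
      refine le_trans ?_ (r.trans hcard)
      apply mul_le_mul_of_nonneg_right _ hX0.le
      have e1 : (1 - (c + ε) - (c' + ε)) ^ 2 / (50 / 13) = 13 / 50 * (1 - c - c' - 2 * ε) ^ 2 := by ring
      rw [e1]
      nlinarith [sq_nonneg ε]
    · exact ⟨1, one_pos, 0, fun _ _ h => absurd h hcc⟩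
  obtain ⟨K2, hK2, X2, h2⟩ := h2
  obtain ⟨K, hK⟩ : ∃ K : ℝ, K = K1 + K2 + M := ⟨_, rfl⟩
  have hMK : M ≤ K := by linarith
  have hK1K : K1 ≤ K := by linarith
  refine ⟨K, by linarith, max (max X1 X2) 3, ?_⟩
  intro N A hN hNA
  have g1 : X1 ≤ N := le_trans (le_trans (le_max_left _ _) (le_max_left _ _)) hN
  have g2 : X2 ≤ N := le_trans (le_trans (le_max_right _ _) (le_max_left _ _)) hN
  have g3 : 3 ≤ N := le_trans (le_max_right _ _) hN
  have hNR : (3 : ℝ) ≤ N := by exact_mod_cast g3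
  have hN0 : (0 : ℝ) < N := by linarith
  have hL1 : 1 ≤ Real.log N := by
    rw [Real.le_log_iff_exp_le hN0]
    have := Real.exp_one_lt_d9
    linarith
  obtain ⟨B, hB⟩ : ∃ B : ℕ, A = B + N := ⟨A - N, by omega⟩
  obtain ⟨r1, r2, r3⟩ := h1 N g1 B
  have htr : ∀ m : ℕ, N < m → (RegA (Sh B) M K1 N m ∧ RegB (Sh B) M K1 (η / 2) N m ∧ RegC (Sh B) M K1 (η / 2) N m) →
      RegularN M K η N (B + m) := by
    intro m hm h
    refine reg_tr B M K η N m hM hMK (by omega) hm (RegA_mono hK1 hK1K (by linarith) h.1) ?_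
      (RegC_mono hK1 hK1K (by linarith) (by linarith) h.2.2)
    have h4 := RegB_mono hK1 hK1K hL1 h.2.1
    intro a b hab hl
    refine (h4 a b hab hl).trans ?_
    have hl1 : 1 ≤ b - a := (Real.one_le_rpow hL1 (by linarith)).trans hl
    apply mul_le_mul_of_nonneg_right (by linarith)
    exact div_nonneg (by linarith) (Real.log_nonneg (by nlinarith))
  have htr2 : ∀ m : ℕ, N < m → RichX (Sh B) (K1 * Real.log N) K1 c c' N m → RichN K c c' N (B + m) := by
    intro m hm h
    exact rich_tr B K c c' N m (by linarith) hm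
      (RichX_mono (mul_le_mul_of_nonneg_right hK1K (by linarith)) hK1 hK1K h)
  have hmap : ∀ (P Q : ℕ → Prop) [DecidablePred P] [DecidablePred Q], (∀ m : ℕ, N < m → m ≤ 2 * N → P (B + m) → Q m) →
      (((Ioc A (A + N)).filter P).card : ℝ) ≤ (((Ioc N (2 * N)).filter Q).card : ℝ) := by
    intro P Q _ _ hPQ
    have : ((Ioc A (A + N)).filter P).card ≤ ((Ioc N (2 * N)).filter Q).card := by
      refine card_le_card_of_injOn (fun n => n - B) ?_ ?_
      · intro n hn
        rw [mem_coe, mem_filter, mem_Ioc] at hn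
        rw [mem_coe, mem_filter, mem_Ioc]
        beta_reduce
        refine ⟨⟨by omega, by omega⟩, ?_⟩
        refine hPQ (n - B) (by omega) (by omega) ?_
        rw [show B + (n - B) = n by omega]
        exact hn.2
      · intro x hx y hy hxy
        rw [mem_coe, mem_filter, mem_Ioc] at hx hy
        simp only at hxy
        omega
    exact_mod_cast this
  have hmap2 : ∀ (P Q : ℕ → Prop) [DecidablePred P] [DecidablePred Q], (∀ m : ℕ, N < m → m ≤ 2 * N → Q m → P (B + m)) →
      (((Ioc N (2 * N)).filter Q).card : ℝ) ≤ (((Ioc A (A + N)).filter P).card : ℝ) := by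
    intro P Q _ _ hPQ
    have : ((Ioc N (2 * N)).filter Q).card ≤ ((Ioc A (A + N)).filter P).card := by
      refine card_le_card_of_injOn (fun m => B + m) ?_ ?_
      · intro m hm
        rw [mem_coe, mem_filter, mem_Ioc] at hm
        rw [mem_coe, mem_filter, mem_Ioc]
        beta_reduce
        exact ⟨⟨by omega, by omega⟩, hPQ m hm.1.1 hm.1.2 hm.2⟩
      · intro x _ y _ hxy
        exact Nat.add_left_cancel hxy
    exact_mod_cast this
  have hNlog : 0 ≤ (N : ℝ) / Real.log N := by positivity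
  refine ⟨?_, ?_, ?_, ?_⟩
  · refine (hmap _ (fun n => ¬ (RegA (Sh B) M K1 N n ∧ RegB (Sh B) M K1 (η / 2) N n ∧ RegC (Sh B) M K1 (η / 2) N n)) ?_).trans
      (r1.trans ?_)
    · intro m hm _ hP hQ
      exact hP (htr m hm hQ)
    · exact mul_le_mul_of_nonneg_right (by linarith) hN0.le
  · refine (hmap _ (fun p => Sh B p ∧
      ¬ (RegA (Sh B) M K1 N p ∧ RegB (Sh B) M K1 (η / 2) N p ∧ RegC (Sh B) M K1 (η / 2) N p ∧
        RichX (Sh B) (K1 * Real.log N) K1 c c' N p)) ?_).trans (r2.trans ?_)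
    · intro m hm _ hP
      refine ⟨hP.1, fun hQ => hP.2 ⟨htr m hm ⟨hQ.1, hQ.2.1, hQ.2.2.1⟩, htr2 m hm hQ.2.2.2⟩⟩
    · exact mul_le_mul_of_nonneg_right (by linarith) hNlog
  · intro ρ hρ hmass
    have hm2 : (pcs (Sh B) N N : ℝ) = pr A (A + N) := by
      have e := prs_sh B (A : ℝ) (A + N) (by rw [hB]; push_cast; linarith)
      rw [← e]
      unfold pcs prs
      have e1 : (A : ℝ) - B = (N : ℕ) := by rw [hB]; push_cast; ring
      have e2 : (A : ℝ) + N - B = ((N + N : ℕ) : ℝ) := by rw [hB]; push_cast; ring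
      rw [e1, e2, Nat.floor_natCast, Nat.floor_natCast]
    have h4 := r3 ρ hρ (by rw [hm2]; exact hmass)
    refine le_trans ?_ (h4.trans (hmap2 _ _ ?_))
    · exact mul_le_mul_of_nonneg_right (by linarith) hN0.le
    · intro m hm _ hQ
      exact ⟨htr m hm ⟨hQ.1, hQ.2.1, hQ.2.2.1⟩, htr2 m hm hQ.2.2.2⟩
  · intro hAN hcc
    have hB0 : B = 0 := by omega
    have h4 := h2 N g2 hcc
    have hsub : (Ioc N (2 * N)).filter (fun n => RichN K2 c c' N n) ⊆
        (Ioc N (2 * N)).filter (fun n => RegularN M K η N n ∧ RichN K c c' N n) ∪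
        (Ioc N (2 * N)).filter (fun n => ¬ (RegA (Sh B) M K1 N n ∧ RegB (Sh B) M K1 (η / 2) N n ∧
          RegC (Sh B) M K1 (η / 2) N n)) := by
      intro n hn
      rw [mem_filter, mem_Ioc] at hn
      rw [mem_union, mem_filter, mem_filter, mem_Ioc]
      by_cases hr : RegA (Sh B) M K1 N n ∧ RegB (Sh B) M K1 (η / 2) N n ∧ RegC (Sh B) M K1 (η / 2) N n
      · left
        have h5 := htr n hn.1.1 hr
        rw [hB0, Nat.zero_add] at h5
        refine ⟨hn.1, h5, ?_⟩
        intro H hH1 hH2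
        refine hn.2 H (le_trans ?_ hH1) (hH2.trans ?_)
        · exact mul_le_mul_of_nonneg_right (by linarith) (by linarith)
        · exact div_le_div_of_nonneg_left hN0.le hK2 (by linarith)
      · right
        exact ⟨hn.1, hr⟩
    have h5 := (card_le_card hsub).trans (card_union_le _ _)
    have h6 : (((Ioc N (2 * N)).filter (fun n => RichN K2 c c' N n)).card : ℝ) ≤
        (((Ioc N (2 * N)).filter (fun n => RegularN M K η N n ∧ RichN K c c' N n)).card : ℝ) +
        (((Ioc N (2 * N)).filter (fun n => ¬ (RegA (Sh B) M K1 N n ∧ RegB (Sh B) M K1 (η / 2) N n ∧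
          RegC (Sh B) M K1 (η / 2) N n))).card : ℝ) := by
      exact_mod_cast h5
    rw [hAN, ← two_mul]
    nlinarith

end Pool.Agent.H67.RW
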