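import Pool.Agent.H67.RG.Blk
import Pool.Agent.H67.RW.Def

/-!
# Module Blk (window form): the block function of a set; copy of H67/RG/Blk
-/

set_option autoImplicit false

namespace Pool.Agent.H67.RW

open Finset Pool.Agent.H67.RG

variable (S : ℕ → Prop) [DecidablePred S]

private theorem blkS_add (a m k : ℕ) : pcs S a (m + k) = pcs S a m + pcs S (a + m) k := by
  unfold pcs
  rw [← card_union_of_disjoint]
  · congr 1
    ext p
    simp only [mem_filter, mem_Ioc, mem_union]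
    constructor
    · rintro ⟨⟨h1, h2⟩, h3⟩
      by_cases h4 : p ≤ a + m
      · left; exact ⟨⟨h1, h4⟩, h3⟩
      · right; exact ⟨⟨by omega, by omega⟩, h3⟩
    · rintro (⟨⟨h1, h2⟩, h3⟩ | ⟨⟨h1, h2⟩, h3⟩)
      · exact ⟨⟨h1, by omega⟩, h3⟩
      · exact ⟨⟨by omega, by omega⟩, h3⟩
  · rw [disjoint_left]
    intro p hp hp'
    rw [mem_filter, mem_Ioc] at hp hp'
    omega

theorem fs_nonneg (X h s : ℕ) (i : ℤ) : 0 ≤ fs S X h s i := by
  unfold fs
  split_ifs
  · have := Real.log_natCast_nonneg X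
    positivity
  · exact le_rfl

theorem fs_supp (X h s m : ℕ) (hh : 1 ≤ h) (hm : 3 * X ≤ 2 ^ m * h) : Supp (fs S X h s) m := by
  intro i hi
  unfold fs
  rw [if_neg]
  rintro ⟨h1, h2⟩
  apply hi
  unfold Rt
  rw [mem_Ico]
  refine ⟨by omega, ?_⟩
  by_contra hc
  push Not at hc
  obtain ⟨n, rfl⟩ := Int.eq_ofNat_of_zero_le (by omega : 0 ≤ i)
  rw [Int.toNat_natCast] at h2
  have h3 : 2 ^ m ≤ n := by exact_mod_cast hc
  have h4 := Nat.mul_le_mul_right h h3
  nlinarith

theorem fs_energy (C : ℝ) (hC : 0 < C) (X h s : ℕ) (hE : Eng C S X) (hX : 2 ≤ X) (hl : Real.log X ≤ h)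
    (h2h : 2 * h ≤ 3 * X) (hs : s < h) (R : Finset ℤ) :
    ∑ i ∈ R, (fs S X h s i) ^ 2 ≤ 4 * C * ((X : ℝ) / h) := by
  classical
  have hXR : (2 : ℝ) ≤ X := by exact_mod_cast hX
  have hlog : 0 < Real.log X := Real.log_pos (by linarith)
  have hh : 0 < h := by omega
  have hhR : (0 : ℝ) < h := by exact_mod_cast hh
  have hs1 := hE (2 * h) (by push_cast at hl ⊢; linarith) h2h
  obtain ⟨R', hR'⟩ : ∃ R' : Finset ℤ, R' = R.filter (fun i => 1 ≤ i ∧ s + (i.toNat + 1) * h ≤ 3 * X) := ⟨_, rfl⟩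
  have h1 : ∑ i ∈ R, (fs S X h s i) ^ 2 = (Real.log X / h) ^ 2 * ∑ i ∈ R', (pcs S (s + i.toNat * h) h : ℝ) ^ 2 := by
    rw [hR', sum_filter, mul_sum]
    refine sum_congr rfl fun i _ => ?_
    unfold fs
    split_ifs
    · ring
    · ring
  have h2 : (h : ℝ) * ∑ i ∈ R', (pcs S (s + i.toNat * h) h : ℝ) ^ 2 ≤ ∑ n ∈ range (3 * X), (pcs S n (2 * h) : ℝ) ^ 2 := by
    have h3 : (h : ℝ) * ∑ i ∈ R', (pcs S (s + i.toNat * h) h : ℝ) ^ 2 =
        ∑ x ∈ R' ×ˢ range h, (pcs S (s + x.1.toNat * h) h : ℝ) ^ 2 := by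
      rw [sum_product, mul_sum]
      refine sum_congr rfl fun i _ => ?_
      simp only [sum_const, card_range, nsmul_eq_mul]
    have hmem : ∀ x ∈ R' ×ˢ range h, 1 ≤ x.1.toNat ∧ s + (x.1.toNat + 1) * h ≤ 3 * X ∧ x.2 < h ∧ 1 ≤ x.1 := by
      intro x hx
      rw [mem_product, hR', mem_filter, mem_range] at hx
      exact ⟨by omega, hx.1.2.2, hx.2, hx.1.2.1⟩
    have hinj : Set.InjOn (fun x : ℤ × ℕ => s + x.1.toNat * h - x.2) (R' ×ˢ range h : Finset (ℤ × ℕ)) := by
      intro x hx y hy hxy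
      obtain ⟨hx1, -, hx2, hx3⟩ := hmem x hx
      obtain ⟨hy1, -, hy2, hy3⟩ := hmem y hy
      have hxy' : s + x.1.toNat * h - x.2 = s + y.1.toNat * h - y.2 := hxy
      have hxh : h ≤ x.1.toNat * h := Nat.le_mul_of_pos_left h hx1
      have hyh : h ≤ y.1.toNat * h := Nat.le_mul_of_pos_left h hy1
      have h4 : x.1.toNat = y.1.toNat := by
        rcases lt_trichotomy x.1.toNat y.1.toNat with hc | hc | hc
        · have h5 : (x.1.toNat + 1) * h ≤ y.1.toNat * h := Nat.mul_le_mul_right h hc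
          rw [add_mul, one_mul] at h5
          omega
        · exact hc
        · have h5 : (y.1.toNat + 1) * h ≤ x.1.toNat * h := Nat.mul_le_mul_right h hc
          rw [add_mul, one_mul] at h5
          omega
      have h5 : x.2 = y.2 := by
        rw [h4] at hxy' hxh
        omega
      exact Prod.ext (by omega) h5
    rw [h3]
    calc ∑ x ∈ R' ×ˢ range h, (pcs S (s + x.1.toNat * h) h : ℝ) ^ 2
        ≤ ∑ x ∈ R' ×ˢ range h, (pcs S (s + x.1.toNat * h - x.2) (2 * h) : ℝ) ^ 2 := by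
          refine sum_le_sum fun x hx => ?_
          obtain ⟨hx1, -, hx2, hx3⟩ := hmem x hx
          have hxh : h ≤ x.1.toNat * h := Nat.le_mul_of_pos_left h hx1
          refine pow_le_pow_left₀ (Nat.cast_nonneg _) ?_ 2
          have h6 : pcs S (s + x.1.toNat * h) h ≤ pcs S (s + x.1.toNat * h - x.2) (2 * h) := by
            unfold pcs
            apply card_le_card
            apply filter_subset_filter
            intro p hp
            rw [mem_Ioc] at hp ⊢
            omega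
          exact_mod_cast h6
      _ = ∑ n ∈ (R' ×ˢ range h).image (fun x : ℤ × ℕ => s + x.1.toNat * h - x.2), (pcs S n (2 * h) : ℝ) ^ 2 := by
          rw [sum_image hinj]
      _ ≤ ∑ n ∈ range (3 * X), (pcs S n (2 * h) : ℝ) ^ 2 := by
          apply sum_le_sum_of_subset_of_nonneg
          · intro n hn
            rw [mem_image] at hn
            obtain ⟨x, hx, rfl⟩ := hn
            obtain ⟨hx1, hx4, hx2, hx3⟩ := hmem x hx
            rw [add_mul, one_mul] at hx4
            rw [mem_range]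
            omega
          · exact fun _ _ _ => sq_nonneg _
  rw [h1]
  have h3 := h2.trans hs1
  have h4 : (Real.log X / h) ^ 2 * ∑ i ∈ R', (pcs S (s + i.toNat * h) h : ℝ) ^ 2 =
      (Real.log X) ^ 2 / (h : ℝ) ^ 3 * ((h : ℝ) * ∑ i ∈ R', (pcs S (s + i.toNat * h) h : ℝ) ^ 2) := by
    field_simp
  rw [h4]
  refine (mul_le_mul_of_nonneg_left h3 (by positivity)).trans (le_of_eq ?_)
  push_cast
  field_simp
  ring

theorem fs_sum (X h s u w : ℕ) (hh : 1 ≤ h) (hu : 1 ≤ u) (huw : u ≤ w) (hw : s + w * h ≤ 3 * X) :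
    ∑ y ∈ Ico (u : ℤ) (w : ℤ), fs S X h s y = Real.log X / h * (pcs S (s + u * h) ((w - u) * h) : ℝ) := by
  induction w, huw using Nat.le_induction with
  | base =>
    have h1 : pcs S (s + u * h) 0 = 0 := by
      unfold pcs
      rw [add_zero, Ioc_self, filter_empty, card_empty]
    rw [Ico_self, sum_empty, Nat.sub_self, zero_mul, h1]
    simp
  | succ w huw ih =>
    have h1 : Ico (u : ℤ) ((w + 1 : ℕ) : ℤ) = insert (w : ℤ) (Ico (u : ℤ) (w : ℤ)) := by
      ext x
      rw [mem_insert, mem_Ico, mem_Ico]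
      push_cast
      omega
    have h2 : s + w * h ≤ 3 * X := by nlinarith
    rw [h1, sum_insert (by simp), ih h2]
    have h3 : fs S X h s (w : ℤ) = Real.log X / h * (pcs S (s + w * h) h : ℝ) := by
      unfold fs
      rw [Int.toNat_natCast, if_pos ⟨by omega, hw⟩]
    have h4 : (w + 1 - u) * h = (w - u) * h + h := by
      rw [show w + 1 - u = (w - u) + 1 by omega]
      ring
    have h5 : s + u * h + (w - u) * h = s + w * h := by
      rw [add_assoc, ← add_mul, show u + (w - u) = w by omega]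
    rw [h3, h4, blkS_add, h5]
    push_cast
    ring

end Pool.Agent.H67.RW
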