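import Pool.Agent.H67.RW.Idx
import Pool.Agent.H67.RW.Blk

/-!
# Module Cnt (window form): the number of integers in good blocks

PROOF. `Comp` = the indices of the integers of `(X, 2X]` which are not in `Bad`. The elements of `S` in `(X, 2X]` have index in `Bad` or in `Comp`, so (`prs_bad` twice)
`ρ X/log X ≤ (h/log X)(β X/h + ∑_{Comp} fs)`, and `(∑_{Comp} fs)² ≤ |Comp| 4 C X/h`. All but two blocks of `Comp` are inside `(X, 2X]` and contribute `h` integers each.
-/

set_option autoImplicit false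

namespace Pool.Agent.H67.RW

open Finset Pool.Agent.H67.RG

open Classical in
private theorem ce_card (X h s : ℕ) (hh : 1 ≤ h) (Bad : Finset ℤ) :
    (Gs X h s \ Bad).card * h ≤ ((Ioc X (2 * X)).filter (fun n => idx h s n ∉ Bad)).card := by
  have e : (Gs X h s \ Bad).card * h = ((Gs X h s \ Bad) ×ˢ range h).card := by
    rw [card_product, card_range]
  rw [e]
  have key : ∀ x ∈ (Gs X h s \ Bad) ×ˢ range h, 0 ≤ x.1 ∧ x.1 ∉ Bad ∧ x.2 < h ∧
      X < s + x.1.toNat * h + 1 + x.2 ∧ s + x.1.toNat * h + 1 + x.2 ≤ 2 * X ∧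
      idx h s (s + x.1.toNat * h + 1 + x.2) = x.1 := by
    rintro ⟨i, r⟩ hx
    rw [mem_product, mem_sdiff, mem_range] at hx
    simp only at hx ⊢
    obtain ⟨⟨hG, hB⟩, hr⟩ := hx
    unfold Gs at hG
    rw [mem_filter, mem_Ico] at hG
    obtain ⟨⟨b1, _⟩, b3, b4⟩ := hG
    have e1 : (i.toNat + 1) * h = i.toNat * h + h := by ring
    refine ⟨b1, hB, hr, by omega, by omega, ?_⟩
    have := idx_block h s (s + i.toNat * h + 1 + r) i.toNat hh (by omega) (by omega)
    rw [this, Int.toNat_of_nonneg b1]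
  refine card_le_card_of_injOn (fun x => s + x.1.toNat * h + 1 + x.2) ?_ ?_
  · intro x hx
    obtain ⟨b1, b2, b3, b4, b5, b6⟩ := key x hx
    rw [mem_coe, mem_filter, mem_Ioc]
    refine ⟨⟨b4, b5⟩, ?_⟩
    simp only
    rw [b6]
    exact b2
  · intro x hx y hy hxy
    obtain ⟨b1, b2, b3, b4, b5, b6⟩ := key x hx
    obtain ⟨c1, c2, c3, c4, c5, c6⟩ := key y hy
    simp only at hxy
    have h1 : x.1 = y.1 := by
      rw [← b6, ← c6, hxy]
    have h2 : x.2 = y.2 := by
      rw [h1] at hxy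
      omega
    exact Prod.ext h1 h2

open Classical in
private theorem ce_comp (X h s : ℕ) (hh : 1 ≤ h) (hs : s < h) (h2h : 2 * h ≤ X) (Bad : Finset ℤ) :
    (((Ioc X (2 * X)).image (idx h s)) \ Bad).card ≤ (Gs X h s \ Bad).card + 2 := by
  have hsub : ((Ioc X (2 * X)).image (idx h s)) \ Bad ⊆ (Gs X h s \ Bad) ∪ {idx h s (X + 1), idx h s (2 * X)} := by
    intro i hi
    rw [mem_sdiff, mem_image] at hi
    obtain ⟨⟨n, hn, hni⟩, hB⟩ := hi
    rw [mem_Ioc] at hn
    obtain ⟨h1, h2, h3⟩ := idx_spec h s n hh (by omega)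
    rw [hni] at h1 h2 h3
    have e1 : (i.toNat + 1) * h = i.toNat * h + h := by ring
    rw [mem_union, mem_sdiff, mem_insert, mem_singleton]
    by_cases c1 : X ≤ s + i.toNat * h
    · by_cases c2 : s + (i.toNat + 1) * h ≤ 2 * X
      · left
        refine ⟨?_, hB⟩
        unfold Gs
        rw [mem_filter, mem_Ico]
        refine ⟨⟨h1, ?_⟩, c1, c2⟩
        have h4 : i.toNat * 1 ≤ i.toNat * h := Nat.mul_le_mul_left _ hh
        omega
      · right; right
        have := idx_block h s (2 * X) i.toNat hh (by omega) (by omega)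
        rw [this, Int.toNat_of_nonneg h1]
    · right; left
      have := idx_block h s (X + 1) i.toNat hh (by omega) (by omega)
      rw [this, Int.toNat_of_nonneg h1]
  refine (card_le_card hsub).trans ((card_union_le _ _).trans ?_)
  exact Nat.add_le_add_left card_le_two _

open Classical in
theorem cntS (S : ℕ → Prop) [DecidablePred S] (C : ℝ) (hC : 0 < C) (X h s : ℕ) (hE : Eng C S X) (hX : 2 ≤ X)
    (hl : Real.log X ≤ h) (h2h : 2 * h ≤ X) (hs : s < h) (Bad : Finset ℤ) (ρ β : ℝ) (hβ : β ≤ ρ)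
    (h1 : ∑ i ∈ Bad, fs S X h s i ≤ β * ((X : ℝ) / h)) (h2 : ρ * (X / Real.log X) ≤ (pcs S X X : ℝ)) :
    (ρ - β) ^ 2 / (4 * C) * X - 2 * h ≤ (((Ioc X (2 * X)).filter (fun n => idx h s n ∉ Bad)).card : ℝ) := by
  have hXR : (2 : ℝ) ≤ X := by exact_mod_cast hX
  have hX0 : (0 : ℝ) < X := by linarith
  have hlog : 0 < Real.log X := Real.log_pos (by linarith)
  have hh : 1 ≤ h := by omega
  have hhR : (0 : ℝ) < h := by exact_mod_cast hh
  obtain ⟨Comp, hComp⟩ : ∃ Comp : Finset ℤ, Comp = ((Ioc X (2 * X)).image (idx h s)) \ Bad := ⟨_, rfl⟩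
  have hsplit : (Ioc X (X + X)).filter S ⊆ ((Ioc X (2 * X)).filter (fun p => S p ∧ idx h s p ∈ Bad)) ∪
      ((Ioc X (2 * X)).filter (fun p => S p ∧ idx h s p ∈ Comp)) := by
    intro p hp
    rw [mem_filter] at hp
    have e2 : X + X = 2 * X := by ring
    rw [e2] at hp
    rw [mem_union, mem_filter, mem_filter]
    by_cases hb : idx h s p ∈ Bad
    · exact Or.inl ⟨hp.1, hp.2, hb⟩
    · right
      refine ⟨hp.1, hp.2, ?_⟩
      rw [hComp, mem_sdiff]
      exact ⟨mem_image_of_mem _ hp.1, hb⟩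
  have h3 : (pcs S X X : ℝ) ≤ (((Ioc X (2 * X)).filter (fun p => S p ∧ idx h s p ∈ Bad)).card : ℝ) +
      (((Ioc X (2 * X)).filter (fun p => S p ∧ idx h s p ∈ Comp)).card : ℝ) := by
    unfold pcs
    exact_mod_cast (card_le_card hsplit).trans (card_union_le _ _)
  have h4 := prs_bad S X h s hX hh hs h2h Bad
  have h5 := prs_bad S X h s hX hh hs h2h Comp
  obtain ⟨Q, hQ⟩ : ∃ Q : ℝ, Q = ∑ i ∈ Comp, fs S X h s i := ⟨_, rfl⟩
  have h6 : (∑ i ∈ Comp, fs S X h s i) ^ 2 ≤ (Comp.card : ℝ) * (4 * C * ((X : ℝ) / h)) := by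
    refine (sq_sum_le_card_mul_sum_sq).trans ?_
    exact mul_le_mul_of_nonneg_left (fs_energy S C hC X h s hE hX hl (by omega) hs Comp) (Nat.cast_nonneg _)
  rw [← hQ] at h5 h6
  have h7 : (ρ - β) * ((X : ℝ) / h) ≤ Q := by
    have h8 : ρ * (X / Real.log X) ≤ h / Real.log X * (β * ((X : ℝ) / h)) + h / Real.log X * Q := by
      have := mul_le_mul_of_nonneg_left h1 (by positivity : 0 ≤ (h : ℝ) / Real.log X)
      linarith
    have h9 : (h : ℝ) / Real.log X * (ρ * ((X : ℝ) / h)) ≤ h / Real.log X * (β * ((X : ℝ) / h) + Q) := by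
      calc (h : ℝ) / Real.log X * (ρ * ((X : ℝ) / h)) = ρ * (X / Real.log X) := by field_simp
        _ ≤ _ := h8
        _ = _ := by ring
    have h10 := le_of_mul_le_mul_left h9 (by positivity)
    linarith
  have h11 : ((ρ - β) * ((X : ℝ) / h)) ^ 2 ≤ (Comp.card : ℝ) * (4 * C * ((X : ℝ) / h)) :=
    (pow_le_pow_left₀ (mul_nonneg (by linarith) (by positivity)) h7 2).trans h6
  have h12 : (ρ - β) ^ 2 / (4 * C) * X ≤ (Comp.card : ℝ) * h := by
    rw [div_mul_eq_mul_div, div_le_iff₀ (by positivity)]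
    have h13 : ((ρ - β) ^ 2 * X) * (X / (h : ℝ) ^ 2) ≤ ((Comp.card : ℝ) * h * (4 * C)) * (X / (h : ℝ) ^ 2) := by
      calc ((ρ - β) ^ 2 * X) * (X / (h : ℝ) ^ 2) = ((ρ - β) * ((X : ℝ) / h)) ^ 2 := by
            field_simp
        _ ≤ _ := h11
        _ = _ := by field_simp
    exact le_of_mul_le_mul_right h13 (by positivity)
  have h14 : (Comp.card : ℝ) ≤ ((Gs X h s \ Bad).card : ℝ) + 2 := by
    rw [hComp]
    exact_mod_cast ce_comp X h s hh hs h2h Bad
  have h15 : ((Gs X h s \ Bad).card : ℝ) * h ≤ (((Ioc X (2 * X)).filter (fun n => idx h s n ∉ Bad)).card : ℝ) := by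
    exact_mod_cast ce_card X h s hh Bad
  nlinarith

end Pool.Agent.H67.RW
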