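import Pool.Agent.H67.RW.Blk
import Pool.Agent.H67.RW.Idx

/-!
# Module Conv (window form): a real interval near `n` between two intervals of blocks; copy of H67/RG/Conv
-/

set_option autoImplicit false

namespace Pool.Agent.H67.RW

open Finset Pool.Agent.H67.RG

variable (S : ℕ → Prop) [DecidablePred S]

private theorem conv_k (t : ℝ) (ht : 4 ≤ t) : ∃ k : ℕ, 1 ≤ k ∧ (2 : ℝ) ^ (k + 1) ≤ t ∧ t < 2 ^ (k + 2) := by
  have h0 : 4 ≤ ⌊t⌋₊ := Nat.le_floor (by exact_mod_cast ht)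
  have h1 : 2 ≤ Nat.log 2 ⌊t⌋₊ := by
    apply Nat.le_log_of_pow_le (by norm_num)
    simpa using h0
  obtain ⟨p, hp⟩ := Nat.exists_eq_add_of_le h1
  have h2 := Nat.pow_log_le_self 2 (x := ⌊t⌋₊) (by omega)
  have h3 := Nat.lt_pow_succ_log_self (b := 2) (by norm_num) ⌊t⌋₊
  rw [hp] at h2 h3
  refine ⟨p + 1, by omega, ?_, ?_⟩
  · have h4 : ((2 ^ (2 + p) : ℕ) : ℝ) ≤ (⌊t⌋₊ : ℝ) := by exact_mod_cast h2
    have h5 := Nat.floor_le (show (0 : ℝ) ≤ t by linarith)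
    push_cast at h4
    rw [show p + 1 + 1 = 2 + p by ring]
    linarith
  · have h4 : (⌊t⌋₊ : ℝ) + 1 ≤ ((2 ^ (2 + p).succ : ℕ) : ℝ) := by exact_mod_cast h3
    have h5 := Nat.lt_floor_add_one t
    push_cast at h4
    rw [show p + 1 + 2 = (2 + p).succ by omega]
    linarith

private theorem conv_sum (X h s : ℕ) (u w : ℕ) (hh : 1 ≤ h) (hu : 1 ≤ u) (huw : u ≤ w) (hw : s + w * h ≤ 3 * X) :
    ∑ y ∈ Ico (u : ℤ) (w : ℤ), fs S X h s y =
      Real.log X / h * ((((Ioc (s + u * h) (s + w * h)).filter S).card : ℕ) : ℝ) := by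
  rw [fs_sum S X h s u w hh hu huw hw]
  unfold pcs
  have h5 : s + u * h + (w - u) * h = s + w * h := by
    rw [add_assoc, ← add_mul, show u + (w - u) = w by omega]
  rw [h5]

theorem convS (M : ℝ) (hM : 1 ≤ M) (D : ℕ) (hD : 4 * M + 7 ≤ D) (X h s n m : ℕ) (a b : ℝ) (hh : 1 ≤ h)
    (hs : s < h) (hX : X < n) (hX2 : n ≤ 2 * X) (h1 : 4 * (h : ℝ) ≤ b - a) (h2 : (2 * M + 4) * (b - a) ≤ X)
    (h3 : |a - n| ≤ M * (b - a)) (hm : 3 * X ≤ 2 ^ m * h) :
    ∃ (k : ℕ) (u w u' w' : ℤ), k ≤ m ∧ 2 ^ (k + 1) * (h : ℝ) ≤ b - a ∧ b - a < 2 ^ (k + 2) * (h : ℝ) ∧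
      Nr D k (idx h s n) u w ∧ Nr D k (idx h s n) u' w' ∧
      ∑ y ∈ Ico u w, fs S X h s y ≤ Real.log X / h * prs S a b ∧
      Real.log X / h * prs S a b ≤ ∑ y ∈ Ico u' w', fs S X h s y ∧
      (b - a) / h - 2 ≤ (w : ℝ) - u ∧ (w' : ℝ) - u' ≤ (b - a) / h + 2 := by
  have hhR : (0 : ℝ) < h := by exact_mod_cast hh
  have hsR : (s : ℝ) + 1 ≤ h := by exact_mod_cast hs
  have hs0 : (0 : ℝ) ≤ s := Nat.cast_nonneg _
  have hXn : (X : ℝ) ≤ n := by exact_mod_cast hX.le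
  have hnX : (n : ℝ) ≤ 2 * X := by exact_mod_cast hX2
  obtain ⟨l, hl⟩ : ∃ l : ℝ, l = b - a := ⟨_, rfl⟩
  rw [← hl] at h1 h2 h3
  have hl0 : 0 < l := by linarith
  have hMl : l ≤ M * l := le_mul_of_one_le_left hl0.le hM
  have hMX : 2 * (M * l) + 4 * l ≤ X := by
    have h4 : (2 * M + 4) * l = 2 * (M * l) + 4 * l := by ring
    linarith
  have hX6 : 6 * l ≤ X := by linarith
  have h3a := abs_le.1 h3
  obtain ⟨k, hk1, hk2, hk3⟩ := conv_k (l / h) (by rw [le_div_iff₀ hhR]; exact h1)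
  obtain ⟨al, hal⟩ : ∃ al : ℝ, al = (a - s) / h := ⟨_, rfl⟩
  obtain ⟨be, hbe⟩ : ∃ be : ℝ, be = (b - s) / h := ⟨_, rfl⟩
  have halh : al * h = a - s := by rw [hal]; field_simp
  have hbeh : be * h = b - s := by rw [hbe]; field_simp
  have hba : be - al = l / h := by
    rw [hal, hbe, hl]
    field_simp
    ring
  have hlh : l / h * h = l := by field_simp
  have hu1 := Int.le_ceil al
  have hu2 := Int.ceil_lt_add_one al
  have hw1 := Int.floor_le be
  have hw2 := Int.lt_floor_add_one be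
  have hu1' := Int.floor_le al
  have hu2' := Int.lt_floor_add_one al
  have hw1' := Int.le_ceil be
  have hw2' := Int.ceil_lt_add_one be
  have hs_n : s < n := by
    have h4 : (s : ℝ) < n := by linarith
    exact_mod_cast h4
  obtain ⟨hi0, hi1, hi2⟩ := idx_spec h s n hh hs_n
  obtain ⟨i, hi⟩ : ∃ i : ℕ, idx h s n = i := Int.eq_ofNat_of_zero_le hi0
  rw [hi, Int.toNat_natCast] at hi1 hi2
  have hi1R : (s : ℝ) + i * h < n := by exact_mod_cast hi1
  have hi2R : (n : ℝ) ≤ s + (i + 1) * h := by exact_mod_cast hi2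
  have hpk : (2 : ℝ) ≤ 2 ^ k := by
    have h4 : (2 : ℝ) ^ 1 ≤ 2 ^ k := pow_le_pow_right₀ (by norm_num) hk1
    rwa [pow_one] at h4
  have hpk1 : (2 : ℝ) ^ (k + 1) = 2 * 2 ^ k := by ring
  have hpk2 : (2 : ℝ) ^ (k + 2) = 4 * 2 ^ k := by ring
  have hn1 : ((n : ℝ) - s) / h ≤ i + 1 := by
    rw [div_le_iff₀ hhR]
    linarith
  have hn2 : (i : ℝ) ≤ ((n : ℝ) - s) / h := by
    rw [le_div_iff₀ hhR]
    linarith
  have hMt : M * (l / h) ≤ 4 * M * 2 ^ k := by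
    rw [hpk2] at hk3
    have h6 := mul_le_mul_of_nonneg_left hk3.le (show (0 : ℝ) ≤ M by linarith)
    linarith
  have ha1 : |al - ((n : ℝ) - s) / h| ≤ M * (l / h) := by
    have h4 : al - ((n : ℝ) - s) / h = (a - n) / h := by
      rw [hal]
      ring
    rw [h4, abs_div, abs_of_pos hhR, mul_div_assoc']
    exact div_le_div_of_nonneg_right h3 hhR.le
  have ha2 := abs_le.1 ha1
  have hb1 : |be - ((n : ℝ) - s) / h| ≤ M * (l / h) + l / h := by
    have h4 : be - ((n : ℝ) - s) / h = (al - ((n : ℝ) - s) / h) + l / h := by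
      linarith
    rw [h4]
    refine (abs_add_le _ _).trans ?_
    rw [abs_of_pos (show 0 < l / h by positivity)]
    linarith
  have hb2 := abs_le.1 hb1
  have hlk : l / h ≤ 4 * 2 ^ k := by linarith
  have hD2 : (4 * M + 7) * 2 ^ k ≤ (D : ℝ) * 2 ^ k := mul_le_mul_of_nonneg_right hD (by positivity)
  have hnear : ∀ x : ℤ, (-(M * (l / h) + l / h + 2) ≤ (x : ℝ) - i ∧ (x : ℝ) - i ≤ M * (l / h) + l / h + 2) →
      |x - (i : ℤ)| ≤ D * 2 ^ k := by
    intro x hx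
    have h4 : |((x : ℝ) - i)| ≤ (D : ℝ) * 2 ^ k := by
      rw [abs_le]
      have h5 : (4 * M + 7) * 2 ^ k = 4 * M * 2 ^ k + 4 * 2 ^ k + 3 * (2 : ℝ) ^ k := by ring
      rw [h5] at hD2
      constructor
      · linarith [hx.1]
      · linarith [hx.2]
    exact_mod_cast h4
  have hdiv0 : 0 < l / h := by positivity
  have hMdiv0 : 0 ≤ M * (l / h) := by positivity
  have hwu : (2 : ℝ) ^ k ≤ (⌊be⌋ : ℝ) - ⌈al⌉ := by linarith
  have hwu' : (2 : ℝ) ^ k ≤ (⌈be⌉ : ℝ) - ⌊al⌋ := by linarith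
  -- size of the numbers
  have halb : (X : ℝ) / 2 ≤ a := by linarith
  have hbub : b ≤ 5 / 2 * X := by linarith
  have hX24 : 24 * (h : ℝ) ≤ X := by linarith
  have hal2 : 2 ≤ al := by
    rw [hal, le_div_iff₀ hhR]
    linarith
  have hu'1 : (1 : ℤ) ≤ ⌊al⌋ := by
    rw [Int.le_floor]
    push_cast
    linarith
  have hu'u : ⌊al⌋ ≤ ⌈al⌉ := Int.floor_le_ceil al
  have hww' : ⌊be⌋ ≤ ⌈be⌉ := Int.floor_le_ceil be
  have huw : ⌈al⌉ ≤ ⌊be⌋ := by
    have h4 : (⌈al⌉ : ℝ) ≤ ⌊be⌋ := by linarith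
    exact_mod_cast h4
  obtain ⟨U, hU⟩ : ∃ U : ℕ, ⌈al⌉ = U := Int.eq_ofNat_of_zero_le (by omega)
  obtain ⟨W, hW⟩ : ∃ W : ℕ, ⌊be⌋ = W := Int.eq_ofNat_of_zero_le (by omega)
  obtain ⟨U', hU'⟩ : ∃ U' : ℕ, ⌊al⌋ = U' := Int.eq_ofNat_of_zero_le (by omega)
  obtain ⟨W', hW'⟩ : ∃ W' : ℕ, ⌈be⌉ = W' := Int.eq_ofNat_of_zero_le (by omega)
  have cU : (⌈al⌉ : ℝ) = U := by rw [hU]; exact Int.cast_natCast _
  have cW : (⌊be⌋ : ℝ) = W := by rw [hW]; exact Int.cast_natCast _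
  have cU' : (⌊al⌋ : ℝ) = U' := by rw [hU']; exact Int.cast_natCast _
  have cW' : (⌈be⌉ : ℝ) = W' := by rw [hW']; exact Int.cast_natCast _
  have hW3 : s + W' * h ≤ 3 * X := by
    have h4 : (s : ℝ) + W' * h ≤ 3 * X := by
      rw [← cW']
      have h6 := mul_le_mul_of_nonneg_right hw2'.le hhR.le
      rw [add_mul, one_mul] at h6
      linarith
    exact_mod_cast h4
  have hW3b : s + W * h ≤ 3 * X := by
    have h4 : W ≤ W' := by omega
    have h5 := Nat.mul_le_mul_right h h4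
    omega
  have hlog : 0 ≤ Real.log X / h := by
    have := Real.log_natCast_nonneg X
    positivity
  refine ⟨k, ⌈al⌉, ⌊be⌋, ⌊al⌋, ⌈be⌉, ?_, ?_, ?_, ⟨?_, ?_, ?_⟩, ⟨?_, ?_, ?_⟩, ?_, ?_, ?_, ?_⟩
  · have h4 : (3 : ℝ) * X ≤ 2 ^ m * h := by exact_mod_cast hm
    have h5 : (2 : ℝ) ^ (k + 1) * h ≤ 2 ^ m * h := by
      have h6 : (2 : ℝ) ^ (k + 1) * h ≤ l / h * h := mul_le_mul_of_nonneg_right hk2 hhR.le
      rw [hlh] at h6
      linarith
    have h6 : (2 : ℝ) ^ (k + 1) ≤ 2 ^ m := le_of_mul_le_mul_right h5 hhR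
    have h7 : k + 1 ≤ m := (pow_le_pow_iff_right₀ (by norm_num : (1 : ℝ) < 2)).1 h6
    omega
  · rw [← hl]
    have h6 : (2 : ℝ) ^ (k + 1) * h ≤ l / h * h := mul_le_mul_of_nonneg_right hk2 hhR.le
    rwa [hlh] at h6
  · rw [← hl]
    have h6 : l / h * h < (2 : ℝ) ^ (k + 2) * h := mul_lt_mul_of_pos_right hk3 hhR
    rwa [hlh] at h6
  · exact_mod_cast hwu
  · rw [hi]
    exact hnear _ ⟨by linarith [ha2.1], by linarith [ha2.2]⟩
  · rw [hi]
    exact hnear _ ⟨by linarith [hb2.1], by linarith [hb2.2]⟩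
  · exact_mod_cast hwu'
  · rw [hi]
    exact hnear _ ⟨by linarith [ha2.1], by linarith [ha2.2]⟩
  · rw [hi]
    exact hnear _ ⟨by linarith [hb2.1], by linarith [hb2.2]⟩
  · rw [hU, hW, conv_sum S X h s U W hh (by omega) (by omega) hW3b]
    refine mul_le_mul_of_nonneg_left ?_ hlog
    unfold prs
    have h4 : ((Ioc (s + U * h) (s + W * h)).filter S).card ≤
        ((Ioc ⌊a⌋₊ ⌊b⌋₊).filter S).card := by
      apply card_le_card
      apply filter_subset_filter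
      apply Ioc_subset_Ioc
      · apply Nat.floor_le_of_le
        push_cast
        rw [← cU]
        have h6 := mul_le_mul_of_nonneg_right hu1 hhR.le
        linarith
      · apply Nat.le_floor
        push_cast
        rw [← cW]
        have h6 := mul_le_mul_of_nonneg_right hw1 hhR.le
        linarith
    exact_mod_cast h4
  · rw [hU', hW', conv_sum S X h s U' W' hh (by omega) (by omega) hW3]
    refine mul_le_mul_of_nonneg_left ?_ hlog
    unfold prs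
    have h4 : ((Ioc ⌊a⌋₊ ⌊b⌋₊).filter S).card ≤
        ((Ioc (s + U' * h) (s + W' * h)).filter S).card := by
      apply card_le_card
      apply filter_subset_filter
      apply Ioc_subset_Ioc
      · apply Nat.le_floor
        push_cast
        rw [← cU']
        have h6 := mul_le_mul_of_nonneg_right hu1' hhR.le
        linarith
      · apply Nat.floor_le_of_le
        push_cast
        rw [← cW']
        have h6 := mul_le_mul_of_nonneg_right hw1' hhR.le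
        linarith
    exact_mod_cast h4
  · rw [← hl]
    linarith
  · rw [← hl]
    linarith

end Pool.Agent.H67.RW
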