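import Pool.Agent.H24.AB.Loc
import Pool.Agent.H67.RW.Def

/-!
# Module UpW: the upper bound with `4 + δ` in near intervals, in every window

PROOF. As `H67/RG/UpN`, with `loc_bt` (windows `(B, B + X]`, `(B + X, B + 2X]`, `(B + 2X, B + 3X]`, `W = (log X)^22`) in the place of `ub_card`.
-/

set_option autoImplicit false

namespace Pool.Agent.H67.RW

open Finset Pool.Agent.H67.RG Pool.Agent.H24.AB

/-- the upper bound in the intervals with left end `x` of lengths between `W` and `X` -/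
def UBX (S : ℕ → Prop) [DecidablePred S] (δ W : ℝ) (X x : ℕ) : Prop :=
  ∀ H : ℝ, W ≤ H → H ≤ X → prs S x (x + H) ≤ (4 + δ) * (H / Real.log (X * H))

/-- double counting -/
private theorem dc (Ex S : Finset ℕ) (r : ℕ) (hr : 1 ≤ r) (ρ : ℝ) (hρ : 0 < ρ) :
    ((S.filter (fun n => ρ * r ≤ ((Ex.filter (fun x => n ≤ x + r ∧ x ≤ n + r)).card : ℝ))).card : ℝ) ≤
      3 * Ex.card / ρ := by
  classical
  set B := S.filter (fun n => ρ * r ≤ ((Ex.filter (fun x => n ≤ x + r ∧ x ≤ n + r)).card : ℝ)) with hB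
  have hr0 : (0 : ℝ) < r := by exact_mod_cast hr
  have h1 : (B.card : ℝ) * (ρ * r) ≤ ∑ n ∈ B, ((Ex.filter (fun x => n ≤ x + r ∧ x ≤ n + r)).card : ℝ) := by
    rw [← nsmul_eq_mul, ← sum_const]
    refine sum_le_sum fun n hn => ?_
    rw [hB, mem_filter] at hn
    exact hn.2
  have h2 : ∑ n ∈ B, (Ex.filter (fun x => n ≤ x + r ∧ x ≤ n + r)).card =
      ∑ x ∈ Ex, (B.filter (fun n => n ≤ x + r ∧ x ≤ n + r)).card := by
    simp_rw [card_filter]
    rw [sum_comm]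
  have h3 : ∀ x ∈ Ex, (B.filter (fun n => n ≤ x + r ∧ x ≤ n + r)).card ≤ 2 * r + 1 := by
    intro x _
    have : B.filter (fun n => n ≤ x + r ∧ x ≤ n + r) ⊆ Icc (x - r) (x + r) := by
      intro n hn
      rw [mem_filter] at hn
      rw [mem_Icc]
      omega
    refine (card_le_card this).trans ?_
    rw [Nat.card_Icc]
    omega
  have h4 : (∑ n ∈ B, (Ex.filter (fun x => n ≤ x + r ∧ x ≤ n + r)).card : ℕ) ≤ Ex.card * (2 * r + 1) := by
    rw [h2]
    refine (sum_le_sum h3).trans ?_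
    rw [sum_const, smul_eq_mul]
  have h5 : ∑ n ∈ B, ((Ex.filter (fun x => n ≤ x + r ∧ x ≤ n + r)).card : ℝ) ≤ Ex.card * (2 * r + 1) := by
    exact_mod_cast h4
  have hr1 : (1 : ℝ) ≤ r := by exact_mod_cast hr
  rw [le_div_iff₀ hρ]
  have h6 : (B.card : ℝ) * ρ * r ≤ 3 * Ex.card * r := by
    have h7 : (Ex.card : ℝ) * (2 * r + 1) ≤ Ex.card * (3 * r) :=
      mul_le_mul_of_nonneg_left (by linarith) (Nat.cast_nonneg _)
    nlinarith
  exact le_of_mul_le_mul_right h6 hr0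

/-- one violating interval produces many exceptional points -/
private theorem core (S : ℕ → Prop) [DecidablePred S] (M δ τ A K : ℝ) (hM : 1 ≤ M) (hδ : 0 < δ) (hδ1 : δ ≤ 1)
    (hτ : τ = δ / 40) (hA : 0 < A)
    (hKA : A ≤ K) (hKM : 8 * M + 16 ≤ K) (X n : ℕ) (hXn : X < n) (hnX : n ≤ 2 * X) (hX4 : 4 ≤ X)
    (hL2 : 2 ≤ Real.log X)
    (a b : ℝ) (hnear : NearX M K X n a b) (hb : (Real.log X) ^ K ≤ b - a)
    (hpr : (4 + δ) * ((b - a) / Real.log (X * (b - a))) < prs S a b) (x : ℕ) (hx1 : a - τ * (b - a) ≤ x)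
    (hx2 : (x : ℝ) ≤ a) : 0 < x ∧ x ≤ 3 * X ∧ ¬ UBX S (δ / 4) ((Real.log X) ^ A) X x := by
  obtain ⟨ℓ, hℓ⟩ : ∃ ℓ : ℝ, ℓ = b - a := ⟨_, rfl⟩
  obtain ⟨hn1, hn2, hn3⟩ := hnear
  rw [← hℓ] at hn1 hn2 hn3 hb hpr hx1
  have hXR : (4 : ℝ) ≤ X := by exact_mod_cast hX4
  have hX0 : (0 : ℝ) < X := by linarith
  have hXnR : (X : ℝ) < n := by exact_mod_cast hXn
  have hnXR : (n : ℝ) ≤ 2 * X := by exact_mod_cast hnX
  have hn0 : (0 : ℝ) < n := by linarith
  have hK0 : 0 < K := by linarith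
  have hτ0 : 0 < τ := by rw [hτ]; positivity
  have hτ1 : τ ≤ 1 / 40 := by rw [hτ]; linarith
  have hℓ1 : 1 ≤ ℓ := by
    refine le_trans ?_ hb
    exact Real.one_le_rpow (by linarith) hK0.le
  have hℓ0 : 0 < ℓ := by linarith
  have hℓK : ℓ * (8 * M + 16) ≤ X := by
    rw [le_div_iff₀ hK0] at hn2
    exact (mul_le_mul_of_nonneg_left hKM hℓ0.le).trans hn2
  have hMℓ : ℓ ≤ M * ℓ := by nlinarith
  have hab := abs_le.1 hn3
  have hτℓ : τ * ℓ ≤ ℓ := by nlinarith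
  have hx0 : (4 / 5 : ℝ) * X ≤ x := by nlinarith
  have hxu : (x : ℝ) ≤ 3 * X := by nlinarith
  have hxpos : (0 : ℝ) < x := by linarith
  refine ⟨?_, ?_, ?_⟩
  · exact_mod_cast hxpos
  · exact_mod_cast hxu
  · intro hUB
    obtain ⟨H, hH⟩ : ∃ H : ℝ, H = b - x := ⟨_, rfl⟩
    have hHl : ℓ ≤ H := by rw [hH, hℓ]; linarith
    have hHu : H ≤ (1 + τ) * ℓ := by
      rw [hH]
      have : b = a + ℓ := by rw [hℓ]; ring
      rw [this]
      linarith
    have hH1 : (Real.log X) ^ A ≤ H :=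
      (Real.rpow_le_rpow_of_exponent_le (by linarith) hKA).trans (hb.trans hHl)
    have hH2 : H ≤ X := by
      have : (1 + τ) * ℓ ≤ 2 * ℓ := mul_le_mul_of_nonneg_right (by linarith) hℓ0.le
      nlinarith
    have h3 := hUB H hH1 hH2
    have h4 : prs S a b ≤ prs S x (x + H) := by
      unfold prs
      have e5 : (x : ℝ) + H = b := by rw [hH]; ring
      rw [e5, Nat.floor_natCast]
      have e6 : x ≤ ⌊a⌋₊ := Nat.le_floor hx2
      exact_mod_cast card_le_card (filter_subset_filter _ (Ioc_subset_Ioc_left e6))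
    have hlogl : Real.log (X * ℓ) ≤ Real.log (X * H) :=
      Real.log_le_log (by positivity) (mul_le_mul_of_nonneg_left hHl hX0.le)
    have hlog0 : 0 < Real.log (X * ℓ) := by
      apply Real.log_pos
      nlinarith
    have h5 : (4 + δ / 4) * (H / Real.log (X * H)) ≤ (4 + δ) * (ℓ / Real.log (X * ℓ)) := by
      calc (4 + δ / 4) * (H / Real.log (X * H)) ≤
            (4 + δ / 4) * (((1 + τ) * ℓ) / Real.log (X * ℓ)) := by
            apply mul_le_mul_of_nonneg_left _ (by linarith)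
            apply div_le_div₀ (by positivity) hHu hlog0 hlogl
        _ = ((4 + δ / 4) * (1 + τ)) * (ℓ / Real.log (X * ℓ)) := by
            ring
        _ ≤ (4 + δ) * (ℓ / Real.log (X * ℓ)) := by
            apply mul_le_mul_of_nonneg_right _ (by positivity)
            rw [hτ]
            nlinarith
    linarith

open Classical in
private theorem upW1 (M δ : ℝ) (hM : 1 ≤ M) (hδ : 0 < δ) (hδ1 : δ ≤ 1) : ∃ K : ℝ, 1 ≤ K ∧ ∃ X0 : ℕ, ∀ X : ℕ, X0 ≤ X →
    ∀ B : ℕ, (((Ioc X (2 * X)).filter (fun n => ¬ RegB (Sh B) M K δ X n)).card : ℝ) ≤ X / (Real.log X) ^ 2 := by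
  obtain ⟨κ, C, hκ, hC, hbt⟩ := loc_bt (δ / 4) (by positivity)
  obtain ⟨τ, hτ⟩ : ∃ τ : ℝ, τ = δ / 40 := ⟨_, rfl⟩
  have hτ0 : 0 < τ := by rw [hτ]; positivity
  obtain ⟨K, hK⟩ : ∃ K : ℝ, K = max 22 (8 * M + 16) := ⟨_, rfl⟩
  have hKA : 22 ≤ K := by rw [hK]; exact le_max_left _ _
  have hKM : 8 * M + 16 ≤ K := by rw [hK]; exact le_max_right _ _
  obtain ⟨ρ, hρ⟩ : ∃ ρ : ℝ, ρ = τ / (4 * (M + 1)) := ⟨_, rfl⟩
  have hρ0 : 0 < ρ := by rw [hρ]; positivity
  have hlogtend : Filter.Tendsto (fun n : ℕ => Real.log (n : ℝ)) Filter.atTop Filter.atTop :=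
    Real.tendsto_log_atTop.comp tendsto_natCast_atTop_atTop
  have hpow : ∀ᶠ X : ℕ in Filter.atTop, (Real.log (X : ℝ)) ^ (22 : ℝ) ≤ (X : ℝ) ^ κ := by
    have h := isLittleO_log_rpow_rpow_atTop (s := κ) 22 hκ
    have hb := h.bound (c := 1) (by norm_num)
    have hb2 := tendsto_natCast_atTop_atTop (R := ℝ) |>.eventually hb
    filter_upwards [hb2] with X hX
    rw [Real.norm_of_nonneg (Real.rpow_nonneg (Real.log_natCast_nonneg _) _),
      Real.norm_of_nonneg (Real.rpow_nonneg (Nat.cast_nonneg _) _), one_mul] at hX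
    exact hX
  obtain ⟨X1, hX1⟩ := Filter.eventually_atTop.mp hpow
  obtain ⟨X2, hX2⟩ := Filter.eventually_atTop.mp
    ((hlogtend.eventually_ge_atTop (2 / τ + 8)).and
      (hlogtend.eventually_ge_atTop (36 * C / ρ)))
  refine ⟨K, by linarith, max (max X1 X2) 16, ?_⟩
  intro X hX B
  have hXX1 : X1 ≤ X := le_trans (le_trans (le_max_left _ _) (le_max_left _ _)) hX
  have hXX2 : X2 ≤ X := le_trans (le_trans (le_max_right _ _) (le_max_left _ _)) hX
  have hX16 : 16 ≤ X := le_trans (le_max_right _ _) hX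
  obtain ⟨hL2, hL3⟩ := hX2 X hXX2
  have hXR : (16 : ℝ) ≤ X := by exact_mod_cast hX16
  have hX0 : (0 : ℝ) < X := by linarith
  have h2τ : 0 < 2 / τ := by positivity
  have hL8 : 8 ≤ Real.log X := by linarith
  have hL0 : 0 < Real.log X := by linarith
  have hLτ : 2 ≤ τ * Real.log X := by
    have : 2 / τ ≤ Real.log X := by linarith
    rw [div_le_iff₀ hτ0] at this
    linarith
  obtain ⟨W, hW⟩ : ∃ W : ℝ, W = (Real.log X) ^ (22 : ℝ) := ⟨_, rfl⟩
  have hW1 : 1 ≤ W := by rw [hW]; exact Real.one_le_rpow (by linarith) (by norm_num)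
  have hW2 : W = (Real.log X) ^ 22 := by
    rw [hW, show (22 : ℝ) = ((22 : ℕ) : ℝ) by norm_num, Real.rpow_natCast]
  have hWX : W ≤ (X : ℝ) ^ κ := by rw [hW]; exact hX1 X hXX1
  -- the exceptional set
  set Ex := (Ioc 0 (3 * X)).filter (fun x => ¬ UBX (Sh B) (δ / 4) W X x) with hEx
  have hcov : Ex ⊆ ((Ioc 0 X).filter (fun x => ¬ UBX (Sh B) (δ / 4) W X x) ∪
      (Ioc X (X + X)).filter (fun x => ¬ UBX (Sh B) (δ / 4) W X x)) ∪
      (Ioc (2 * X) (2 * X + X)).filter (fun x => ¬ UBX (Sh B) (δ / 4) W X x) := by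
    intro x hx
    rw [hEx, mem_filter, mem_Ioc] at hx
    simp only [mem_union, mem_filter, mem_Ioc]
    obtain ⟨⟨h1, h2⟩, h3⟩ := hx
    by_cases c1 : x ≤ X
    · exact Or.inl (Or.inl ⟨⟨h1, c1⟩, h3⟩)
    by_cases c2 : x ≤ 2 * X
    · exact Or.inl (Or.inr ⟨⟨by omega, by omega⟩, h3⟩)
    · exact Or.inr ⟨⟨by omega, by omega⟩, h3⟩
  have hpiece : ∀ Z : ℕ, (((Ioc Z (Z + X)).filter (fun x => ¬ UBX (Sh B) (δ / 4) W X x)).card : ℝ) ≤
      C * X * (Real.log X) ^ 18 / W := by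
    intro Z
    refine le_trans ?_ (hbt (B + Z) X (by omega) W hW1 hWX)
    have hfin : Set.Finite {n : ℕ | B + Z < n ∧ n ≤ B + Z + X ∧ ∃ H : ℝ, W ≤ H ∧ H ≤ X ∧
      (4 + δ / 4) * (H / Real.log (X * H)) <
        (((Ioc n ⌊(n : ℝ) + H⌋₊).filter Nat.Prime).card : ℝ)} :=
      (Set.finite_Iic (B + Z + X)).subset (fun n hn => hn.2.1)
    have h1 : ((Ioc Z (Z + X)).filter (fun x => ¬ UBX (Sh B) (δ / 4) W X x)).card ≤
        ({n : ℕ | B + Z < n ∧ n ≤ B + Z + X ∧ ∃ H : ℝ, W ≤ H ∧ H ≤ X ∧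
      (4 + δ / 4) * (H / Real.log (X * H)) <
        (((Ioc n ⌊(n : ℝ) + H⌋₊).filter Nat.Prime).card : ℝ)}.ncard) := by
      rw [← Set.ncard_coe_finset]
      refine Set.ncard_le_ncard_of_injOn (fun x => B + x) ?_ ?_ hfin
      · intro x hx
        rw [mem_coe, mem_filter, mem_Ioc] at hx
        obtain ⟨⟨q1, q2⟩, q3⟩ := hx
        unfold UBX at q3
        push Not at q3
        obtain ⟨H, r1, r2, r3⟩ := q3
        rw [Set.mem_setOf_eq]
        refine ⟨by omega, by omega, H, r1, r2, lt_of_lt_of_le r3 (le_of_eq ?_)⟩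
        unfold prs
        congr 1
        have hH0 : 0 ≤ H := by linarith
        have e1 : ⌊((B + x : ℕ) : ℝ) + H⌋₊ = B + ⌊(x : ℝ) + H⌋₊ := by
          push_cast
          rw [add_assoc, add_comm (B : ℝ), Nat.floor_add_natCast (by positivity), add_comm]
        rw [Nat.floor_natCast, e1]
        refine card_bij (fun k _ => B + k) ?_ ?_ ?_
        · intro k hk
          rw [mem_filter, mem_Ioc] at hk ⊢
          exact ⟨⟨by omega, by omega⟩, hk.2⟩
        · intro a _ b _ hab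
          exact Nat.add_left_cancel hab
        · intro k hk
          rw [mem_filter, mem_Ioc] at hk
          refine ⟨k - B, ?_, by omega⟩
          rw [mem_filter, mem_Ioc]
          refine ⟨⟨by omega, by omega⟩, ?_⟩
          unfold Sh
          rw [show B + (k - B) = k by omega]
          exact hk.2
      · intro a _ b _ hab
        exact Nat.add_left_cancel hab
    exact_mod_cast h1
  have hExc : (Ex.card : ℝ) ≤ 3 * C * X / (Real.log X) ^ 4 := by
    have h1 := (card_le_card hcov).trans ((card_union_le _ _).trans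
      (Nat.add_le_add_right (card_union_le _ _) _))
    have h2 : (Ex.card : ℝ) ≤ (((Ioc 0 X).filter (fun x => ¬ UBX (Sh B) (δ / 4) W X x)).card : ℝ) +
        (((Ioc X (X + X)).filter (fun x => ¬ UBX (Sh B) (δ / 4) W X x)).card : ℝ) +
        (((Ioc (2 * X) (2 * X + X)).filter (fun x => ¬ UBX (Sh B) (δ / 4) W X x)).card : ℝ) := by
      exact_mod_cast h1
    have p1 := hpiece 0
    rw [zero_add] at p1
    have p2 := hpiece X
    have p3 := hpiece (2 * X)
    have e : C * X * (Real.log X) ^ 18 / W = C * X / (Real.log X) ^ 4 := by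
      rw [hW2]
      field_simp
    rw [e] at p1 p2 p3
    calc (Ex.card : ℝ) ≤ 3 * (C * X / (Real.log X) ^ 4) := by linarith
      _ = 3 * C * X / (Real.log X) ^ 4 := by ring
  -- the scales
  obtain ⟨J, hJ⟩ : ∃ J : ℕ, J = ⌊2 * Real.log (8 * X)⌋₊ + 1 := ⟨_, rfl⟩
  have hsub : (Ioc X (2 * X)).filter (fun n => ¬ RegB (Sh B) M K δ X n) ⊆
      (range J).biUnion (fun j => (Ioc X (2 * X)).filter
        (fun n => ρ * ((2 ^ j : ℕ) : ℝ) ≤ ((Ex.filter (fun x => n ≤ x + 2 ^ j ∧ x ≤ n + 2 ^ j)).card : ℝ))) := by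
    intro n hn
    rw [mem_filter, mem_Ioc] at hn
    obtain ⟨⟨hXn, hnX⟩, hreg⟩ := hn
    unfold RegB at hreg
    push Not at hreg
    obtain ⟨a, b, hnear, hb, hpr⟩ := hreg
    have hcore := core (Sh B) M δ τ 22 K hM hδ hδ1 hτ (by norm_num) hKA hKM X n hXn hnX (by omega)
      (by linarith) a b hnear hb hpr
    rw [← hW] at hcore
    obtain ⟨ℓ, hℓ⟩ : ∃ ℓ : ℝ, ℓ = b - a := ⟨_, rfl⟩
    obtain ⟨hn1, hn2, hn3⟩ := hnear
    rw [← hℓ] at hn1 hn2 hn3 hb hpr hcore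
    have hXnR : (X : ℝ) < n := by exact_mod_cast hXn
    have hnXR : (n : ℝ) ≤ 2 * X := by exact_mod_cast hnX
    have hn0 : (0 : ℝ) < n := by linarith
    have hK0 : 0 < K := by linarith
    have hK1 : 1 ≤ K := by linarith
    have hℓlog : Real.log X ≤ ℓ := by
      refine le_trans ?_ hb
      calc Real.log X = (Real.log X) ^ (1 : ℝ) := (Real.rpow_one _).symm
        _ ≤ (Real.log X) ^ K := Real.rpow_le_rpow_of_exponent_le (by linarith) hK1
    have hℓ0 : 0 < ℓ := by linarith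
    have hℓK : ℓ * (8 * M + 16) ≤ X := by
      rw [le_div_iff₀ hK0] at hn2
      exact (mul_le_mul_of_nonneg_left hKM hℓ0.le).trans hn2
    have hab := abs_le.1 hn3
    have hMℓ : ℓ ≤ M * ℓ := by nlinarith
    have hτ1 : τ ≤ 1 / 40 := by rw [hτ]; linarith
    have hτℓ2 : 2 ≤ τ * ℓ := hLτ.trans (mul_le_mul_of_nonneg_left hℓlog hτ0.le)
    have hτℓ : τ * ℓ ≤ ℓ / 40 := by nlinarith
    have ha0 : 0 ≤ a - τ * ℓ := by nlinarith
    -- the scale of `(M+1) ℓ`
    obtain ⟨j, hj1, hj2⟩ : ∃ j : ℕ, (M + 1) * ℓ ≤ ((2 ^ j : ℕ) : ℝ) ∧ ((2 ^ j : ℕ) : ℝ) ≤ 2 * ((M + 1) * ℓ) := by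
      have hz : 1 ≤ (M + 1) * ℓ := by nlinarith
      obtain ⟨k, hk1, hk2⟩ := exists_nat_pow_near hz (one_lt_two)
      refine ⟨k + 1, ?_, ?_⟩
      · push_cast
        exact hk2.le
      · push_cast
        rw [pow_succ]
        linarith
    rw [mem_biUnion]
    refine ⟨j, ?_, ?_⟩
    · rw [mem_range, hJ, Nat.lt_succ_iff]
      apply Nat.le_floor
      have h1 : ((2 ^ j : ℕ) : ℝ) ≤ 8 * X := by nlinarith
      push_cast at h1
      have h2 := Real.log_le_log (by positivity) h1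
      rw [Real.log_pow] at h2
      have h3 := Real.log_two_gt_d9
      have h4 : (0 : ℝ) ≤ j := Nat.cast_nonneg _
      nlinarith
    · rw [mem_filter, mem_Ioc]
      refine ⟨⟨hXn, hnX⟩, ?_⟩
      have h1 : Icc ⌈a - τ * ℓ⌉₊ ⌊a⌋₊ ⊆ Ex.filter (fun x => n ≤ x + 2 ^ j ∧ x ≤ n + 2 ^ j) := by
        intro x hx
        rw [mem_Icc] at hx
        have hx1 : a - τ * ℓ ≤ x := (Nat.le_ceil _).trans (by exact_mod_cast hx.1)
        have hx2 : (x : ℝ) ≤ a := (by exact_mod_cast hx.2 : (x : ℝ) ≤ (⌊a⌋₊ : ℝ)).trans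
          (Nat.floor_le (by linarith))
        obtain ⟨q1, q2, q3⟩ := hcore x hx1 hx2
        rw [mem_filter, hEx, mem_filter, mem_Ioc]
        refine ⟨⟨⟨q1, q2⟩, q3⟩, ?_, ?_⟩
        · have : (n : ℝ) ≤ ((x + 2 ^ j : ℕ) : ℝ) := by
            push_cast
            push_cast at hj1
            nlinarith
          exact_mod_cast this
        · have : (x : ℝ) ≤ ((n + 2 ^ j : ℕ) : ℝ) := by
            push_cast
            push_cast at hj1
            nlinarith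
          exact_mod_cast this
      have h2 : τ * ℓ / 2 ≤ ((Icc ⌈a - τ * ℓ⌉₊ ⌊a⌋₊).card : ℝ) := by
        rw [Nat.card_Icc]
        have h3 : (⌈a - τ * ℓ⌉₊ : ℝ) < a - τ * ℓ + 1 := Nat.ceil_lt_add_one ha0
        have h4 : a < (⌊a⌋₊ : ℝ) + 1 := Nat.lt_floor_add_one a
        have h5 : ⌈a - τ * ℓ⌉₊ ≤ ⌊a⌋₊ + 1 := by
          have : (⌈a - τ * ℓ⌉₊ : ℝ) < ((⌊a⌋₊ + 1 : ℕ) : ℝ) := by
            push_cast
            linarith
          exact_mod_cast this.le
        rw [Nat.cast_sub h5]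
        push_cast
        linarith
      have h3 : ((Icc ⌈a - τ * ℓ⌉₊ ⌊a⌋₊).card : ℝ) ≤
          ((Ex.filter (fun x => n ≤ x + 2 ^ j ∧ x ≤ n + 2 ^ j)).card : ℝ) := by
        exact_mod_cast card_le_card h1
      have h4 : ρ * ((2 ^ j : ℕ) : ℝ) ≤ τ * ℓ / 2 := by
        calc ρ * ((2 ^ j : ℕ) : ℝ) ≤ ρ * (2 * ((M + 1) * ℓ)) := mul_le_mul_of_nonneg_left hj2 hρ0.le
          _ = τ * ℓ / 2 := by
              rw [hρ]
              have : M + 1 ≠ 0 := by linarith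
              field_simp
              ring
      linarith
  have hcard := (card_le_card hsub).trans card_biUnion_le
  have hcard' : (((Ioc X (2 * X)).filter (fun n => ¬ RegB (Sh B) M K δ X n)).card : ℝ) ≤
      ∑ j ∈ range J, (((Ioc X (2 * X)).filter
        (fun n => ρ * ((2 ^ j : ℕ) : ℝ) ≤ ((Ex.filter (fun x => n ≤ x + 2 ^ j ∧ x ≤ n + 2 ^ j)).card : ℝ))).card : ℝ) := by
    exact_mod_cast hcard
  refine hcard'.trans ?_
  have hterm : ∀ j ∈ range J, (((Ioc X (2 * X)).filter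
        (fun n => ρ * ((2 ^ j : ℕ) : ℝ) ≤ ((Ex.filter (fun x => n ≤ x + 2 ^ j ∧ x ≤ n + 2 ^ j)).card : ℝ))).card : ℝ) ≤
      3 * Ex.card / ρ := fun j _ => dc Ex (Ioc X (2 * X)) (2 ^ j) Nat.one_le_two_pow ρ hρ0
  refine (sum_le_sum hterm).trans ?_
  rw [sum_const, card_range, nsmul_eq_mul]
  have hJ1 : (J : ℝ) ≤ 4 * Real.log X := by
    rw [hJ]
    push_cast
    have h1 : (⌊2 * Real.log (8 * X)⌋₊ : ℝ) ≤ 2 * Real.log (8 * X) := by
      apply Nat.floor_le
      have : 0 ≤ Real.log (8 * X) := Real.log_nonneg (by linarith)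
      linarith
    have h9 : Real.log (8 * (X : ℝ)) = Real.log 8 + Real.log X := Real.log_mul (by norm_num) hX0.ne'
    have h8 : Real.log 8 ≤ 3 := by
      rw [show (8 : ℝ) = 2 ^ 3 by norm_num, Real.log_pow]
      have := Real.log_two_lt_d9
      push_cast
      linarith
    linarith
  calc (J : ℝ) * (3 * Ex.card / ρ) ≤ (4 * Real.log X) * (3 * (3 * C * X / (Real.log X) ^ 4) / ρ) := by
        gcongr
    _ = (36 * C / ρ) * (X / (Real.log X) ^ 3) := by
        field_simp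
        ring
    _ ≤ Real.log X * (X / (Real.log X) ^ 3) := mul_le_mul_of_nonneg_right hL3 (by positivity)
    _ = X / (Real.log X) ^ 2 := by
        field_simp

open Classical in
theorem upW (M δ : ℝ) (hM : 1 ≤ M) (hδ : 0 < δ) : ∃ K : ℝ, 0 < K ∧ ∃ X0 : ℕ, ∀ X : ℕ, X0 ≤ X →
    ∀ B : ℕ, (((Ioc X (2 * X)).filter (fun n => ¬ RegB (Sh B) M K δ X n)).card : ℝ) ≤ X / (Real.log X) ^ 2 := by
  obtain ⟨K, hK, X0, hX0⟩ := upW1 M (min δ 1) hM (lt_min hδ one_pos) (min_le_right _ _)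
  refine ⟨K, by linarith, max X0 3, ?_⟩
  intro X hX B
  refine le_trans ?_ (hX0 X ((le_max_left _ _).trans hX) B)
  have hX3 : 3 ≤ X := (le_max_right _ _).trans hX
  have : (Ioc X (2 * X)).filter (fun n => ¬ RegB (Sh B) M K δ X n) ⊆
      (Ioc X (2 * X)).filter (fun n => ¬ RegB (Sh B) M K (min δ 1) X n) := by
    intro n hn
    rw [mem_filter, mem_Ioc] at hn ⊢
    refine ⟨hn.1, fun h => hn.2 ?_⟩
    intro a b hnear hb
    refine (h a b hnear hb).trans ?_
    have hn3 : (3 : ℝ) ≤ X := by exact_mod_cast hX3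
    have hlog1 : 1 ≤ Real.log X := by
      rw [Real.le_log_iff_exp_le (by linarith)]
      have := Real.exp_one_lt_d9
      linarith
    have hℓ1 : 1 ≤ b - a := (Real.one_le_rpow hlog1 (by linarith)).trans hb
    apply mul_le_mul_of_nonneg_right
    · have := min_le_left δ 1
      linarith
    · apply div_nonneg (by linarith)
      apply Real.log_nonneg
      nlinarith
  exact_mod_cast card_le_card this

end Pool.Agent.H67.RW
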