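import Pool.Agent.H67.RG.Fin
import Pool.Agent.H67.RW.RegN
import Pool.Agent.H67.RW.LowB
import Pool.Agent.H67.RW.Cnt
import Pool.Agent.H67.RW.EngW
import Pool.Agent.H67.RW.UpW
import Pool.Agent.H67.RW.Mono

/-!
# Module Fin (window form): assembly
-/

set_option autoImplicit false

namespace Pool.Agent.H67.RW

open Finset Pool.Agent.H67.RG

open Classical in
theorem finS (M c c' η θ C KB : ℝ) (hM : 1 ≤ M) (hc : 0 ≤ c) (hc' : 0 ≤ c')
    (hη : 0 < η) (hθ : 0 < θ) (hC : 0 < C) (hKB : 0 < KB) : ∃ K : ℝ, 0 < K ∧ ∃ X0 : ℕ,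
    ∀ (S : ℕ → Prop) [DecidablePred S], ∀ X : ℕ, X0 ≤ X → Eng C S X →
    ((((Ioc X (2 * X)).filter (fun n => ¬ RegB S M KB η X n)).card : ℝ) ≤ X / (Real.log X) ^ 2) →
    ((((Ioc X (2 * X)).filter (fun n => ¬ (RegA S M K X n ∧ RegB S M K η X n ∧ RegC S M K η X n))).card : ℝ) ≤ θ * X) ∧
    ((((Ioc X (2 * X)).filter (fun p => S p ∧
      ¬ (RegA S M K X p ∧ RegB S M K η X p ∧ RegC S M K η X p ∧ RichX S (K * Real.log X) K c c' X p))).card : ℝ) ≤
        (c + c' + θ) * (X / Real.log X)) ∧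
    ∀ ρ : ℝ, c + c' ≤ ρ → ρ * (X / Real.log X) ≤ (pcs S X X : ℝ) →
      ((ρ - c - c') ^ 2 / (4 * C) - θ) * X ≤ (((Ioc X (2 * X)).filter (fun n =>
        RegA S M K X n ∧ RegB S M K η X n ∧ RegC S M K η X n ∧ RichX S (K * Real.log X) K c c' X n)).card : ℝ) := by
  obtain ⟨η1, hη1⟩ : ∃ η1 : ℝ, η1 = min (min (θ / 4) η) ((θ / 4) ^ 2 / (4 * C)) := ⟨_, rfl⟩
  have hη10 : 0 < η1 := by rw [hη1]; exact lt_min (lt_min (by positivity) hη) (by positivity)
  have hη1a : η1 ≤ θ / 4 := by rw [hη1]; exact (min_le_left _ _).trans (min_le_left _ _)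
  have hη1c : η1 ≤ η := by rw [hη1]; exact (min_le_left _ _).trans (min_le_right _ _)
  have hη1b : η1 * (4 * C) ≤ (θ / 4) ^ 2 := by
    have : η1 ≤ (θ / 4) ^ 2 / (4 * C) := by rw [hη1]; exact min_le_right _ _
    rwa [le_div_iff₀ (by positivity)] at this
  obtain ⟨δ, hδ⟩ : ∃ δ : ℝ, δ = min (θ / 4) (θ * C / (4 * (1 + 8 * C))) := ⟨_, rfl⟩
  have hδ0 : 0 < δ := by rw [hδ]; exact lt_min (by positivity) (by positivity)
  have hδ1 : δ ≤ θ / 4 := by rw [hδ]; exact min_le_left _ _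
  have hδ2 : δ * (4 * (1 + 8 * C)) ≤ θ * C := by
    have : δ ≤ θ * C / (4 * (1 + 8 * C)) := by rw [hδ]; exact min_le_right _ _
    rwa [le_div_iff₀ (by positivity)] at this
  obtain ⟨K1, hK1, X1, hX1⟩ := regS M η1 2 C hM hη10 le_rfl hC
  obtain ⟨K3, hK3, X3, hX3⟩ := lowS c c' δ C hc hc' hδ0 hC
  obtain ⟨X4, hX4⟩ := ev_small 2 (by norm_num)
  have hlogtend : Filter.Tendsto (fun n : ℕ => Real.log (n : ℝ)) Filter.atTop Filter.atTop :=
    Real.tendsto_log_atTop.comp tendsto_natCast_atTop_atTop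
  obtain ⟨X6, hX6⟩ := Filter.eventually_atTop.mp (hlogtend.eventually_ge_atTop (4 / θ + 4))
  have hsqtend : Filter.Tendsto (fun n : ℕ => √(n : ℝ)) Filter.atTop Filter.atTop :=
    Real.tendsto_sqrt_atTop.comp tendsto_natCast_atTop_atTop
  obtain ⟨X7, hX7⟩ := Filter.eventually_atTop.mp (hsqtend.eventually_ge_atTop (8 / θ + 4))
  obtain ⟨K, hKd⟩ : ∃ K : ℝ, K = K1 + KB + 4 * K3 := ⟨_, rfl⟩
  have hKa : K1 ≤ K := by linarith
  have hKb : KB ≤ K := by linarith
  have hKc : 4 * K3 ≤ K := by linarith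
  refine ⟨K, by linarith, max (max X1 X3) (max (max X4 X7) (max X6 16)), ?_⟩
  intro S _ X hX hE hup
  have g1 : X1 ≤ X := le_trans (le_trans (le_max_left _ _) (le_max_left _ _)) hX
  have g3 : X3 ≤ X := le_trans (le_trans (le_max_right _ _) (le_max_left _ _)) hX
  have g4 : X4 ≤ X := le_trans (le_trans (le_trans (le_max_left _ _) (le_max_left _ _)) (le_max_right _ _)) hX
  have g5 : X7 ≤ X := le_trans (le_trans (le_trans (le_max_right _ _) (le_max_left _ _)) (le_max_right _ _)) hX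
  have g6 : X6 ≤ X := le_trans (le_trans (le_trans (le_max_left _ _) (le_max_right _ _)) (le_max_right _ _)) hX
  have g7 : 16 ≤ X := le_trans (le_trans (le_trans (le_max_right _ _) (le_max_right _ _)) (le_max_right _ _)) hX
  have hXR : (16 : ℝ) ≤ X := by exact_mod_cast g7
  have hX0 : (0 : ℝ) < X := by linarith
  have hL := hX6 X g6
  have hsq7 := hX7 X g5
  have h4η : 0 < 4 / θ := by positivity
  have h8η : 0 < 8 / θ := by positivity
  have hL4 : 4 ≤ Real.log X := by linarith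
  have hL0 : 0 < Real.log X := by linarith
  have hLη : 4 ≤ θ * Real.log X := by
    have : 4 / θ ≤ Real.log X := by linarith
    rw [div_le_iff₀ hθ] at this
    linarith
  have hlog2X : Real.log X ≤ Real.log ((2 * X : ℕ) : ℝ) := by
    apply Real.log_le_log hX0
    push_cast
    linarith
  have hX4' := hX4 X g4
  rw [Real.rpow_two] at hX4'
  obtain ⟨h, hh⟩ : ∃ h : ℕ, h = ⌈2 * Real.log X⌉₊ := ⟨_, rfl⟩
  have hh1 : 2 * Real.log X ≤ h := by rw [hh]; exact Nat.le_ceil _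
  have hh2 : (h : ℝ) < 2 * Real.log X + 1 := by rw [hh]; exact Nat.ceil_lt_add_one (by positivity)
  have hh3 : (h : ℝ) ≤ √X := by nlinarith
  have hh0 : 1 ≤ h := by
    have : (0 : ℝ) < h := by linarith
    exact_mod_cast this
  have hhR : (0 : ℝ) < h := by exact_mod_cast hh0
  have hsqX : √(X : ℝ) * √(X : ℝ) = X := Real.mul_self_sqrt (by positivity)
  have h2X : 2 * h ≤ X := by
    have : 2 * (h : ℝ) ≤ X := by nlinarith
    exact_mod_cast this
  have h8X : 8 * (h : ℝ) ≤ θ * X := by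
    have h1 : 8 ≤ θ * √(X : ℝ) := by
      have : 8 / θ ≤ √(X : ℝ) := by linarith
      rw [div_le_iff₀ hθ] at this
      linarith
    calc 8 * (h : ℝ) ≤ (θ * √(X : ℝ)) * √(X : ℝ) := mul_le_mul h1 hh3 hhR.le (by positivity)
      _ = θ * X := by rw [mul_assoc, hsqX]
  obtain ⟨BadR, hBR1, hBR2⟩ := hX1 S X g1 hE h 0 hh1 (by linarith) hh0
  obtain ⟨BadL, hBL1, hBL2⟩ := hX3 S X g3 hE h 0 hh1 hh3 hh0
  have hEn := fs_energy S C hC X h 0 hE (by omega) (by linarith) (by omega) hh0 BadR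
  have hregular : ∀ n, X < n → n ≤ 2 * X → idx h 0 n ∉ BadR → RegB S M KB η X n →
      RegA S M K X n ∧ RegB S M K η X n ∧ RegC S M K η X n := by
    intro n hn1 hn2 hn3 hn4
    obtain ⟨r1, r2⟩ := hBR2 n hn1 hn2 hn3
    exact ⟨RegA_mono hK1 hKa hL0.le r1, RegB_mono hKB hKb (by linarith) hn4,
      RegC_mono hK1 hKa hη1c hL0.le r2⟩
  have hrich : ∀ n, X < n → n ≤ 2 * X → idx h 0 n ∉ BadL → RichX S (K * Real.log X) K c c' X n := by
    intro n hn1 hn2 hn3
    refine RichX_mono ?_ hK3 (by linarith) (hBL2 n hn1 hn2 hn3)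
    calc K3 * h ≤ K3 * (4 * Real.log X) := mul_le_mul_of_nonneg_left (by linarith) hK3.le
      _ = 4 * K3 * Real.log X := by ring
      _ ≤ K * Real.log X := mul_le_mul_of_nonneg_right hKc hL0.le
  have hXL : (X : ℝ) / (Real.log X) ^ 2 ≤ θ / 4 * (X / Real.log X) := by
    rw [div_le_iff₀ (by positivity)]
    have e : θ / 4 * ((X : ℝ) / Real.log X) * (Real.log X) ^ 2 = (θ * Real.log X / 4) * X := by
      field_simp
    rw [e]
    nlinarith
  have hXL2 : (X : ℝ) / Real.log X ≤ X / 4 := div_le_div_of_nonneg_left hX0.le (by norm_num) hL4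
  have hi : (((Ioc X (2 * X)).filter (fun n => ¬ (RegA S M K X n ∧ RegB S M K η X n ∧ RegC S M K η X n))).card : ℝ) ≤
      θ / 2 * X := by
    have hsub : (Ioc X (2 * X)).filter (fun n => ¬ (RegA S M K X n ∧ RegB S M K η X n ∧ RegC S M K η X n)) ⊆
        (Ioc X (2 * X)).filter (fun n => idx h 0 n ∈ BadR) ∪
        (Ioc X (2 * X)).filter (fun n => ¬ RegB S M KB η X n) := by
      intro n hn
      rw [mem_filter, mem_Ioc] at hn
      rw [mem_union, mem_filter, mem_filter, mem_Ioc]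
      by_contra hcon
      push Not at hcon
      exact hn.2 (hregular n hn.1.1 hn.1.2 (hcon.1 hn.1) (hcon.2 hn.1))
    have h1 := (card_le_card hsub).trans (card_union_le _ _)
    have h2 : ((((Ioc X (2 * X)).filter (fun n => ¬ (RegA S M K X n ∧ RegB S M K η X n ∧ RegC S M K η X n))).card : ℕ) : ℝ) ≤
        (((Ioc X (2 * X)).filter (fun n => idx h 0 n ∈ BadR)).card : ℝ) +
        (((Ioc X (2 * X)).filter (fun n => ¬ RegB S M KB η X n)).card : ℝ) := by exact_mod_cast h1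
    have h3 := int_bad X h 0 hh0 hh0 h2X BadR
    have h4 : θ / 4 * ((X : ℝ) / Real.log X) ≤ θ / 4 * (X / 4) := mul_le_mul_of_nonneg_left hXL2 (by positivity)
    have h5 : η1 * X ≤ θ / 4 * X := mul_le_mul_of_nonneg_right hη1a hX0.le
    have h6 : 0 < θ * X := by positivity
    linarith
  refine ⟨hi.trans (by nlinarith), ?_, ?_⟩
  · have hsub : (Ioc X (2 * X)).filter (fun p => S p ∧
        ¬ (RegA S M K X p ∧ RegB S M K η X p ∧ RegC S M K η X p ∧ RichX S (K * Real.log X) K c c' X p)) ⊆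
        ((Ioc X (2 * X)).filter (fun p => S p ∧ idx h 0 p ∈ BadR) ∪
        (Ioc X (2 * X)).filter (fun p => S p ∧ idx h 0 p ∈ BadL)) ∪
        (Ioc X (2 * X)).filter (fun n => ¬ RegB S M KB η X n) := by
      intro n hn
      rw [mem_filter, mem_Ioc] at hn
      rw [mem_union, mem_union, mem_filter, mem_filter, mem_filter, mem_Ioc]
      by_contra hcon
      push Not at hcon
      obtain ⟨⟨q1, q2⟩, q3⟩ := hcon
      obtain ⟨r1, r2, r3⟩ := hregular n hn.1.1 hn.1.2 (q1 hn.1 hn.2.1) (q3 hn.1)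
      exact hn.2.2 ⟨r1, r2, r3, hrich n hn.1.1 hn.1.2 (q2 hn.1 hn.2.1)⟩
    have h1 := (card_le_card hsub).trans ((card_union_le _ _).trans (Nat.add_le_add_right (card_union_le _ _) _))
    have h2 : ((((Ioc X (2 * X)).filter (fun p => S p ∧
        ¬ (RegA S M K X p ∧ RegB S M K η X p ∧ RegC S M K η X p ∧ RichX S (K * Real.log X) K c c' X p))).card : ℕ) : ℝ) ≤
        (((Ioc X (2 * X)).filter (fun p => S p ∧ idx h 0 p ∈ BadR)).card : ℝ) +
        (((Ioc X (2 * X)).filter (fun p => S p ∧ idx h 0 p ∈ BadL)).card : ℝ) +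
        (((Ioc X (2 * X)).filter (fun n => ¬ RegB S M KB η X n)).card : ℝ) := by exact_mod_cast h1
    have h3 := prs_bad S X h 0 (by omega) hh0 hh0 h2X BadR
    have h4 := prs_bad S X h 0 (by omega) hh0 hh0 h2X BadL
    have h5 : ∑ i ∈ BadR, fs S X h 0 i ≤ θ / 4 * (X / h) := by
      have h6 : (∑ i ∈ BadR, fs S X h 0 i) ^ 2 ≤ (θ / 4 * (X / h)) ^ 2 := by
        refine (sq_sum_le_card_mul_sum_sq).trans ?_
        have h7 : (BadR.card : ℝ) ≤ η1 * X / h := by
          rw [le_div_iff₀ hhR]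
          exact hBR1
        calc (BadR.card : ℝ) * ∑ i ∈ BadR, fs S X h 0 i ^ 2 ≤ (η1 * X / h) * (4 * C * (X / h)) :=
              mul_le_mul h7 hEn (sum_nonneg fun i _ => sq_nonneg _) (by positivity)
          _ = (η1 * (4 * C)) * ((X / h) ^ 2) := by ring
          _ ≤ (θ / 4) ^ 2 * ((X / h) ^ 2) := mul_le_mul_of_nonneg_right hη1b (by positivity)
          _ = (θ / 4 * (X / h)) ^ 2 := by ring
      exact (abs_le_of_sq_le_sq' h6 (by positivity)).2
    have h8 : (h : ℝ) / Real.log X * ∑ i ∈ BadR, fs S X h 0 i ≤ θ / 4 * (X / Real.log X) := by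
      calc (h : ℝ) / Real.log X * ∑ i ∈ BadR, fs S X h 0 i ≤ h / Real.log X * (θ / 4 * (X / h)) :=
            mul_le_mul_of_nonneg_left h5 (by positivity)
        _ = θ / 4 * (X / Real.log X) := by field_simp
    have h9 : (h : ℝ) / Real.log X * ∑ i ∈ BadL, fs S X h 0 i ≤ (c + c' + δ) * (X / Real.log X) := by
      calc (h : ℝ) / Real.log X * ∑ i ∈ BadL, fs S X h 0 i ≤ h / Real.log X * ((c + c' + δ) * (X / h)) :=
            mul_le_mul_of_nonneg_left hBL1 (by positivity)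
        _ = (c + c' + δ) * (X / Real.log X) := by field_simp
    have h10 : 0 ≤ (X : ℝ) / Real.log X := by positivity
    have h11 : (c + c' + δ) * (X / Real.log X) ≤ (c + c' + θ / 4) * (X / Real.log X) :=
      mul_le_mul_of_nonneg_right (by linarith) h10
    have h12 : 0 ≤ θ * (X / Real.log X) := by positivity
    linarith
  · intro ρ hρ hmass
    have hρ0 : 0 ≤ ρ := by linarith
    have hρ2 : ρ ^ 2 ≤ 8 * C := by
      have h1 := cntS S C hC X h 0 hE (by omega) (by linarith) h2X hh0 ∅ ρ 0 hρ0 (by simp) hmass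
      have h2 : (((Ioc X (2 * X)).filter (fun n => idx h 0 n ∉ (∅ : Finset ℤ))).card : ℝ) ≤ X := by
        have : ((Ioc X (2 * X)).filter (fun n => idx h 0 n ∉ (∅ : Finset ℤ))).card ≤ X := by
          refine (card_filter_le _ _).trans ?_
          rw [Nat.card_Ioc]
          omega
        exact_mod_cast this
      have h3 : (2 : ℝ) * h ≤ X := by exact_mod_cast h2X
      have h4 : ρ ^ 2 / (4 * C) * X ≤ 2 * X := by
        have e : (ρ - 0) ^ 2 = ρ ^ 2 := by ring
        rw [e] at h1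
        linarith
      have h5 := le_of_mul_le_mul_right h4 hX0
      rw [div_le_iff₀ (by positivity)] at h5
      linarith
    have hρ8 : ρ ≤ 1 + 8 * C := by nlinarith [sq_nonneg (ρ - 1)]
    obtain ⟨w, hw⟩ : ∃ w : ℝ, w = ρ - c - c' := ⟨_, rfl⟩
    have hw0 : 0 ≤ w := by linarith
    have hw1 : w ≤ 1 + 8 * C := by linarith
    have hcount : (w ^ 2 / (4 * C) - θ / 2) * X ≤ (((Ioc X (2 * X)).filter (fun n => idx h 0 n ∉ BadL)).card : ℝ) := by
      by_cases hwδ : w ≤ δ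
      · have h1 : w ^ 2 / (4 * C) ≤ θ / 2 := by
          rw [div_le_iff₀ (by positivity)]
          have h2 : w ^ 2 ≤ δ * (1 + 8 * C) := by nlinarith
          nlinarith
        have h3 : (w ^ 2 / (4 * C) - θ / 2) * X ≤ 0 := mul_nonpos_of_nonpos_of_nonneg (by linarith) hX0.le
        exact h3.trans (Nat.cast_nonneg _)
      · push Not at hwδ
        have h1 := cntS S C hC X h 0 hE (by omega) (by linarith) h2X hh0 BadL ρ (c + c' + δ) (by linarith) hBL1 hmass
        have e : ρ - (c + c' + δ) = w - δ := by rw [hw]; ring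
        rw [e] at h1
        have h2 : w ^ 2 / (4 * C) - θ / 8 ≤ (w - δ) ^ 2 / (4 * C) := by
          have h3 : w ^ 2 - θ / 8 * (4 * C) ≤ (w - δ) ^ 2 := by
            have h4 : 2 * w * δ ≤ 2 * (1 + 8 * C) * δ := by
              have := mul_le_mul_of_nonneg_right hw1 hδ0.le
              linarith
            nlinarith [sq_nonneg δ]
          rw [le_div_iff₀ (by positivity), sub_mul, div_mul_cancel₀ _ (by positivity)]
          exact h3
        have h5 := mul_le_mul_of_nonneg_right h2 hX0.le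
        have h6 : 0 < θ * X := by positivity
        nlinarith
    have hsub : (Ioc X (2 * X)).filter (fun n => idx h 0 n ∉ BadL) ⊆
        (Ioc X (2 * X)).filter (fun n =>
          RegA S M K X n ∧ RegB S M K η X n ∧ RegC S M K η X n ∧ RichX S (K * Real.log X) K c c' X n) ∪
        (Ioc X (2 * X)).filter (fun n => ¬ (RegA S M K X n ∧ RegB S M K η X n ∧ RegC S M K η X n)) := by
      intro n hn
      rw [mem_filter, mem_Ioc] at hn
      rw [mem_union, mem_filter, mem_filter, mem_Ioc]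
      by_cases hr : RegA S M K X n ∧ RegB S M K η X n ∧ RegC S M K η X n
      · left
        exact ⟨hn.1, hr.1, hr.2.1, hr.2.2, hrich n hn.1.1 hn.1.2 hn.2⟩
      · right
        exact ⟨hn.1, hr⟩
    have h1 := (card_le_card hsub).trans (card_union_le _ _)
    have h2 : (((Ioc X (2 * X)).filter (fun n => idx h 0 n ∉ BadL)).card : ℝ) ≤
        (((Ioc X (2 * X)).filter (fun n =>
          RegA S M K X n ∧ RegB S M K η X n ∧ RegC S M K η X n ∧ RichX S (K * Real.log X) K c c' X n)).card : ℝ) +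
        (((Ioc X (2 * X)).filter (fun n => ¬ (RegA S M K X n ∧ RegB S M K η X n ∧ RegC S M K η X n))).card : ℝ) := by
      exact_mod_cast h1
    rw [← hw]
    linarith

open Classical in
theorem finW : ∃ κ : ℝ, 0 < κ ∧ ∀ M c c' η : ℝ, 1 ≤ M → 0 ≤ c → 0 ≤ c' → 0 < η →
    ∃ K : ℝ, 0 < K ∧ ∃ X0 : ℕ, ∀ X : ℕ, X0 ≤ X → ∀ B : ℕ,
    ((((Ioc X (2 * X)).filter (fun n => ¬ (RegA (Sh B) M K X n ∧ RegB (Sh B) M K η X n ∧ RegC (Sh B) M K η X n))).card : ℝ) ≤
      η * X) ∧
    ((((Ioc X (2 * X)).filter (fun p => Sh B p ∧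
      ¬ (RegA (Sh B) M K X p ∧ RegB (Sh B) M K η X p ∧ RegC (Sh B) M K η X p ∧
        RichX (Sh B) (K * Real.log X) K c c' X p))).card : ℝ) ≤ (c + c' + η) * (X / Real.log X)) ∧
    ∀ ρ : ℝ, c + c' ≤ ρ → ρ * (X / Real.log X) ≤ (pcs (Sh B) X X : ℝ) →
      (κ * (ρ - c - c') ^ 2 - η) * X ≤ (((Ioc X (2 * X)).filter (fun n =>
        RegA (Sh B) M K X n ∧ RegB (Sh B) M K η X n ∧ RegC (Sh B) M K η X n ∧
          RichX (Sh B) (K * Real.log X) K c c' X n)).card : ℝ) := by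
  obtain ⟨C, hC, X1, hX1⟩ := engW
  refine ⟨1 / (4 * C), by positivity, ?_⟩
  intro M c c' η hM hc hc' hη
  obtain ⟨KB, hKB, X2, hX2⟩ := upW M η hM hη
  obtain ⟨K, hK, X3, hX3⟩ := finS M c c' η η C KB hM hc hc' hη hη hC hKB
  refine ⟨K, hK, max (max X1 X2) X3, ?_⟩
  intro X hX B
  have g1 : X1 ≤ X := le_trans (le_trans (le_max_left _ _) (le_max_left _ _)) hX
  have g2 : X2 ≤ X := le_trans (le_trans (le_max_right _ _) (le_max_left _ _)) hX
  have g3 : X3 ≤ X := le_trans (le_max_right _ _) hX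
  obtain ⟨h1, h2, h3⟩ := hX3 (Sh B) X g3 (hX1 X g1 B) (hX2 X g2 B)
  refine ⟨h1, h2, ?_⟩
  intro ρ hρ hm
  have h4 := h3 ρ hρ hm
  have e : 1 / (4 * C) * (ρ - c - c') ^ 2 = (ρ - c - c') ^ 2 / (4 * C) := by ring
  rw [e]
  exact h4

end Pool.Agent.H67.RW
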